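import Pool.Agent.Work.MP_52dd0f_an.Calc

/-!
# Amplifications and corner maps
-/

set_option linter.unusedSectionVars false

namespace SCO

open Filter Topology
open scoped ComplexOrder ComplexConjugate

universe u v

section

variable {N M : Type u} [CStarAlgebra N] [TVN N] [FactorII N] [CStarAlgebra M] [TVN M] [FactorII M]

/-- an amplification is a corner of a matrix algebra -/
theorem IsAmplification.cornerMap [PartialOrder N] [StarOrderedRing N] {t : ℝ}
    (h : IsAmplification N (tr : N →ₗ[ℂ] ℂ) M t) :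
    ∃ (n : ℕ) (_ : NeZero n) (Φ : M →⋆ₙₐ[ℂ] Mt n N) (P : Mt n N), CornerMap Φ P ∧ tau P = t / n := by
  obtain ⟨n, p, φ, hpp, hps, hpt, hinj, hran⟩ := h
  have hn : n ≠ 0 := by
    rintro rfl
    obtain ⟨x, y, hxy⟩ := exists_pair_ne M
    exact hxy (hinj (Subsingleton.elim _ _))
  have : NeZero n := ⟨hn⟩
  let E : Matrix (Fin n) (Fin n) N ≃⋆ₐ[ℂ] Mt n N := CStarMatrix.ofMatrixStarAlgEquiv
  let Φ : M →⋆ₙₐ[ℂ] Mt n N :=
    { toFun := fun a => E (φ a)
      map_smul' := fun c a => by rw [map_smul, map_smul]; rfl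
      map_zero' := by rw [map_zero, map_zero]
      map_add' := fun a b => by rw [map_add, map_add]
      map_mul' := fun a b => by rw [map_mul, map_mul]
      map_star' := fun a => by rw [map_star, map_star] }
  have hΦ : ∀ a, Φ a = E (φ a) := fun _ => rfl
  set P : Mt n N := E p with hP
  have hPproj : IsProj P := by
    refine ⟨?_, ?_⟩
    · rw [hP, ← map_mul, hpp]
    · rw [hP, ← map_star, hps]
  have hcorner : ∀ y, p * φ y * p = φ y := fun y => by
    have : φ y ∈ Set.range φ := ⟨y, rfl⟩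
    rw [hran] at this
    exact this
  have h1 : φ 1 = p := by
    obtain ⟨y, hy⟩ : p ∈ Set.range φ := by rw [hran]; show p * p * p = p; rw [hpp, hpp]
    have h2 : φ 1 * p = p := by rw [← hy, ← map_mul, one_mul]
    calc φ 1 = p * φ 1 * p := (hcorner 1).symm
      _ = p := by rw [mul_assoc, h2, hpp]
  have hΦ1 : Φ 1 = P := by rw [hΦ, h1]
  have hΦinj : Function.Injective Φ := fun x y hxy => hinj (E.injective hxy)
  have hP0 : P ≠ 0 := by
    intro h0
    have h2 : Φ 1 = Φ 0 := by rw [hΦ1, h0, map_zero]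
    exact one_ne_zero (hΦinj h2)
  have htP := hPproj.tau_pos hP0
  have htP' : ((tau P : ℝ) : ℂ) ≠ 0 := by exact_mod_cast htP.ne'
  refine ⟨n, this, Φ, P, ⟨hPproj, hΦinj, ?_, ?_, hΦ1, ?_⟩, ?_⟩
  · intro x hx
    have h2 : p * E.symm x * p = E.symm x := by
      have h3 : E (p * E.symm x * p) = E (E.symm x) := by
        rw [map_mul, map_mul]
        have : E (E.symm x) = x := E.apply_symm_apply x
        rw [this, ← hP, hx]
      exact E.injective h3
    obtain ⟨y, hy⟩ : E.symm x ∈ Set.range φ := by rw [hran]; exact h2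
    exact ⟨y, by rw [hΦ, hy]; exact E.apply_symm_apply x⟩
  · intro y
    rw [hΦ, hP, ← map_mul, ← map_mul, hcorner]
  · intro y
    let ψ : M →ₗ[ℂ] ℂ :=
      { toFun := fun y => ((tau P : ℝ) : ℂ)⁻¹ * TrC.tr (Φ y)
        map_add' := fun x y => by rw [map_add, map_add, mul_add]
        map_smul' := fun c x => by
          rw [map_smul, map_smul, smul_eq_mul, RingHom.id_apply, smul_eq_mul]; ring }
    have hψ : ∀ y, ψ y = ((tau P : ℝ) : ℂ)⁻¹ * TrC.tr (Φ y) := fun _ => rfl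
    have hst : IsTrState ψ := by
      refine ⟨?_, ?_, ?_⟩
      · rw [hψ, hΦ1, hPproj.tr_eq, inv_mul_cancel₀ htP']
      · intro x y
        rw [hψ, hψ, map_mul Φ, map_mul Φ, tr_comm]
      · intro x
        rw [hψ, map_mul Φ, map_star]
        have h2 : (0 : ℂ) ≤ ((tau P : ℝ) : ℂ)⁻¹ := by
          rw [← Complex.ofReal_inv, Complex.zero_le_real]; positivity
        exact mul_nonneg h2 (tr_pos _)
    have h2 := hst.eq y
    rw [hψ] at h2
    rw [← h2, mul_inv_cancel_left₀ htP']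
  · show (TrC.tr P).re = t / n
    have h2 : ∑ i, TrC.tr (P i i) = (t : ℂ) := hpt
    rw [tr_mat, h2]
    have : (n : ℂ)⁻¹ * (t : ℂ) = (((n : ℝ)⁻¹ * t : ℝ) : ℂ) := by push_cast; rfl
    rw [this, Complex.ofReal_re, inv_mul_eq_div]

end

/-- `Y` is the amplification of `N` by `t`, in terms of corners of a common factor -/
def Rel (N Y : Type u) [CStarAlgebra N] [TVN N] [CStarAlgebra Y] [TVN Y] (t : ℝ) : Prop :=
  ∃ (A : Type u) (_ : CStarAlgebra A) (_ : TVN A) (_ : FactorII A) (φ : N →⋆ₙₐ[ℂ] A) (e : A)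
    (ψ : Y →⋆ₙₐ[ℂ] A) (f : A), CornerMap φ e ∧ CornerMap ψ f ∧ tau f = t * tau e

section Rel

variable {N Y Z : Type u} [CStarAlgebra N] [TVN N] [CStarAlgebra Y] [TVN Y] [CStarAlgebra Z] [TVN Z]

theorem Rel.pos {t : ℝ} (h : Rel N Y t) : 0 < t := by
  obtain ⟨A, _, _, _, φ, e, ψ, f, hφ, hψ, ht⟩ := h
  have h1 := hφ.tau_pos
  have h2 := hψ.tau_pos
  rw [ht] at h2
  exact pos_of_mul_pos_left h2 h1.le

/-- the bigger algebra contains the smaller as a corner -/
theorem Rel.cornerMap_of_le_one {t : ℝ} (h : Rel N Y t) (ht : t ≤ 1) :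
    ∃ (χ : Y →⋆ₙₐ[ℂ] N) (r : N), CornerMap χ r ∧ tau r = t := by
  obtain ⟨A, _, _, _, φ, e, ψ, f, hφ, hψ, htr⟩ := h
  have h1 := hφ.tau_pos
  obtain ⟨χ, r, hχ, hr⟩ := hφ.factor hψ (by rw [htr]; nlinarith)
  refine ⟨χ, r, hχ, ?_⟩
  rw [hr, htr]
  field_simp

theorem Rel.cornerMap_of_one_le {t : ℝ} (h : Rel N Y t) (ht : 1 ≤ t) :
    ∃ (χ : N →⋆ₙₐ[ℂ] Y) (r : Y), CornerMap χ r ∧ tau r = 1 / t := by
  obtain ⟨A, _, _, _, φ, e, ψ, f, hφ, hψ, htr⟩ := h
  have h1 := hφ.tau_pos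
  obtain ⟨χ, r, hχ, hr⟩ := hψ.factor hφ (by rw [htr]; nlinarith)
  refine ⟨χ, r, hχ, ?_⟩
  rw [hr, htr]
  field_simp

/-- enlarging the first algebra -/
theorem Rel.mat [PartialOrder N] [StarOrderedRing N] {n : ℕ} [NeZero n] {t : ℝ} (h : Rel N Y t) :
    Rel (Mt n N) Y (t / n) := by
  obtain ⟨A, i1, i2, i3, φ, e, ψ, f, hφ, hψ, htr⟩ := h
  let _ := CStarAlgebra.spectralOrder A
  have _ := CStarAlgebra.spectralOrderedRing A
  obtain ⟨φ', e', hφ', he', -⟩ := cornerMap_entry (n := n) hφ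
  obtain ⟨σ, g, hσ, hg, -⟩ := cornerMap_sg (N := A) (n := n)
  refine ⟨Mt n A, inferInstance, inferInstance, inferInstance, φ', e', σ.comp ψ, σ f, hφ', hψ.comp hσ, ?_⟩
  rw [hσ.tau_map, hg, htr, he']
  ring

end Rel

section

variable {N M M' : Type u} [CStarAlgebra N] [TVN N] [FactorII N] [CStarAlgebra M] [TVN M] [FactorII M]
  [CStarAlgebra M'] [TVN M'] [FactorII M']

/-- an amplification, as a relation -/
theorem IsAmplification.rel {t : ℝ} (h : IsAmplification N (tr : N →ₗ[ℂ] ℂ) M t) : Rel N M t := by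
  let _ := CStarAlgebra.spectralOrder N
  have _ := CStarAlgebra.spectralOrderedRing N
  obtain ⟨n, hn, Φ, P, hΦ, hP⟩ := h.cornerMap
  obtain ⟨σ, g, hσ, hg, -⟩ := cornerMap_sg (N := N) (n := n)
  refine ⟨Mt n N, inferInstance, inferInstance, inferInstance, σ, g, Φ, P, hσ, hΦ, ?_⟩
  rw [hP, hg]; ring

/-- two amplifications of the same factor -/
theorem IsAmplification.rel₂ {t s : ℝ} (h : IsAmplification N (tr : N →ₗ[ℂ] ℂ) M t)
    (h' : IsAmplification N (tr : N →ₗ[ℂ] ℂ) M' s) : Rel M M' (s / t) := by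
  let _ := CStarAlgebra.spectralOrder N
  have _ := CStarAlgebra.spectralOrderedRing N
  have ht := h.rel.pos
  obtain ⟨n, hn, Φ, P, hΦ, hP⟩ := h.cornerMap
  obtain ⟨k, hk, Ψ, Q, hΨ, hQ⟩ := h'.cornerMap
  obtain ⟨σ, g, hσ, hg, -⟩ := cornerMap_sg (N := N) (n := n)
  let _ := CStarAlgebra.spectralOrder (Mt n N)
  have _ := CStarAlgebra.spectralOrderedRing (Mt n N)
  obtain ⟨σ', g', hσ', hg', -⟩ := cornerMap_entry (n := k) hσ
  obtain ⟨ρ, r, hρ, hr, -⟩ := cornerMap_sg (N := Mt n N) (n := k)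
  refine ⟨Mt k (Mt n N), inferInstance, inferInstance, inferInstance, ρ.comp Φ, ρ P, σ'.comp Ψ, σ' Q,
    hΦ.comp hρ, hΨ.comp hσ', ?_⟩
  rw [hρ.tau_map, hσ'.tau_map, hr, hg', hg, hP, hQ]
  field_simp

theorem separable_of_amplification {t : ℝ} (h : IsAmplification N (tr : N →ₗ[ℂ] ℂ) M t)
    (hs : IsSeparable₂ (tr : N →ₗ[ℂ] ℂ)) : IsSeparable₂ (tr : M →ₗ[ℂ] ℂ) := by
  let _ := CStarAlgebra.spectralOrder N
  have _ := CStarAlgebra.spectralOrderedRing N
  obtain ⟨n, hn, Φ, P, hΦ, hP⟩ := h.cornerMap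
  exact hΦ.separable (separable_mat hs)

/-- the matrix algebra is an amplification -/
theorem isAmplification_mat [PartialOrder N] [StarOrderedRing N] (n : ℕ) [NeZero n] :
    IsAmplification N (tr : N →ₗ[ℂ] ℂ) (Mt n N) n := by
  let E : Matrix (Fin n) (Fin n) N ≃⋆ₐ[ℂ] Mt n N := CStarMatrix.ofMatrixStarAlgEquiv
  let φ : Mt n N →⋆ₙₐ[ℂ] Matrix (Fin n) (Fin n) N :=
    { toFun := fun a => E.symm a
      map_smul' := fun c a => by rw [map_smul]; rfl
      map_zero' := by rw [map_zero]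
      map_add' := fun a b => by rw [map_add]
      map_mul' := fun a b => by rw [map_mul]
      map_star' := fun a => by rw [map_star] }
  refine ⟨n, 1, φ, by rw [one_mul], star_one _, ?_, E.symm.injective, ?_⟩
  · simp [tr_one]
  · ext x
    constructor
    · intro _
      show 1 * x * 1 = x
      rw [one_mul, mul_one]
    · intro _
      exact ⟨E x, E.symm_apply_apply x⟩

/-- **Passing up** for amplifications -/
theorem oneOrbit_up {t s : ℝ} (h : IsAmplification N (tr : N →ₗ[ℂ] ℂ) M t)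
    (h' : IsAmplification N (tr : N →ₗ[ℂ] ℂ) M' s) (hts : t ≤ s) (hM : OneOrbit M) : OneOrbit M' := by
  have ht := h.rel.pos
  obtain ⟨χ, r, hχ, -⟩ := (h.rel₂ h').cornerMap_of_one_le (by rw [le_div_iff₀ ht]; linarith)
  exact oneOrbit_of_corner hχ hM

/-- iterates of a corner endomorphism -/
theorem exists_iterate {θ : N →⋆ₙₐ[ℂ] N} {e : N} (hθ : CornerMap θ e) (j : ℕ) :
    ∃ (θ' : N →⋆ₙₐ[ℂ] N) (e' : N), CornerMap θ' e' ∧ tau e' = tau e ^ j := by
  induction j with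
  | zero => exact ⟨_, _, CornerMap.id, by rw [tau_one, pow_zero]⟩
  | succ j ih =>
    obtain ⟨θ', e', h1, h2⟩ := ih
    exact ⟨_, _, h1.comp hθ, by rw [hθ.tau_map, h2, pow_succ]; ring⟩

/-- nontrivial fundamental group gives arbitrarily small corner endomorphisms -/
theorem exists_small_endo {s : ℝ} (hs : s ≠ 1) (h : IsAmplification N (tr : N →ₗ[ℂ] ℂ) N s) {ε : ℝ}
    (hε : 0 < ε) : ∃ (θ : N →⋆ₙₐ[ℂ] N) (e : N), CornerMap θ e ∧ tau e < ε := by
  have hs0 := h.rel.pos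
  obtain ⟨θ, e, hθ, he⟩ : ∃ (θ : N →⋆ₙₐ[ℂ] N) (e : N), CornerMap θ e ∧ tau e < 1 := by
    rcases lt_or_gt_of_ne hs with h1 | h1
    · obtain ⟨χ, r, hχ, hr⟩ := h.rel.cornerMap_of_le_one h1.le
      exact ⟨χ, r, hχ, by rw [hr]; exact h1⟩
    · obtain ⟨χ, r, hχ, hr⟩ := h.rel.cornerMap_of_one_le h1.le
      exact ⟨χ, r, hχ, by rw [hr, div_lt_one hs0]; exact h1⟩
  obtain ⟨j, hj⟩ := exists_pow_lt_of_lt_one hε he
  obtain ⟨θ', e', h1, h2⟩ := exists_iterate hθ j
  exact ⟨θ', e', h1, by rw [h2]; exact hj⟩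

/-- with nontrivial fundamental group, `N` has one orbit iff all its amplifications have -/
theorem oneOrbit_iff_of_fundamental {s : ℝ} (hs : s ≠ 1)
    (h : IsAmplification N (tr : N →ₗ[ℂ] ℂ) N s) {t : ℝ} (hM : IsAmplification N (tr : N →ₗ[ℂ] ℂ) M t) :
    OneOrbit N ↔ OneOrbit M := by
  let _ := CStarAlgebra.spectralOrder N
  have _ := CStarAlgebra.spectralOrderedRing N
  have ht := hM.rel.pos
  obtain ⟨n, hn, Φ, P, hΦ, hP⟩ := hM.cornerMap
  obtain ⟨σ, g, hσ, hg, -⟩ := cornerMap_sg (N := N) (n := n)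
  have hn0 : (0 : ℝ) < n := by exact_mod_cast Nat.pos_of_ne_zero (NeZero.ne n)
  constructor
  · intro hN
    obtain ⟨θ, e, hθ, he⟩ := exists_small_endo hs h ht
    obtain ⟨χ, r, hχ, -⟩ := hΦ.factor (hθ.comp hσ) (by
      rw [hσ.tau_map, hg, hP, one_div, inv_mul_eq_div]
      exact div_le_div_of_nonneg_right he.le hn0.le)
    exact oneOrbit_of_corner hχ hN
  · intro hN
    obtain ⟨θ, e, hθ, he⟩ := exists_small_endo hs h (ε := 1 / t) (by positivity)
    obtain ⟨θ', e', hθ', he', -⟩ := cornerMap_entry (n := n) hθ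
    obtain ⟨χ, r, hχ, -⟩ := hσ.factor (hΦ.comp hθ') (by
      rw [hθ'.tau_map, he', hP, hg, ← mul_div_assoc]
      apply div_le_div_of_nonneg_right _ hn0.le
      rw [lt_div_iff₀ ht] at he
      exact he.le)
    exact oneOrbit_of_corner hχ hN

end

/-- reduction to `2 × 2` matrices -/
theorem oneOrbit_down_of_two
    (H : ∀ (X : Type u) [CStarAlgebra X] [TVN X] [FactorII X] [PartialOrder X] [StarOrderedRing X],
      IsSeparable₂ (tr : X →ₗ[ℂ] ℂ) → OneOrbit (Mt 2 X) → OneOrbit X) (j : ℕ) :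
    ∀ (N Y : Type u) [CStarAlgebra N] [TVN N] [FactorII N] [CStarAlgebra Y] [TVN Y] [FactorII Y]
      (t : ℝ), IsSeparable₂ (tr : N →ₗ[ℂ] ℂ) → Rel N Y t → t ≤ 2 ^ j → OneOrbit Y → OneOrbit N := by
  induction j with
  | zero =>
    intro N Y _ _ _ _ _ _ t _ hR ht hY
    obtain ⟨χ, r, hχ, -⟩ := hR.cornerMap_of_le_one (by simpa using ht)
    exact oneOrbit_of_corner hχ hY
  | succ j ih =>
    intro N Y _ _ _ _ _ _ t hsep hR ht hY
    let _ := CStarAlgebra.spectralOrder N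
    have _ := CStarAlgebra.spectralOrderedRing N
    apply H N hsep
    refine ih (Mt 2 N) Y (t / (2 : ℕ)) (separable_mat hsep) hR.mat ?_ hY
    rw [pow_succ] at ht
    push_cast
    linarith

end SCO
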