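import Mathlib

/-!
# The 2-norm of a tracial C*-algebra
-/

set_option linter.unusedSectionVars false

namespace SCO

open Filter Topology
open scoped ComplexOrder ComplexConjugate

universe u v

/-- a C*-algebra with a faithful tracial state -/
class TrC (M : Type u) [CStarAlgebra M] where
  tr : M →ₗ[ℂ] ℂ
  tr_one : tr 1 = 1
  tr_comm : ∀ x y : M, tr (x * y) = tr (y * x)
  tr_pos : ∀ x : M, 0 ≤ tr (star x * x)
  tr_faithful : ∀ x : M, tr (star x * x) = 0 → x = 0

export TrC (tr tr_one tr_comm tr_pos tr_faithful)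

section Basic

variable {M : Type u} [CStarAlgebra M] [TrC M]

/-- the 2-norm -/
noncomputable def n2 (x : M) : ℝ := Real.sqrt (tr (star x * x)).re

theorem tr_sq_re_nonneg (x : M) : 0 ≤ (tr (star x * x)).re := (Complex.nonneg_iff.1 (tr_pos x)).1

theorem tr_sq_im (x : M) : (tr (star x * x)).im = 0 := (Complex.nonneg_iff.1 (tr_pos x)).2.symm

theorem tr_sq_eq (x : M) : tr (star x * x) = ((tr (star x * x)).re : ℂ) := by
  apply Complex.ext
  · simp
  · simp [tr_sq_im x]

theorem n2_nonneg (x : M) : 0 ≤ n2 x := Real.sqrt_nonneg _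

theorem n2_sq (x : M) : n2 x ^ 2 = (tr (star x * x)).re := Real.sq_sqrt (tr_sq_re_nonneg x)

theorem n2_sq' (x : M) : ((n2 x ^ 2 : ℝ) : ℂ) = tr (star x * x) := by
  rw [n2_sq]; exact (tr_sq_eq x).symm

theorem tr_star (x : M) : tr (star x) = conj (tr x) := by
  have h1 := tr_sq_im (x + 1)
  have h2 := tr_sq_im (x + (Complex.I) • (1 : M))
  have h0 := tr_sq_im x
  simp only [star_add, star_one, add_mul, mul_add, mul_one, one_mul, map_add, tr_one,
    Complex.add_im, Complex.one_im, star_smul, smul_mul_assoc, mul_smul_comm, map_smul,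
    smul_eq_mul, Complex.star_def, Complex.conj_I, smul_add, smul_smul] at h1 h2
  rw [h0] at h1 h2
  simp at h1 h2
  apply Complex.ext
  · simp only [Complex.conj_re]; linarith
  · simp only [Complex.conj_im]; linarith

theorem n2_eq_zero {x : M} : n2 x = 0 ↔ x = 0 := by
  constructor
  · intro h
    apply tr_faithful
    rw [← n2_sq', h]; simp
  · rintro rfl; simp [n2]

@[simp] theorem n2_zero : n2 (0 : M) = 0 := n2_eq_zero.2 rfl

theorem n2_smul (c : ℂ) (x : M) : n2 (c • x) = ‖c‖ * n2 x := by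
  rw [← Real.sqrt_sq (n2_nonneg (c • x)), ← Real.sqrt_sq (by positivity [n2_nonneg x] :
    0 ≤ ‖c‖ * n2 x)]
  congr 1
  rw [n2_sq, mul_pow, n2_sq]
  rw [star_smul, smul_mul_assoc, mul_smul_comm, smul_smul, map_smul, smul_eq_mul, tr_sq_eq x]
  have : star c * c = ((‖c‖ ^ 2 : ℝ) : ℂ) := by
    rw [Complex.star_def, mul_comm, Complex.mul_conj, Complex.normSq_eq_norm_sq]
  rw [this, ← Complex.ofReal_mul, Complex.ofReal_re, Complex.ofReal_re]

theorem n2_neg (x : M) : n2 (-x) = n2 x := by simp [n2]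

theorem n2_sub_comm (x y : M) : n2 (x - y) = n2 (y - x) := by rw [← n2_neg, neg_sub]

theorem n2_star (x : M) : n2 (star x) = n2 x := by
  unfold n2; rw [star_star, tr_comm]

/-- Cauchy–Schwarz -/
theorem norm_tr_mul_le (x y : M) : ‖tr (star x * y)‖ ≤ n2 x * n2 y := by
  set c : ℂ := tr (star x * y) with hc
  have hyx : tr (star y * x) = conj c := by
    rw [hc, ← tr_star, star_mul, star_star]
  -- for every real `t`: `0 ≤ ‖t c̄... ‖`
  have key : ∀ t : ℝ, 0 ≤ t ^ 2 * n2 y ^ 2 * ‖c‖ ^ 2 - 2 * t * ‖c‖ ^ 2 + n2 x ^ 2 := by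
    intro t
    have h := tr_sq_re_nonneg (x - ((t : ℂ) * conj c) • y)
    have e : tr (star (x - ((t : ℂ) * conj c) • y) * (x - ((t : ℂ) * conj c) • y)) =
        ((t ^ 2 * n2 y ^ 2 * ‖c‖ ^ 2 - 2 * t * ‖c‖ ^ 2 + n2 x ^ 2 : ℝ) : ℂ) := by
      simp only [star_sub, star_smul, sub_mul, mul_sub, smul_mul_assoc, mul_smul_comm, map_sub,
        map_smul, smul_eq_mul, ← n2_sq' y, ← n2_sq' x, hyx, ← hc]
      have h2 : (conj c) * c = ((‖c‖ ^ 2 : ℝ) : ℂ) := by
        rw [mul_comm, Complex.mul_conj, Complex.normSq_eq_norm_sq]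
      simp only [star_mul', Complex.star_def, Complex.conj_conj, Complex.conj_ofReal]
      push_cast at h2 ⊢
      linear_combination (-2 * (t : ℂ) + (t : ℂ) ^ 2 * (n2 y : ℂ) ^ 2) * h2
    rw [e, Complex.ofReal_re] at h
    exact h
  have hx := n2_nonneg x
  have hy := n2_nonneg y
  rcases eq_or_lt_of_le hy with h0 | h0
  · -- n2 y = 0
    have : y = 0 := n2_eq_zero.1 h0.symm
    have hc0 : c = 0 := by rw [hc, this]; simp
    rw [hc0]; simp [this]
  · have h := key (1 / n2 y ^ 2)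
    have hy2 : 0 < n2 y ^ 2 := by positivity
    have h1 : ‖c‖ ^ 2 ≤ (n2 x * n2 y) ^ 2 := by
      have h3 : (1 / n2 y ^ 2) ^ 2 * n2 y ^ 2 * ‖c‖ ^ 2 - 2 * (1 / n2 y ^ 2) * ‖c‖ ^ 2 + n2 x ^ 2
          = n2 x ^ 2 - ‖c‖ ^ 2 / n2 y ^ 2 := by
        field_simp; ring
      rw [h3] at h
      have h4 : ‖c‖ ^ 2 / n2 y ^ 2 ≤ n2 x ^ 2 := by linarith
      rw [div_le_iff₀ hy2] at h4
      nlinarith [h4]
    exact abs_le_of_sq_le_sq' h1 (by positivity) |>.2

theorem norm_tr_le (x : M) : ‖tr x‖ ≤ n2 x := by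
  have h := norm_tr_mul_le (1 : M) x
  have h1 : n2 (1 : M) = 1 := by simp [n2, tr_one]
  rw [star_one, one_mul, h1, one_mul] at h
  exact h

@[simp] theorem n2_one : n2 (1 : M) = 1 := by simp [n2, tr_one]

theorem n2_add_le (x y : M) : n2 (x + y) ≤ n2 x + n2 y := by
  have h : n2 (x + y) ^ 2 ≤ (n2 x + n2 y) ^ 2 := by
    have h1 : n2 (x + y) ^ 2 = n2 x ^ 2 + 2 * (tr (star x * y)).re + n2 y ^ 2 := by
      rw [n2_sq, n2_sq, n2_sq]
      have h2 : tr (star y * x) = conj (tr (star x * y)) := by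
        rw [← tr_star, star_mul, star_star]
      simp only [star_add, add_mul, mul_add, map_add, Complex.add_re, h2, Complex.conj_re]
      ring
    have h3 : (tr (star x * y)).re ≤ n2 x * n2 y :=
      (Complex.re_le_norm _).trans (norm_tr_mul_le x y)
    nlinarith [h1, h3]
  exact abs_le_of_sq_le_sq' h (add_nonneg (n2_nonneg x) (n2_nonneg y)) |>.2

theorem n2_sub_le (x y : M) : n2 (x - y) ≤ n2 x + n2 y := by
  rw [sub_eq_add_neg, ← n2_neg y]; exact n2_add_le _ _

theorem n2_triangle (x y z : M) : n2 (x - z) ≤ n2 (x - y) + n2 (y - z) := by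
  have := n2_add_le (x - y) (y - z)
  rwa [sub_add_sub_cancel] at this

theorem abs_n2_sub_le (x y : M) : |n2 x - n2 y| ≤ n2 (x - y) := by
  rw [abs_le]
  constructor
  · have := n2_add_le (y - x) x
    rw [sub_add_cancel, n2_sub_comm] at this; linarith
  · have := n2_add_le (x - y) y
    rw [sub_add_cancel] at this; linarith

theorem n2_sum_le {ι : Type*} (s : Finset ι) (f : ι → M) : n2 (∑ i ∈ s, f i) ≤ ∑ i ∈ s, n2 (f i) := by
  classical
  induction s using Finset.induction_on with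
  | empty => simp
  | insert a s ha ih =>
    rw [Finset.sum_insert ha, Finset.sum_insert ha]
    exact (n2_add_le _ _).trans (by linarith)

/-- the trace of a positive element -/
theorem tr_nonneg_of_exists {x : M} (h : ∃ y, x = star y * y) : 0 ≤ tr x := by
  obtain ⟨y, rfl⟩ := h; exact tr_pos y

omit [TrC M] in
/-- `‖x‖² - x* x` is a square -/
theorem exists_sq_sub (x : M) : ∃ z : M, ((‖x‖ ^ 2 : ℝ) : ℂ) • (1 : M) - star x * x = star z * z := by
  let _ := CStarAlgebra.spectralOrder M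
  have _ := CStarAlgebra.spectralOrderedRing M
  have h : star x * x ≤ (algebraMap ℝ M) (‖x‖ ^ 2) := CStarAlgebra.star_mul_le_algebraMap_norm_sq
  have h2 : 0 ≤ (algebraMap ℝ M) (‖x‖ ^ 2) - star x * x := sub_nonneg.2 h
  obtain ⟨z, hz⟩ := CStarAlgebra.nonneg_iff_eq_star_mul_self.1 h2
  refine ⟨z, ?_⟩
  rw [← hz, Algebra.algebraMap_eq_smul_one]
  rfl

theorem n2_mul_le_left (a x : M) : n2 (a * x) ≤ ‖a‖ * n2 x := by
  obtain ⟨z, hz⟩ := exists_sq_sub a
  have h : n2 (a * x) ^ 2 ≤ (‖a‖ * n2 x) ^ 2 := by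
    have h1 := tr_sq_re_nonneg (z * x)
    have h2 : star (z * x) * (z * x) = ((‖a‖ ^ 2 : ℝ) : ℂ) • (star x * x) - star (a * x) * (a * x) := by
      have : star (z * x) * (z * x) = star x * (star z * z) * x := by
        rw [star_mul]; noncomm_ring
      rw [this, ← hz, star_mul]
      simp only [mul_sub, sub_mul, mul_smul_comm, smul_mul_assoc, mul_one]
      noncomm_ring
    rw [h2, map_sub, map_smul, Complex.sub_re, smul_eq_mul, Complex.re_ofReal_mul, ← n2_sq,
      ← n2_sq] at h1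
    rw [mul_pow]; linarith
  exact abs_le_of_sq_le_sq' h (mul_nonneg (norm_nonneg _) (n2_nonneg x)) |>.2

theorem n2_mul_le_right (x a : M) : n2 (x * a) ≤ n2 x * ‖a‖ := by
  rw [← n2_star (x * a), star_mul, mul_comm (n2 x)]
  refine (n2_mul_le_left _ _).trans ?_
  rw [norm_star, n2_star]

theorem n2_le_norm (x : M) : n2 x ≤ ‖x‖ := by
  have := n2_mul_le_left x 1
  rwa [mul_one, n2_one, mul_one] at this

theorem norm_tr_le_norm (x : M) : ‖tr x‖ ≤ ‖x‖ := (norm_tr_le x).trans (n2_le_norm x)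

theorem n2_isometry_mul {w : M} (hw : star w * w = 1) (x : M) : n2 (w * x) = n2 x := by
  unfold n2
  rw [star_mul, mul_assoc, ← mul_assoc (star w), hw, one_mul]

theorem n2_mul_coisometry {w : M} (hw : w * star w = 1) (x : M) : n2 (x * w) = n2 x := by
  rw [← n2_star, star_mul, n2_isometry_mul (by rwa [star_star]), n2_star]

/-- convergence in the 2-norm along a filter -/
def T2 {ι : Type*} (l : Filter ι) (x : ι → M) (y : M) : Prop :=
  Tendsto (fun k => n2 (x k - y)) l (𝓝 0)

section T2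

variable {ι : Type*} {l : Filter ι} {x x' : ι → M} {y y' : M}

theorem T2.of_norm (h : Tendsto x l (𝓝 y)) : T2 l x y := by
  have : Tendsto (fun k => ‖x k - y‖) l (𝓝 0) := tendsto_iff_norm_sub_tendsto_zero.1 h
  exact squeeze_zero (fun _ => n2_nonneg _) (fun _ => n2_le_norm _) this

theorem T2.const (y : M) : T2 l (fun _ => y) y := by
  unfold T2
  simp only [sub_self, n2_zero]
  exact tendsto_const_nhds

theorem T2.add (h : T2 l x y) (h' : T2 l x' y') : T2 l (fun k => x k + x' k) (y + y') := by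
  have := Tendsto.add h h'
  rw [add_zero] at this
  refine squeeze_zero (fun _ => n2_nonneg _) (fun k => ?_) this
  have : x k + x' k - (y + y') = (x k - y) + (x' k - y') := by abel
  rw [this]; exact n2_add_le _ _

theorem T2.neg (h : T2 l x y) : T2 l (fun k => - x k) (-y) := by
  unfold T2
  have : (fun k => n2 (- x k - - y)) = fun k => n2 (x k - y) := by
    funext k
    have : - x k - - y = -(x k - y) := by abel
    rw [this, n2_neg]
  rw [this]; exact h

theorem T2.sub (h : T2 l x y) (h' : T2 l x' y') : T2 l (fun k => x k - x' k) (y - y') := by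
  simp only [sub_eq_add_neg]; exact h.add h'.neg

theorem T2.star (h : T2 l x y) : T2 l (fun k => star (x k)) (star y) := by
  unfold T2
  simp only [← star_sub, n2_star]; exact h

theorem T2.smul (c : ℂ) (h : T2 l x y) : T2 l (fun k => c • x k) (c • y) := by
  unfold T2
  simp only [← smul_sub, n2_smul]
  simpa using Tendsto.const_mul ‖c‖ h

theorem T2.const_mul (a : M) (h : T2 l x y) : T2 l (fun k => a * x k) (a * y) := by
  have := Tendsto.const_mul ‖a‖ h
  rw [mul_zero] at this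
  refine squeeze_zero (fun _ => n2_nonneg _) (fun k => ?_) this
  rw [← mul_sub]; exact n2_mul_le_left _ _

theorem T2.mul_const (h : T2 l x y) (a : M) : T2 l (fun k => x k * a) (y * a) := by
  have := Tendsto.mul_const ‖a‖ h
  rw [zero_mul] at this
  refine squeeze_zero (fun _ => n2_nonneg _) (fun k => ?_) this
  rw [← sub_mul]; exact n2_mul_le_right _ _

theorem T2.mul {C : ℝ} (hC : ∀ k, ‖x k‖ ≤ C) (h : T2 l x y) (h' : T2 l x' y') :
    T2 l (fun k => x k * x' k) (y * y') := by
  have h1 := Tendsto.const_mul C h'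
  have h2 := Tendsto.mul_const ‖y'‖ h
  have := h1.add h2
  rw [mul_zero, zero_mul, add_zero] at this
  refine squeeze_zero (fun _ => n2_nonneg _) (fun k => ?_) this
  have e : x k * x' k - y * y' = x k * (x' k - y') + (x k - y) * y' := by noncomm_ring
  rw [e]
  refine (n2_add_le _ _).trans (add_le_add ?_ (n2_mul_le_right _ _))
  exact (n2_mul_le_left _ _).trans (mul_le_mul_of_nonneg_right (hC k) (n2_nonneg _))

theorem T2.congr' (h : T2 l x y) (he : ∀ᶠ k in l, x k = x' k) : T2 l x' y := by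
  refine Tendsto.congr' ?_ h
  filter_upwards [he] with k hk
  rw [hk]

theorem T2.unique [l.NeBot] (h : T2 l x y) (h' : T2 l x y') : y = y' := by
  have h1 : Tendsto (fun k => n2 (x k - y) + n2 (x k - y')) l (𝓝 (0 + 0)) := Tendsto.add h h'
  have h2 : n2 (y - y') ≤ 0 := by
    rw [add_zero] at h1
    refine ge_of_tendsto h1 (Eventually.of_forall fun k => ?_)
    rw [n2_sub_comm (x k) y]
    exact n2_triangle _ _ _
  exact sub_eq_zero.1 (n2_eq_zero.1 (le_antisymm h2 (n2_nonneg _)))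

theorem T2.comp {κ : Type*} {l' : Filter κ} {f : κ → ι} (h : T2 l x y) (hf : Tendsto f l' l) :
    T2 l' (fun k => x (f k)) y := by
  unfold T2 at h ⊢
  exact h.comp hf

theorem T2.tr (h : T2 l x y) : Tendsto (fun k => tr (x k)) l (𝓝 (tr y)) := by
  rw [tendsto_iff_norm_sub_tendsto_zero]
  refine squeeze_zero (fun _ => norm_nonneg _) (fun k => ?_) h
  rw [← map_sub]; exact norm_tr_le _

theorem T2.n2 (h : T2 l x y) : Tendsto (fun k => n2 (x k)) l (𝓝 (n2 y)) := by
  rw [tendsto_iff_norm_sub_tendsto_zero]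
  refine squeeze_zero (fun _ => norm_nonneg _) (fun k => ?_) h
  exact abs_n2_sub_le _ _

theorem T2.squeeze {b : ι → ℝ} (hb : Tendsto b l (𝓝 0)) (h : ∀ k, SCO.n2 (x k - y) ≤ b k) :
    T2 l x y := squeeze_zero (fun _ => n2_nonneg _) h hb

end T2

end Basic

end SCO
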