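import Pool.Agent.Work.MP_52dd0f_an.Amp

/-!
# Corners of a II₁ factor as II₁ factors
-/

set_option linter.unusedSectionVars false

namespace SCO

open Filter Topology
open scoped ComplexOrder ComplexConjugate

universe u v

/-- the corner `e M e` as a set of elements -/
structure CAlg {M : Type u} [CStarAlgebra M] (e : M) : Type u where
  val : M
  prop : e * val * e = val

namespace CAlg

variable {M : Type u} [CStarAlgebra M] {e : M}

theorem ext' {x y : CAlg e} (h : x.val = y.val) : x = y := by
  cases x; cases y; cases h; rfl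

theorem val_injective : Function.Injective (val : CAlg e → M) := fun _ _ h => ext' h

variable [he : Fact (IsProj e)]

theorem left (x : CAlg e) : e * x.val = x.val := by
  conv_lhs => rw [← x.prop]
  rw [← mul_assoc, ← mul_assoc, he.out.mul, x.prop]

theorem right (x : CAlg e) : x.val * e = x.val := by
  conv_lhs => rw [← x.prop]
  rw [mul_assoc, he.out.mul, x.prop]

theorem prop_of {x : M} (h1 : e * x = x) (h2 : x * e = x) : e * x * e = x := by rw [h1, h2]

instance : Zero (CAlg e) := ⟨⟨0, by simp⟩⟩
instance : One (CAlg e) := ⟨⟨e, by rw [he.out.mul, he.out.mul]⟩⟩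
instance : Add (CAlg e) := ⟨fun x y => ⟨x.val + y.val, by rw [mul_add, add_mul, x.prop, y.prop]⟩⟩
instance : Neg (CAlg e) := ⟨fun x => ⟨-x.val, by rw [mul_neg, neg_mul, x.prop]⟩⟩
instance : Sub (CAlg e) := ⟨fun x y => ⟨x.val - y.val, by rw [mul_sub, sub_mul, x.prop, y.prop]⟩⟩
instance : Mul (CAlg e) := ⟨fun x y => ⟨x.val * y.val, prop_of
  (by rw [← mul_assoc, x.left]) (by rw [mul_assoc, y.right])⟩⟩
instance : SMul ℕ (CAlg e) := ⟨fun n x => ⟨n • x.val, by
  rw [mul_smul_comm, smul_mul_assoc, x.prop]⟩⟩
instance : SMul ℤ (CAlg e) := ⟨fun n x => ⟨n • x.val, by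
  rw [mul_smul_comm, smul_mul_assoc, x.prop]⟩⟩
instance : SMul ℂ (CAlg e) := ⟨fun n x => ⟨n • x.val, by
  rw [mul_smul_comm, smul_mul_assoc, x.prop]⟩⟩
instance : Star (CAlg e) := ⟨fun x => ⟨star x.val, by
  have := congrArg star x.prop
  rw [star_mul, star_mul, he.out.star] at this
  rw [mul_assoc, this]⟩⟩

@[simp] theorem val_zero : (0 : CAlg e).val = 0 := rfl
@[simp] theorem val_one : (1 : CAlg e).val = e := rfl
@[simp] theorem val_add (x y : CAlg e) : (x + y).val = x.val + y.val := rfl
@[simp] theorem val_neg (x : CAlg e) : (-x).val = -x.val := rfl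
@[simp] theorem val_sub (x y : CAlg e) : (x - y).val = x.val - y.val := rfl
@[simp] theorem val_mul (x y : CAlg e) : (x * y).val = x.val * y.val := rfl
@[simp] theorem val_smul (c : ℂ) (x : CAlg e) : (c • x).val = c • x.val := rfl
@[simp] theorem val_star (x : CAlg e) : (star x).val = star x.val := rfl

instance : AddCommGroup (CAlg e) :=
  val_injective.addCommGroup _ rfl (fun _ _ => rfl) (fun _ => rfl) (fun _ _ => rfl) (fun _ _ => rfl)
    (fun _ _ => rfl)

instance : Ring (CAlg e) :=
  { (inferInstance : AddCommGroup (CAlg e)) with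
    mul := (· * ·)
    one := 1
    left_distrib := fun _ _ _ => ext' (mul_add _ _ _)
    right_distrib := fun _ _ _ => ext' (add_mul _ _ _)
    zero_mul := fun _ => ext' (zero_mul _)
    mul_zero := fun _ => ext' (mul_zero _)
    mul_assoc := fun _ _ _ => ext' (mul_assoc _ _ _)
    one_mul := fun x => ext' x.left
    mul_one := fun x => ext' x.right }

noncomputable instance : Norm (CAlg e) := ⟨fun x => ‖x.val‖⟩

theorem norm_def (x : CAlg e) : ‖x‖ = ‖x.val‖ := rfl

noncomputable instance : NormedAddCommGroup (CAlg e) :=
  NormedAddCommGroup.induced (CAlg e) M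
    (⟨⟨val, rfl⟩, fun _ _ => rfl⟩ : CAlg e →+ M) val_injective

noncomputable instance : NormedRing (CAlg e) :=
  { (inferInstance : NormedAddCommGroup (CAlg e)), (inferInstance : Ring (CAlg e)) with
    norm_mul_le := fun x y => norm_mul_le x.val y.val }

noncomputable instance : Module ℂ (CAlg e) :=
  val_injective.module ℂ (⟨⟨val, rfl⟩, fun _ _ => rfl⟩ : CAlg e →+ M) (fun _ _ => rfl)

noncomputable instance : Algebra ℂ (CAlg e) :=
  Algebra.ofModule (fun c x y => ext' (smul_mul_assoc c x.val y.val))
    (fun c x y => ext' (mul_smul_comm c x.val y.val))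

noncomputable instance : NormedAlgebra ℂ (CAlg e) where
  norm_smul_le c x := norm_smul_le c x.val

instance : StarRing (CAlg e) where
  star_involutive _ := ext' (star_star _)
  star_mul _ _ := ext' (star_mul _ _)
  star_add _ _ := ext' (star_add _ _)

instance : StarModule ℂ (CAlg e) := ⟨fun c x => ext' (star_smul c x.val)⟩

instance : CStarRing (CAlg e) := ⟨fun x => CStarRing.norm_mul_self_le x.val⟩

theorem isometry_val : Isometry (val : CAlg e → M) := by
  refine Isometry.of_dist_eq fun x y => ?_
  rw [dist_eq_norm, dist_eq_norm]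
  rfl

instance : CompleteSpace (CAlg e) := by
  have h1 : IsClosed (Set.range (val : CAlg e → M)) := by
    have : Set.range (val : CAlg e → M) = {x | e * x * e = x} := by
      ext x
      exact ⟨fun ⟨y, hy⟩ => hy ▸ y.prop, fun h => ⟨⟨x, h⟩, rfl⟩⟩
    rw [this]
    exact isClosed_eq (by fun_prop) continuous_id
  rw [completeSpace_iff_isComplete_range isometry_val.isUniformInducing]
  exact h1.isComplete

noncomputable instance : CStarAlgebra (CAlg e) where

end CAlg

section

variable {M : Type u} [CStarAlgebra M] [TVN M] {e : M}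

/-- the inclusion of a corner -/
noncomputable def CAlg.incl (e : M) [Fact (IsProj e)] : CAlg e →⋆ₙₐ[ℂ] M where
  toFun := CAlg.val
  map_smul' _ _ := rfl
  map_zero' := rfl
  map_add' _ _ := rfl
  map_mul' _ _ := rfl
  map_star' _ := rfl

theorem CAlg.incl_apply [Fact (IsProj e)] (x : CAlg e) : CAlg.incl e x = x.val := rfl

/-- the corner is a II₁ factor -/
theorem exists_corner [FactorII M] (he : IsProj e) (he0 : e ≠ 0) :
    ∃ (Y : Type u) (_ : CStarAlgebra Y) (_ : TVN Y) (_ : FactorII Y) (φ : Y →⋆ₙₐ[ℂ] M), CornerMap φ e := by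
  have : Fact (IsProj e) := ⟨he⟩
  have ht := he.tau_pos he0
  have ht' : ((tau e : ℝ) : ℂ) ≠ 0 := by exact_mod_cast ht.ne'
  have ht2 : (0 : ℂ) ≤ ((tau e : ℝ) : ℂ)⁻¹ := by
    rw [← Complex.ofReal_inv, Complex.zero_le_real]; positivity
  let i1 : TrC (CAlg e) :=
    { tr :=
        { toFun := fun x => ((tau e : ℝ) : ℂ)⁻¹ * tr x.val
          map_add' := fun x y => by rw [CAlg.val_add, map_add, mul_add]
          map_smul' := fun c x => by
            rw [CAlg.val_smul, map_smul, smul_eq_mul, RingHom.id_apply, smul_eq_mul]; ring }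
      tr_one := by
        show ((tau e : ℝ) : ℂ)⁻¹ * tr e = 1
        rw [he.tr_eq, inv_mul_cancel₀ ht']
      tr_comm := fun x y => by
        show ((tau e : ℝ) : ℂ)⁻¹ * tr (x.val * y.val) = ((tau e : ℝ) : ℂ)⁻¹ * tr (y.val * x.val)
        rw [tr_comm]
      tr_pos := fun x => mul_nonneg ht2 (tr_pos x.val)
      tr_faithful := fun x hx => by
        have h1 : ((tau e : ℝ) : ℂ)⁻¹ * tr (star x.val * x.val) = 0 := hx
        rcases mul_eq_zero.1 h1 with h2 | h2
        · exact absurd h2 (inv_ne_zero ht')
        · exact CAlg.ext' (tr_faithful _ h2) }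
  have htr : ∀ x : CAlg e, tr x = ((tau e : ℝ) : ℂ)⁻¹ * tr x.val := fun _ => rfl
  have hn2 : ∀ x : CAlg e, n2 x ^ 2 = (tau e)⁻¹ * n2 x.val ^ 2 := by
    intro x
    rw [n2_sq, n2_sq, htr, ← Complex.ofReal_inv, Complex.re_ofReal_mul]
    rfl
  let i2 : TVN (CAlg e) :=
    { i1 with
      complete1 := fun x hx hc => by
        have hs0 : 0 < Real.sqrt (tau e)⁻¹ := Real.sqrt_pos.2 (by positivity)
        have hn : ∀ x : CAlg e, n2 x = Real.sqrt (tau e)⁻¹ * n2 x.val := by
          intro x
          rw [← Real.sqrt_sq (n2_nonneg x), hn2, Real.sqrt_mul (by positivity),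
            Real.sqrt_sq (n2_nonneg _)]
        obtain ⟨y, -, hy⟩ := exists_limit (x := fun k => (x k).val) (C := 1) hx (fun ε hε => by
          obtain ⟨K, hK⟩ := hc (Real.sqrt (tau e)⁻¹ * ε) (by positivity)
          refine ⟨K, fun k hk l hl => ?_⟩
          have h1 := hK k hk l hl
          have h2 : n2 (x k - x l) = Real.sqrt (tau e)⁻¹ * n2 ((x k).val - (x l).val) := hn _
          have h3 : Real.sqrt (tau e)⁻¹ * n2 ((x k).val - (x l).val) < Real.sqrt (tau e)⁻¹ * ε := by
            rw [← h2]; exact h1
          exact lt_of_mul_lt_mul_left h3 hs0.le)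
        refine ⟨⟨e * y * e, ?_⟩, ?_⟩
        · calc e * (e * y * e) * e = (e * e) * y * (e * e) := by noncomm_ring
            _ = _ := by rw [he.mul]
        · have h1 : T2 atTop (fun k => (x k).val) (e * y * e) := by
            have h2 := (hy.const_mul e).mul_const e
            refine h2.congr' (Eventually.of_forall fun k => (x k).prop)
          have h2 : Tendsto (fun k => Real.sqrt (tau e)⁻¹ * n2 ((x k).val - e * y * e)) atTop
              (𝓝 (Real.sqrt (tau e)⁻¹ * 0)) := Tendsto.const_mul _ h1
          rw [mul_zero] at h2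
          refine h2.congr fun k => ?_
          exact (hn (x k - ⟨e * y * e, _⟩)).symm }
  have i3 : @FactorII (CAlg e) _ i2 := by
    refine @FactorII.mk _ _ i2 ?_ ?_
    · intro z hz
      set S : Set M := {x | e * x * e = x} with hS
      have hSs : StarClosed S := by
        intro s hs
        show e * star s * e = star s
        have h1 : e * s * e = s := hs
        have := congrArg star h1
        rw [star_mul, star_mul, he.star] at this
        rw [mul_assoc, this]
      have heS : Co S e := by
        intro s hs
        have h1 : e * s * e = s := hs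
        have h2 : e * s = s := by
          rw [← h1, ← mul_assoc, ← mul_assoc, he.mul]
        have h3 : s * e = s := by
          rw [← h1, mul_assoc, he.mul]
        rw [h2, h3]
      have hzS : Co S z.val := by
        intro s hs
        exact (congrArg CAlg.val (hz ⟨s, hs⟩)).symm
      obtain ⟨c, hc⟩ := scalar_of_minimal' hSs he heS (fun f hfS hf hfe => by
        by_contra hcon
        push Not at hcon
        have hef : e * f = f := hf.mul_swap he hfe
        have h1 : IsProj (e - f) := hf.sub he hfe
        have h2 : e - f ≠ 0 := fun h => hcon.2 (sub_eq_zero.1 h).symm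
        obtain ⟨x, hx⟩ := exists_mul_ne h1 hf h2 hcon.1
        apply hx
        have h3 : (e - f) * x * f ∈ S := by
          show e * ((e - f) * x * f) * e = (e - f) * x * f
          calc e * ((e - f) * x * f) * e = (e * (e - f)) * x * (f * e) := by noncomm_ring
            _ = _ := by rw [hfe, mul_sub, he.mul, hef]
        have h4 := hfS _ h3
        have h5 : (e - f) * x * f * f = (e - f) * x * f := by rw [mul_assoc, hf.mul]
        have h6 : f * ((e - f) * x * f) = 0 := by
          rw [← mul_assoc, ← mul_assoc, mul_sub, hfe, hf.mul, sub_self, zero_mul, zero_mul]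
        rw [h5, h6] at h4
        exact h4) hzS
      refine ⟨c, CAlg.ext' ?_⟩
      rw [z.prop] at hc
      exact hc
    · intro hfin
      have hk : ∀ k : ℕ, k ≤ Module.finrank ℂ (CAlg e) := by
        intro k
        rcases Nat.eq_zero_or_pos k with rfl | hk
        · exact Nat.zero_le _
        have hk0 : (0 : ℝ) < k := by exact_mod_cast hk
        obtain ⟨r, -, hr, hrt, hro, hrs⟩ := exists_partition (noMin_empty (M := M)) (tau e / k)
          (by positivity) k e (co_empty e) he (by field_simp)
        have hre : ∀ i, e * r i * e = r i := by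
          intro i
          have h1 : e * r i = r i := by
            rw [← hrs, Finset.sum_mul, Finset.sum_eq_single i]
            · exact (hr i).mul
            · intro j _ hj; exact hro j i hj
            · simp
          have h2 : r i * e = r i := (hr i).mul_swap' he h1
          rw [h1, h2]
        have hli : LinearIndependent ℂ (fun i => (⟨r i, hre i⟩ : CAlg e)) := by
          rw [Fintype.linearIndependent_iff]
          intro g hg i
          have h1 : ∑ j, g j • r j = 0 := by
            have h2 := congrArg (CAlg.incl e) hg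
            rw [map_sum, map_zero] at h2
            rw [← h2]
            exact Finset.sum_congr rfl fun j _ => rfl
          have h2 := congrArg (fun x => x * r i) h1
          simp only [Finset.sum_mul, zero_mul, smul_mul_assoc] at h2
          rw [Finset.sum_eq_single i] at h2
          · rw [(hr i).mul] at h2
            rcases smul_eq_zero.1 h2 with h3 | h3
            · exact h3
            · exfalso
              have h4 := hrt i
              rw [h3, tau_zero] at h4
              have : 0 < tau e / k := by positivity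
              linarith
          · intro j _ hj; rw [hro j i hj, smul_zero]
          · simp
        have := hli.fintype_card_le_finrank
        simpa using this
      have := hk (Module.finrank ℂ (CAlg e) + 1)
      omega
  refine ⟨CAlg e, inferInstance, i2, i3, CAlg.incl e, ⟨he, CAlg.val_injective, ?_, ?_, rfl, ?_⟩⟩
  · intro x hx
    exact ⟨⟨x, hx⟩, rfl⟩
  · intro y
    exact y.prop
  · intro y
    rw [CAlg.incl_apply]
    have h1 : (TrC.tr y : ℂ) = ((tau e : ℝ) : ℂ)⁻¹ * TrC.tr y.val := rfl
    rw [h1, mul_inv_cancel_left₀ ht']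

end

end SCO
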