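import Pool.Agent.Work.MP_52dd0f_an.Up

/-!
# Uniqueness of the trace on a II₁ factor
-/

set_option linter.unusedSectionVars false

namespace SCO

open Filter Topology
open scoped ComplexOrder ComplexConjugate

universe u v

section

variable {M : Type u} [CStarAlgebra M] [TVN M]

/-- dyadic step: `0 ≤ x ≤ c` implies `0 ≤ x - (c/2) r ≤ c/2` for some projection `r` -/
theorem dyadic_step [PartialOrder M] [StarOrderedRing M] {x : M} {c : ℝ} (hc : 0 ≤ c) (hx : 0 ≤ x)
    (hxc : x ≤ (c : ℂ) • (1 : M)) :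
    ∃ r : M, IsProj r ∧ 0 ≤ x - ((c / 2 : ℝ) : ℂ) • r ∧
      x - ((c / 2 : ℝ) : ℂ) • r ≤ ((c / 2 : ℝ) : ℂ) • (1 : M) := by
  have hsa : IsSelfAdjoint x := .of_nonneg hx
  set b : M := cfc (fun t => max 0 (t - c / 2)) x with hb
  set b' : M := cfc (fun t => max 0 (c / 2 - t)) x with hb'
  have hbc : ContinuousOn (fun t : ℝ => max 0 (t - c / 2)) (spectrum ℝ x) := by fun_prop
  have hbc' : ContinuousOn (fun t : ℝ => max 0 (c / 2 - t)) (spectrum ℝ x) := by fun_prop
  have hb0 : 0 ≤ b := cfc_nonneg fun t _ => le_max_left _ _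
  have hb0' : 0 ≤ b' := cfc_nonneg fun t _ => le_max_left _ _
  have hbb : b - b' = x - ((c / 2 : ℝ) : ℂ) • (1 : M) := by
    rw [hb, hb', ← cfc_sub _ _ x hbc hbc']
    have h1 : cfc (fun t => max 0 (t - c / 2) - max 0 (c / 2 - t)) x = cfc (fun t => t - c / 2) x := by
      apply cfc_congr
      intro t _
      show max 0 (t - c / 2) - max 0 (c / 2 - t) = t - c / 2
      rcases le_total t (c / 2) with h | h
      · rw [max_eq_left (by linarith), max_eq_right (by linarith)]; ring
      · rw [max_eq_right (by linarith), max_eq_left (by linarith)]; ring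
    rw [h1, cfc_sub (fun t => t) (fun _ => c / 2) x continuousOn_id continuousOn_const, cfc_id' ℝ x,
      cfc_const (c / 2) x hsa, Algebra.algebraMap_eq_smul_one]
    rfl
  have hz : b' * b = 0 := by
    rw [hb, hb']
    apply cfc_mul_eq_zero hbc' hbc
    intro t
    rcases le_total t (c / 2) with h | h
    · rw [max_eq_left (by linarith : t - c / 2 ≤ 0), mul_zero]
    · rw [max_eq_left (by linarith : c / 2 - t ≤ 0), zero_mul]
  have hbs : star b = b := cfc_star_real _ _
  have hbs' : star b' = b' := cfc_star_real _ _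
  have hz' : b * b' = 0 := by
    have := congrArg star hz
    rwa [star_mul, hbs, hbs', star_zero] at this
  obtain ⟨v, -, h1, h2, h3, h4, h5, -, hlim⟩ := polar b
  set r : M := star v * v with hr
  have hrp : IsProj r := pi_src h1
  have hrb' : r * b' = 0 := by rw [hr, mul_assoc, h5 b' hz', mul_zero]
  have hbr' : b' * r = 0 := by
    have := congrArg star hrb'
    rwa [star_mul, hbs', hrp.star, star_zero] at this
  have hbr : b * r = b := h3
  have hrb : r * b = b := by
    have := congrArg star hbr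
    rwa [star_mul, hbs, hrp.star] at this
  -- `x = b - b' + c/2`
  have hxe : x = b - b' + ((c / 2 : ℝ) : ℂ) • (1 : M) := by rw [hbb]; abel
  refine ⟨r, hrp, ?_, ?_⟩
  · have e1 : x - ((c / 2 : ℝ) : ℂ) • r = b + star (1 - r) * x * (1 - r) := by
      rw [hrp.compl.star]
      have e2 : (1 - r) * x * (1 - r) = ((c / 2 : ℝ) : ℂ) • (1 : M) - ((c / 2 : ℝ) : ℂ) • r - b' := by
        conv_lhs => rw [hxe]
        have e3 : (1 - r) * (b - b' + ((c / 2 : ℝ) : ℂ) • (1 : M)) * (1 - r) =
            (b - r * b) - (b - r * b) * r - ((b' - r * b') - (b' * r - r * b' * r)) +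
            ((c / 2 : ℝ) : ℂ) • ((1 - r) * (1 - r)) := by
          simp only [mul_add, add_mul, mul_smul_comm, smul_mul_assoc, mul_one]
          noncomm_ring
        rw [e3, hrb, hrb', hbr', hrp.compl.mul, smul_sub]
        simp
        abel
      rw [e2, hxe]; abel
    rw [e1]
    exact add_nonneg hb0 (star_left_conjugate_nonneg hx _)
  · have e1 : ((c / 2 : ℝ) : ℂ) • (1 : M) - (x - ((c / 2 : ℝ) : ℂ) • r) =
        b' + star r * ((c : ℂ) • (1 : M) - x) * r := by
      rw [hrp.star]
      have e2 : r * ((c : ℂ) • (1 : M) - x) * r = ((c / 2 : ℝ) : ℂ) • r - b := by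
        conv_lhs => rw [hxe]
        have e3 : r * ((c : ℂ) • (1 : M) - (b - b' + ((c / 2 : ℝ) : ℂ) • (1 : M))) * r =
            (c : ℂ) • (r * r) - ((c / 2 : ℝ) : ℂ) • (r * r) - (r * b) * r + (r * b') * r := by
          simp only [mul_sub, sub_mul, mul_add, add_mul, mul_smul_comm, smul_mul_assoc, mul_one]
          abel
        rw [e3, hrb, hrb', hbr, hrp.mul, zero_mul, add_zero, ← sub_smul]
        congr 2
        push_cast; ring
      rw [e2, hxe]; abel
    rw [← sub_nonneg, e1]
    exact add_nonneg hb0' (star_left_conjugate_nonneg (sub_nonneg.2 hxc) _)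

end

section

variable {M : Type u} [CStarAlgebra M] [TVN M] [FactorII M]

/-- a tracial state -/
structure IsTrState (ψ : M →ₗ[ℂ] ℂ) : Prop where
  one : ψ 1 = 1
  comm : ∀ x y, ψ (x * y) = ψ (y * x)
  pos : ∀ x, 0 ≤ ψ (star x * x)

variable {ψ : M →ₗ[ℂ] ℂ}

theorem noMin_empty : NoMin (∅ : Set M) := noMin_of_commute (fun s hs => absurd hs (by simp))
    (fun s hs => absurd hs (by simp))

theorem co_empty (x : M) : Co (∅ : Set M) x := fun s hs => absurd hs (by simp)

theorem IsTrState.proj_nonneg (hψ : IsTrState ψ) {e : M} (he : IsProj e) : 0 ≤ ψ e := by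
  have := hψ.pos e
  rwa [he.star, he.mul] at this

theorem IsTrState.equiv (hψ : IsTrState ψ) {e f : M} (he : IsProj e) (hf : IsProj f)
    (h : tau e = tau f) : ψ e = ψ f := by
  obtain ⟨v, h1, h2⟩ := equiv_of_tau he hf h
  rw [← h1, ← h2, hψ.comm]

theorem IsTrState.inv (hψ : IsTrState ψ) {r : M} (hr : IsProj r) {m : ℕ} (hm : m ≠ 0)
    (hrm : tau r = 1 / m) : ψ r = 1 / m := by
  have hm0 : (m : ℝ) ≠ 0 := by exact_mod_cast hm
  obtain ⟨e, -, he, het, -, hes⟩ := exists_partition (noMin_empty (M := M)) (1 / m) (by positivity) m 1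
    Co.one IsProj.one (by rw [tau_one]; field_simp)
  have h1 : ∑ i, ψ (e i) = 1 := by rw [← map_sum, hes, hψ.one]
  have h2 : ∀ i, ψ (e i) = ψ r := fun i => hψ.equiv (he i) hr (by rw [het, hrm])
  simp only [h2, Finset.sum_const, Finset.card_univ, Fintype.card_fin, nsmul_eq_mul] at h1
  have hm1 : (m : ℂ) ≠ 0 := by exact_mod_cast hm
  field_simp
  rw [mul_comm]; exact h1

theorem IsTrState.ge (hψ : IsTrState ψ) {e : M} (he : IsProj e) {m : ℕ} (hm : m ≠ 0) :
    tau e - 1 / m ≤ (ψ e).re := by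
  have hm0 : (0 : ℝ) < m := by exact_mod_cast Nat.pos_of_ne_zero hm
  set k : ℕ := ⌊m * tau e⌋₊ with hk
  have hk1 : (k : ℝ) ≤ m * tau e := Nat.floor_le (by have := he.tau_nonneg; positivity)
  have hk2 : m * tau e < k + 1 := Nat.lt_floor_add_one _
  obtain ⟨f, -, hf, hfe, hft⟩ := exists_tau_eq (noMin_empty (M := M)) (co_empty e) he
    (s := k * (1 / m)) (by positivity) (by rw [mul_one_div, div_le_iff₀ hm0]; linarith)
  obtain ⟨p, -, hp, hpt, -, hps⟩ := exists_partition (noMin_empty (M := M)) (1 / m) (by positivity) k f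
    (co_empty f) hf hft
  have h1 : ψ f = k * (1 / m) := by
    rw [← hps, map_sum]
    have : ∀ i, ψ (p i) = 1 / m := fun i => hψ.inv (hp i) hm (hpt i)
    simp [this]
  have h2 := hψ.proj_nonneg (hf.sub he hfe)
  rw [map_sub, h1] at h2
  have h3 := (Complex.nonneg_iff.1 h2).1
  have h4 : ((k : ℂ) * (1 / m)).re = k * (1 / m) := by
    have : ((k : ℂ) * (1 / m)) = (((k : ℝ) * (1 / m) : ℝ) : ℂ) := by push_cast; ring
    rw [this, Complex.ofReal_re]
  rw [Complex.sub_re, h4] at h3
  have h5 : tau e < (k + 1) / m := by rw [lt_div_iff₀ hm0]; linarith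
  have h6 : ((k : ℝ) + 1) / m = k * (1 / m) + 1 / m := by field_simp
  linarith

theorem IsTrState.proj (hψ : IsTrState ψ) {e : M} (he : IsProj e) : ψ e = tr e := by
  have key : ∀ f : M, IsProj f → tau f ≤ (ψ f).re := by
    intro f hf
    have h1 : Tendsto (fun m : ℕ => tau f - 1 / ((m : ℝ) + 1)) atTop (𝓝 (tau f - 0)) :=
      tendsto_const_nhds.sub tendsto_one_div_nat
    rw [sub_zero] at h1
    refine le_of_tendsto' h1 (fun m => ?_)
    have := hψ.ge hf (m := m + 1) (by omega)
    push_cast at this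
    exact this
  have h1 := key e he
  have h2 := key (1 - e) he.compl
  rw [tau_sub, tau_one, map_sub, hψ.one, Complex.sub_re, Complex.one_re] at h2
  have h3 := Complex.nonneg_iff.1 (hψ.proj_nonneg he)
  apply Complex.ext
  · show _ = tau e
    linarith
  · rw [he.tr_eq, Complex.ofReal_im]; exact h3.2.symm

/-- **Uniqueness of the trace.** -/
theorem IsTrState.eq (hψ : IsTrState ψ) (x : M) : ψ x = tr x := by
  let _ := CStarAlgebra.spectralOrder M
  have _ := CStarAlgebra.spectralOrderedRing M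
  have hψ0 : ∀ y : M, 0 ≤ y → 0 ≤ ψ y := fun y hy => by
    obtain ⟨z, rfl⟩ := CStarAlgebra.nonneg_iff_eq_star_mul_self.1 hy
    exact hψ.pos z
  have htr0 : ∀ y : M, 0 ≤ y → 0 ≤ tr y := fun y hy => by
    obtain ⟨z, rfl⟩ := CStarAlgebra.nonneg_iff_eq_star_mul_self.1 hy
    exact tr_pos z
  have bound : ∀ (n : ℕ) (c : ℝ) (y : M), 0 ≤ c → 0 ≤ y → y ≤ (c : ℂ) • (1 : M) →
      ‖ψ y - tr y‖ ≤ c / 2 ^ n := by
    intro n
    induction n with
    | zero =>
      intro c y hc hy hyc
      have h1 := Complex.nonneg_iff.1 (hψ0 y hy)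
      have h2 := Complex.nonneg_iff.1 (htr0 y hy)
      have h3 := Complex.nonneg_iff.1 (hψ0 _ (sub_nonneg.2 hyc))
      have h4 := Complex.nonneg_iff.1 (htr0 _ (sub_nonneg.2 hyc))
      rw [map_sub, map_smul, hψ.one, smul_eq_mul, mul_one, Complex.sub_re, Complex.ofReal_re] at h3
      rw [map_sub, map_smul, tr_one, smul_eq_mul, mul_one, Complex.sub_re, Complex.ofReal_re] at h4
      have h5 : ψ y - tr y = (((ψ y).re - (tr y).re : ℝ) : ℂ) := by
        apply Complex.ext
        · simp
        · simp [← h1.2, ← h2.2]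
      rw [h5, Complex.norm_real, Real.norm_eq_abs, abs_le, pow_zero, div_one]
      constructor <;> linarith [h1.1, h2.1, h3.1, h4.1]
    | succ n ih =>
      intro c y hc hy hyc
      obtain ⟨r, hr, hr1, hr2⟩ := dyadic_step hc hy hyc
      have h1 := ih (c / 2) _ (by linarith) hr1 hr2
      rw [map_sub, map_sub, map_smul, map_smul, hψ.proj hr] at h1
      have h2 : ψ y - ((c / 2 : ℝ) : ℂ) • tr r - (tr y - ((c / 2 : ℝ) : ℂ) • tr r) = ψ y - tr y := by ring
      rw [h2] at h1
      rw [pow_succ]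
      calc _ ≤ c / 2 / 2 ^ n := h1
        _ = _ := by field_simp
  have hpos : ∀ y : M, 0 ≤ y → ψ y = tr y := by
    intro y hy
    have hyc : y ≤ ((‖y‖ : ℝ) : ℂ) • (1 : M) := by
      have h1 := IsSelfAdjoint.le_algebraMap_norm_self (a := y) (.of_nonneg hy)
      rw [Algebra.algebraMap_eq_smul_one] at h1
      exact h1
    have h1 : Tendsto (fun n : ℕ => ‖y‖ / 2 ^ n) atTop (𝓝 0) := by
      have h1 := (tendsto_pow_atTop_nhds_zero_of_lt_one (by norm_num : (0:ℝ) ≤ 1/2)
        (by norm_num)).const_mul ‖y‖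
      rw [mul_zero] at h1
      refine h1.congr fun k => ?_
      rw [one_div, inv_pow, div_eq_mul_inv]
    have h2 : ‖ψ y - tr y‖ ≤ 0 := ge_of_tendsto' h1 (fun n => bound n ‖y‖ y (norm_nonneg _) hy hyc)
    exact sub_eq_zero.1 (norm_le_zero_iff.1 h2)
  have hsa : ∀ y : M, IsSelfAdjoint y → ψ y = tr y := by
    intro y hy
    have h1 : 0 ≤ y + ((‖y‖ : ℝ) : ℂ) • (1 : M) := by
      have h1 := IsSelfAdjoint.neg_algebraMap_norm_le_self (a := y) hy
      rw [Algebra.algebraMap_eq_smul_one] at h1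
      have h2 := sub_nonneg.2 h1
      rw [sub_neg_eq_add] at h2
      exact h2
    have h2 := hpos _ h1
    rw [map_add, map_add, map_smul, map_smul, hψ.one, tr_one] at h2
    exact add_right_cancel h2
  have e1 : x = (1 / 2 : ℂ) • (x + star x) + (Complex.I / 2 : ℂ) • (Complex.I • (star x - x)) := by
    rw [smul_smul]
    have : Complex.I / 2 * Complex.I = -(1 / 2 : ℂ) := by
      rw [div_mul_eq_mul_div, Complex.I_mul_I]; ring
    rw [this]; module
  have s1 : IsSelfAdjoint (x + star x) := by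
    show star (x + star x) = _
    rw [star_add, star_star, add_comm]
  have s2 : IsSelfAdjoint (Complex.I • (star x - x)) := by
    show star (Complex.I • (star x - x)) = _
    rw [star_smul, star_sub, star_star, Complex.star_def, Complex.conj_I]; module
  have k1 := hsa _ s1
  have k2 := hsa _ s2
  rw [e1]
  generalize x + star x = A at k1 ⊢
  generalize Complex.I • (star x - x) = B at k2 ⊢
  rw [map_add, map_add, map_smul, map_smul, map_smul, map_smul, k1, k2]

end

end SCO
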