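import Pool.Agent.Work.MP_52dd0f_an.Mat
import Pool.Agent.Work.MP_52dd0f_an.Trace

/-!
# Calculus of corner maps
-/

set_option linter.unusedSectionVars false

namespace SCO

open Filter Topology
open scoped ComplexOrder ComplexConjugate

universe u v

section

variable {K L M : Type u} [CStarAlgebra K] [TVN K] [CStarAlgebra L] [TVN L] [CStarAlgebra M] [TVN M]

theorem CornerMap.tau_map {φ : K →⋆ₙₐ[ℂ] M} {e : M} (h : CornerMap φ e) (y : K) :
    tau (φ y) = tau e * tau y := by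
  show (TrC.tr (φ y)).re = tau e * (TrC.tr y).re
  rw [h.tr, Complex.re_ofReal_mul]

theorem CornerMap.isProj {φ : K →⋆ₙₐ[ℂ] M} {e : M} (_h : CornerMap φ e) {p : K} (hp : IsProj p) :
    IsProj (φ p) := by
  refine ⟨?_, ?_⟩
  · rw [← map_mul, hp.mul]
  · rw [← map_star, hp.star]

theorem CornerMap.comp {φ : K →⋆ₙₐ[ℂ] L} {e : L} {ψ : L →⋆ₙₐ[ℂ] M} {f : M} (hφ : CornerMap φ e)
    (hψ : CornerMap ψ f) : CornerMap (ψ.comp φ) (ψ e) := by
  refine ⟨hψ.isProj hφ.proj, ?_, ?_, ?_, ?_, ?_⟩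
  · intro x y hxy
    exact hφ.inj (hψ.inj hxy)
  · intro x hx
    have h1 : f * x * f = x := by
      rw [← hx]
      calc f * (ψ e * x * ψ e) * f = (f * ψ e) * x * (ψ e * f) := by noncomm_ring
        _ = _ := by rw [hψ.left, hψ.right]
    obtain ⟨y, hy⟩ := hψ.surj x h1
    have h2 : e * y * e = y := by
      apply hψ.inj
      rw [map_mul, map_mul, hy, hx]
    obtain ⟨z, hz⟩ := hφ.surj y h2
    exact ⟨z, by show ψ (φ z) = x; rw [hz, hy]⟩
  · intro y
    show ψ e * ψ (φ y) * ψ e = ψ (φ y)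
    rw [← map_mul, ← map_mul, hφ.corner]
  · show ψ (φ 1) = ψ e
    rw [hφ.one]
  · intro y
    show TrC.tr (ψ (φ y)) = _
    rw [hψ.tr, hφ.tr, hψ.tau_map]
    push_cast; ring

theorem CornerMap.id : CornerMap (NonUnitalStarAlgHom.id ℂ K) (1 : K) := by
  refine ⟨IsProj.one, fun x y h => h, fun x _ => ⟨x, rfl⟩, fun y => ?_, rfl, fun y => ?_⟩
  · rw [one_mul, mul_one]
  · rw [tau_one]
    show TrC.tr y = _
    simp

/-- factorisation through a corner containing the image -/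
theorem CornerMap.lift {φ : L →⋆ₙₐ[ℂ] M} {f : M} (hφ : CornerMap φ f) {ψ : K →⋆ₙₐ[ℂ] M} {e : M}
    (hψ : CornerMap ψ e) (hef : e * f = e) :
    ∃ (χ : K →⋆ₙₐ[ℂ] L) (r : L), CornerMap χ r ∧ tau r = tau e / tau f := by
  have hfe := hψ.proj.mul_swap hφ.proj hef
  have hex : ∀ y, ∃ z, φ z = ψ y := fun y => hφ.surj _ (by
    calc f * ψ y * f = f * (e * ψ y * e) * f := by rw [hψ.corner]
      _ = (f * e) * ψ y * (e * f) := by noncomm_ring
      _ = e * ψ y * e := by rw [hfe, hef]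
      _ = _ := by rw [hψ.left, hψ.right] )
  choose g hg using hex
  let χ : K →⋆ₙₐ[ℂ] L :=
    { toFun := g
      map_smul' := fun c x => by apply hφ.inj; rw [hg, map_smul, map_smul, MonoidHom.id_apply, hg]
      map_zero' := by apply hφ.inj; rw [hg, map_zero, map_zero]
      map_add' := fun x y => by apply hφ.inj; rw [hg, map_add, map_add, hg, hg]
      map_mul' := fun x y => by apply hφ.inj; rw [hg, map_mul, map_mul, hg, hg]
      map_star' := fun x => by apply hφ.inj; rw [hg, map_star, map_star, hg] }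
  have hχ : ∀ y, φ (χ y) = ψ y := hg
  have hφ0 := hφ.tau_pos.ne'
  have hr : φ (χ 1) = e := by rw [hχ, hψ.one]
  have htr : tau (χ 1) = tau e / tau f := by
    have := hφ.tau_map (χ 1)
    rw [hr] at this
    rw [this]; field_simp
  refine ⟨χ, χ 1, ⟨⟨?_, ?_⟩, ?_, ?_, ?_, rfl, ?_⟩, htr⟩
  · rw [← map_mul, one_mul]
  · rw [← map_star, star_one]
  · intro x y hxy
    apply hψ.inj
    rw [← hχ, ← hχ, hxy]
  · intro x hx
    obtain ⟨y, hy⟩ := hψ.surj (φ x) (by rw [← hr, ← map_mul, ← map_mul, hx])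
    exact ⟨y, hφ.inj (by rw [hχ, hy])⟩
  · intro y
    rw [← map_mul, ← map_mul, one_mul, mul_one]
  · intro y
    have h1 := hφ.tr (χ y)
    rw [hχ, hψ.tr] at h1
    have h2 : ((tau f : ℝ) : ℂ) ≠ 0 := by exact_mod_cast hφ0
    apply mul_left_cancel₀ h2
    rw [← h1, htr, Complex.ofReal_div]
    field_simp

/-- comparison of corner maps -/
theorem CornerMap.factor [FactorII M] {φ : L →⋆ₙₐ[ℂ] M} {f : M} (hφ : CornerMap φ f)
    {ψ : K →⋆ₙₐ[ℂ] M} {e : M} (hψ : CornerMap ψ e) (hef : tau e ≤ tau f) :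
    ∃ (χ : K →⋆ₙₐ[ℂ] L) (r : L), CornerMap χ r ∧ tau r = tau e / tau f := by
  obtain ⟨v, hv1, hv2, hv3⟩ := compare hψ.proj hφ.proj hef
  obtain ⟨ψ', hψ'⟩ := hψ.conj hv1 rfl
  have h1 : v * star v * f = v * star v := by
    have h2 : f * (v * star v) = v * star v := by rw [← mul_assoc, hv2]
    exact (pi_rng hv3).mul_swap' hφ.proj h2
  obtain ⟨χ, r, hχ, hr⟩ := hφ.lift hψ' h1
  refine ⟨χ, r, hχ, ?_⟩
  rw [hr, ← pi_tau, hv1]

/-- a corner of a separable algebra is separable -/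
theorem CornerMap.separable {φ : K →⋆ₙₐ[ℂ] M} {e : M} (h : CornerMap φ e)
    (hs : IsSeparable₂ (TrC.tr : M →ₗ[ℂ] ℂ)) : IsSeparable₂ (TrC.tr : K →ₗ[ℂ] ℂ) := by
  obtain ⟨s, hsc, hd⟩ := hs
  have hcs : Countable s := hsc.to_subtype
  classical
  let g : s × ℕ → K := fun p => if h : ∃ x : K, n2 (φ x - (p.1 : M)) < 1 / ((p.2 : ℝ) + 1) then h.choose else 0
  refine ⟨Set.range g, Set.countable_range _, fun x ε hε => ?_⟩
  have hτ : 0 < Real.sqrt (tau e) := Real.sqrt_pos.2 h.tau_pos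
  obtain ⟨m, hm⟩ := exists_nat_gt (2 / (Real.sqrt (tau e) * ε))
  obtain ⟨y, hys, hy⟩ := hd (φ x) (1 / ((m : ℝ) + 1)) (by positivity)
  have hex : ∃ x : K, n2 (φ x - y) < 1 / ((m : ℝ) + 1) := ⟨x, hy⟩
  have hg : g (⟨y, hys⟩, m) = hex.choose := dif_pos hex
  refine ⟨g (⟨y, hys⟩, m), ⟨_, rfl⟩, ?_⟩
  show n2 (x - g (⟨y, hys⟩, m)) < ε
  have h1 : n2 (φ (g (⟨y, hys⟩, m)) - y) < 1 / ((m : ℝ) + 1) := by rw [hg]; exact hex.choose_spec
  have h2 : n2 (φ (x - g (⟨y, hys⟩, m))) < 2 / ((m : ℝ) + 1) := by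
    rw [map_sub]
    have h3 := n2_triangle (φ x) y (φ (g (⟨y, hys⟩, m)))
    have h4 : n2 (y - φ (g (⟨y, hys⟩, m))) < 1 / ((m : ℝ) + 1) := by rw [n2_sub_comm]; exact h1
    have h5 : n2 (φ x - y) < 1 / ((m : ℝ) + 1) := hy
    have h6 : (2 : ℝ) / ((m : ℝ) + 1) = 1 / ((m : ℝ) + 1) + 1 / ((m : ℝ) + 1) := by ring
    rw [h6]; linarith
  have h3 : n2 (φ (x - g (⟨y, hys⟩, m))) = Real.sqrt (tau e) * n2 (x - g (⟨y, hys⟩, m)) := by
    rw [← Real.sqrt_sq (n2_nonneg (φ _)), h.n2_sq, Real.sqrt_mul h.tau_pos.le,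
      Real.sqrt_sq (n2_nonneg _)]
  rw [h3] at h2
  have hm1 : 2 / (Real.sqrt (tau e) * ε) < (m : ℝ) + 1 := by linarith
  rw [div_lt_iff₀ (by positivity)] at hm1
  have h4 : 2 / ((m : ℝ) + 1) < Real.sqrt (tau e) * ε := by
    rw [div_lt_iff₀ (by positivity)]; linarith
  have h5 := h2.trans h4
  exact lt_of_mul_lt_mul_left h5 hτ.le

end

section Mat

variable {N L : Type u} [CStarAlgebra N] [TVN N] [CStarAlgebra L] [TVN L] [PartialOrder N] [StarOrderedRing N]
  [PartialOrder L] [StarOrderedRing L] {n : ℕ}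

/-- the corner `e₁₁` of a matrix algebra -/
theorem cornerMap_sg [NeZero n] : ∃ (φ : N →⋆ₙₐ[ℂ] Mt n N) (e : Mt n N),
    CornerMap φ e ∧ tau e = 1 / n ∧ ∀ a, φ a = sg 0 0 a := by
  let φ : N →⋆ₙₐ[ℂ] Mt n N :=
    { toFun := fun a => sg 0 0 a
      map_smul' := fun c a => by
        ext i j
        simp only [sg_apply, CStarMatrix.smul_apply, MonoidHom.id_apply]; split_ifs <;> simp
      map_zero' := by ext i j; simp [sg_apply]
      map_add' := fun a b => by
        ext i j; simp only [sg_apply, CStarMatrix.add_apply]; split_ifs <;> simp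
      map_mul' := fun a b => by
        ext i j
        rw [mul_sg, sg_apply, sg_apply]
        by_cases h1 : 0 = i <;> by_cases h2 : 0 = j <;> simp [h1, h2]
      map_star' := fun a => by
        ext i j
        rw [CStarMatrix.star_apply, sg_apply, sg_apply]
        by_cases h : 0 = i ∧ 0 = j
        · rw [if_pos h, if_pos h.symm]
        · rw [if_neg h, if_neg (fun h' => h h'.symm), star_zero] }
  have hφ : ∀ a, φ a = sg 0 0 a := fun _ => rfl
  have htr : ∀ a, TrC.tr (φ a) = (n : ℂ)⁻¹ * TrC.tr a := by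
    intro a
    rw [tr_mat, Finset.sum_eq_single 0]
    · rw [hφ, sg_apply, if_pos ⟨rfl, rfl⟩]
    · intro b _ hb
      rw [hφ, sg_apply, if_neg (fun h => hb h.1.symm), map_zero]
    · simp
  have htau : tau (φ 1) = 1 / n := by
    show (TrC.tr (φ 1)).re = 1 / n
    rw [htr, tr_one, mul_one]
    have : ((n : ℂ)⁻¹) = (((n : ℝ)⁻¹ : ℝ) : ℂ) := by push_cast; rfl
    rw [this, Complex.ofReal_re, one_div]
  refine ⟨φ, φ 1, ⟨⟨?_, ?_⟩, ?_, ?_, ?_, rfl, ?_⟩, htau, hφ⟩
  · rw [← map_mul, one_mul]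
  · rw [← map_star, star_one]
  · intro a b hab
    have h1 : sg (n := n) 0 0 a 0 0 = sg (n := n) 0 0 b 0 0 := congrFun (congrFun hab 0) 0
    simpa [sg_apply] using h1
  · intro x hx
    refine ⟨x 0 0, ?_⟩
    rw [hφ, ← hx, hφ]
    ext i j
    simp only [mul_sg, sg_mul, sg_apply, mul_one, one_mul, if_true]
    by_cases h1 : 0 = i
    · subst h1
      by_cases h2 : 0 = j
      · subst h2; simp
      · rw [if_neg (fun h => h2 h.2), if_neg h2]
    · rw [if_neg (fun h => h1 h.1)]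
      split_ifs <;> rfl
  · intro y
    rw [← map_mul, ← map_mul, one_mul, mul_one]
  · intro y
    rw [htr, htau]
    push_cast
    rw [one_div]

/-- the entrywise extension of a corner map -/
theorem cornerMap_entry [NeZero n] {θ : N →⋆ₙₐ[ℂ] L} {e : L} (hθ : CornerMap θ e) :
    ∃ (φ : Mt n N →⋆ₙₐ[ℂ] Mt n L) (f : Mt n L), CornerMap φ f ∧ tau f = tau e ∧
      ∀ a i j, φ a i j = θ (a i j) := by
  let φ : Mt n N →⋆ₙₐ[ℂ] Mt n L :=
    { toFun := fun a => CStarMatrix.ofMatrix (Matrix.of fun i j => θ (a i j))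
      map_smul' := fun c a => by
        ext i j
        show θ ((c • a) i j) = c • θ (a i j)
        rw [CStarMatrix.smul_apply, map_smul]
      map_zero' := by
        ext i j
        show θ 0 = 0
        rw [map_zero]
      map_add' := fun a b => by
        ext i j
        show θ ((a + b) i j) = θ (a i j) + θ (b i j)
        rw [CStarMatrix.add_apply, map_add]
      map_mul' := fun a b => by
        ext i j
        rw [CStarMatrix.mul_apply]
        show θ ((a * b) i j) = ∑ k, θ (a i k) * θ (b k j)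
        rw [CStarMatrix.mul_apply, map_sum]
        exact Finset.sum_congr rfl fun k _ => map_mul _ _ _
      map_star' := fun a => by
        ext i j
        rw [CStarMatrix.star_apply]
        show θ ((star a) i j) = star (θ (a j i))
        rw [CStarMatrix.star_apply, map_star] }
  have hφ : ∀ a i j, φ a i j = θ (a i j) := fun _ _ _ => rfl
  have hn : (n : ℂ) ≠ 0 := by exact_mod_cast NeZero.ne n
  have htr : ∀ a, TrC.tr (φ a) = tau e * TrC.tr a := by
    intro a
    rw [tr_mat, tr_mat]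
    have : ∀ i, TrC.tr (φ a i i) = tau e * TrC.tr (a i i) := fun i => by rw [hφ, hθ.tr]
    simp only [this, ← Finset.mul_sum]
    ring
  have htau : tau (φ 1) = tau e := by
    show (TrC.tr (φ 1)).re = tau e
    rw [htr, tr_one, mul_one, Complex.ofReal_re]
  have h1ij : ∀ i j, φ 1 i j = if i = j then e else 0 := by
    intro i j
    rw [hφ]
    by_cases h : i = j
    · subst h; rw [CStarMatrix.one_apply_eq, if_pos rfl, hθ.one]
    · rw [CStarMatrix.one_apply_ne h, if_neg h, map_zero]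
  refine ⟨φ, φ 1, ⟨⟨?_, ?_⟩, ?_, ?_, ?_, rfl, ?_⟩, htau, hφ⟩
  · rw [← map_mul, one_mul]
  · rw [← map_star, star_one]
  · intro a b hab
    ext i j
    exact hθ.inj (by rw [← hφ, ← hφ, hab])
  · intro x hx
    have hx' : ∀ i j, e * x i j * e = x i j := by
      intro i j
      have h2 : (φ 1 * x * φ 1) i j = e * x i j * e := by
        rw [CStarMatrix.mul_apply, Finset.sum_eq_single j]
        · rw [CStarMatrix.mul_apply, Finset.sum_eq_single i]
          · rw [h1ij, h1ij, if_pos rfl, if_pos rfl]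
          · intro b _ hb
            rw [h1ij, if_neg (Ne.symm hb), zero_mul]
          · simp
        · intro b _ hb
          rw [h1ij b j, if_neg hb, mul_zero]
        · simp
      rw [← h2, hx]
    choose g hg using fun i j => hθ.surj (x i j) (hx' i j)
    refine ⟨CStarMatrix.ofMatrix (Matrix.of g), ?_⟩
    ext i j
    rw [hφ]
    exact hg i j
  · intro y
    rw [← map_mul, ← map_mul, one_mul, mul_one]
  · intro y
    rw [htr, htau]

end Mat

end SCO
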