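import Pool.Agent.Work.MP_52dd0f_an.Small

/-!
# Commutants without minimal projections: projections of any trace
-/

set_option linter.unusedSectionVars false

namespace SCO

open Filter Topology
open scoped ComplexOrder ComplexConjugate

universe u v

/-- the commutant of a set -/
def Co {M : Type u} [CStarAlgebra M] (S : Set M) (x : M) : Prop := ∀ s ∈ S, s * x = x * s

/-- `S` is closed under `*` -/
def StarClosed {M : Type u} [CStarAlgebra M] (S : Set M) : Prop := ∀ s ∈ S, star s ∈ S

section Co

variable {M : Type u} [CStarAlgebra M] {S : Set M} {x y : M}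

theorem Co.zero : Co S (0 : M) := fun s _ => by simp
theorem Co.one : Co S (1 : M) := fun s _ => by simp
theorem Co.add (hx : Co S x) (hy : Co S y) : Co S (x + y) := fun s hs => by
  rw [mul_add, add_mul, hx s hs, hy s hs]
theorem Co.sub (hx : Co S x) (hy : Co S y) : Co S (x - y) := fun s hs => by
  rw [mul_sub, sub_mul, hx s hs, hy s hs]
theorem Co.mul (hx : Co S x) (hy : Co S y) : Co S (x * y) := fun s hs => by
  rw [← mul_assoc, hx s hs, mul_assoc, hy s hs, mul_assoc]
theorem Co.smul (c : ℂ) (hx : Co S x) : Co S (c • x) := fun s hs => by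
  rw [mul_smul_comm, smul_mul_assoc, hx s hs]
theorem Co.star (hS : StarClosed S) (hx : Co S x) : Co S (star x) := fun s hs => by
  have := congrArg Star.star (hx _ (hS s hs))
  rw [star_mul, star_mul, star_star] at this
  exact this.symm
theorem Co.sum {ι : Type*} (t : Finset ι) {f : ι → M} (h : ∀ i ∈ t, Co S (f i)) :
    Co S (∑ i ∈ t, f i) := fun s hs => by
  rw [Finset.mul_sum, Finset.sum_mul]
  exact Finset.sum_congr rfl fun i hi => h i hi s hs

theorem Co.of_T2 [TrC M] {ι : Type*} {l : Filter ι} [l.NeBot] {x : ι → M} {y : M} (hx : ∀ k, Co S (x k))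
    (h : T2 l x y) : Co S y := fun s hs => by
  have h1 := h.const_mul s
  have h2 := h.mul_const s
  have : (fun k => s * x k) = fun k => x k * s := funext fun k => hx k s hs
  rw [this] at h1
  exact h1.unique h2

end Co

section

variable {M : Type u} [CStarAlgebra M] [TVN M]

/-- relative version of `sq_of_minimal` -/
theorem sq_of_minimal' {e : M} (he : IsProj e) {y : M} (hy : y * e = y)
    (hmin : ∀ f, IsProj f → (∀ z, Commute (star y * y) z → Commute f z) → f * e = f → f = 0 ∨ f = e) :
    star y * y = ((‖y‖ ^ 2 : ℝ) : ℂ) • e := by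
  set a : M := star y * y with ha
  have hsa : IsSelfAdjoint a := isSelfAdjoint_sq y
  have hna : ‖a‖ = ‖y‖ ^ 2 := by rw [ha, CStarRing.norm_star_mul_self, sq]
  have hae : a * e = a := by rw [ha, mul_assoc, hy]
  rcases eq_or_lt_of_le (norm_nonneg a) with h0 | h0
  · have : a = 0 := norm_eq_zero.1 h0.symm
    rw [this, ← hna, ← h0]; simp
  let _ := CStarAlgebra.spectralOrder M
  have _ := CStarAlgebra.spectralOrderedRing M
  have hspec : ‖a‖ ∈ spectrum ℝ a := CStarAlgebra.norm_mem_spectrum_of_nonneg (star_mul_self_nonneg y)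
  have key : ∀ c : ℝ, 0 < c → c < ‖a‖ → cfc (fun t => max 0 (c - t)) a * e = 0 := by
    intro c hc hca
    set b : M := cfc (fun t => max 0 (t - c)) a with hb
    have hbc : ContinuousOn (fun t : ℝ => max 0 (t - c)) (spectrum ℝ a) := by fun_prop
    have hb0 : b ≠ 0 := by
      intro h0
      have h8 : max 0 (‖a‖ - c) ∈ spectrum ℝ b := by
        rw [hb, cfc_map_spectrum (fun t => max 0 (t - c)) a hsa hbc]
        exact ⟨_, hspec, rfl⟩
      rw [h0, spectrum.zero_eq, Set.mem_singleton_iff, max_eq_right (by linarith)] at h8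
      linarith
    obtain ⟨v, -, h1, h2, h3, h4, h5, -, hlim⟩ := polar b
    have hbe : b * (1 - e) = 0 := by
      have hg : Continuous (fun t : ℝ => max 0 (t - c) / max t c) :=
        Continuous.div (by fun_prop) (by fun_prop) (fun t => (lt_max_of_lt_right hc).ne')
      have e1 : b = cfc (fun t => (max 0 (t - c) / max t c) * t) a := by
        rw [hb]
        apply cfc_congr
        intro t _
        show max 0 (t - c) = max 0 (t - c) / max t c * t
        rcases le_total t c with h | h
        · rw [max_eq_left (by linarith : t - c ≤ 0)]; simp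
        · rw [max_eq_left h, div_mul_cancel₀ _ (by linarith : t ≠ 0)]
      rw [e1, cfc_mul _ (fun t => t) a hg.continuousOn continuousOn_id, cfc_id' ℝ a, mul_assoc,
        mul_sub, mul_one, hae, sub_self, mul_zero]
    have hr := pi_src h1
    have hrc : ∀ z, Commute a z → Commute (star v * v) z := by
      intro z hz
      have hz1 : Commute b z := hz.cfc_real _
      have hz2 : Commute (star b * b) z := by
        have : star b = b := cfc_star_real _ _
        rw [this]; exact hz1.mul_left hz1
      have h6 : ∀ n, Commute (cfc (fN n) (star b * b)) z := fun n => hz2.cfc_real _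
      have h7 := hlim.const_mul z
      have h8 := hlim.mul_const z
      have : (fun n => z * cfc (fN n) (star b * b)) = fun n => cfc (fN n) (star b * b) * z :=
        funext fun n => (h6 n).eq.symm
      rw [this] at h7
      exact h8.unique h7
    have hre : (star v * v) * e = star v * v := by
      have := h5 (1 - e) hbe
      rw [mul_sub, mul_one] at this
      rw [mul_assoc, ← sub_eq_zero.1 this]
    have hr0 : star v * v ≠ 0 := by
      intro h0
      apply hb0
      rw [← h3, h0, mul_zero]
    have hreq : star v * v = e := (hmin _ hr hrc hre).resolve_left hr0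
    -- `(c - a)_+ b = 0`
    have hz : cfc (fun t => max 0 (c - t)) a * b = 0 := by
      rw [hb]
      apply cfc_mul_eq_zero (by fun_prop) (by fun_prop)
      intro t
      rcases le_total t c with h | h
      · rw [max_eq_left (by linarith : t - c ≤ 0), mul_zero]
      · rw [max_eq_left (by linarith : c - t ≤ 0), zero_mul]
    have hz' : b * cfc (fun t => max 0 (c - t)) a = 0 := by
      have := congrArg star hz
      rwa [star_mul, hb, cfc_star_real, cfc_star_real, star_zero] at this
    have h6 := h5 _ hz'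
    have h7 : (star v * v) * cfc (fun t => max 0 (c - t)) a = 0 := by
      rw [mul_assoc, h6, mul_zero]
    rw [hreq] at h7
    have := congrArg star h7
    rwa [star_mul, he.star, cfc_star_real, star_zero] at this
  -- pass to the limit `c → ‖a‖`
  have hlim : cfc (fun t => max 0 (‖a‖ - t)) a * e = 0 := by
    apply norm_le_zero_iff.1
    refine le_of_forall_pos_le_add fun ε hε => ?_
    set c := max (‖a‖ - ε) (‖a‖ / 2) with hc
    have hc0 : 0 < c := lt_max_of_lt_right (by positivity)
    have hca : c < ‖a‖ := max_lt (by linarith) (by linarith)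
    have hce : ‖a‖ - ε ≤ c := le_max_left _ _
    have h1 := key c hc0 hca
    have h2 : cfc (fun t => max 0 (‖a‖ - t)) a * e =
        cfc (fun t => max 0 (‖a‖ - t) - max 0 (c - t)) a * e := by
      rw [cfc_sub (fun t => max 0 (‖a‖ - t)) (fun t => max 0 (c - t)) a (by fun_prop) (by fun_prop),
        sub_mul, h1, sub_zero]
    rw [h2, zero_add]
    refine (norm_mul_le _ _).trans ?_
    have h3 : ‖cfc (fun t => max 0 (‖a‖ - t) - max 0 (c - t)) a‖ ≤ ε := by
      apply norm_cfc_le hε.le
      intro t _
      rw [Real.norm_eq_abs, abs_le]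
      rcases le_total t c with h | h
      · rw [max_eq_right (by linarith : 0 ≤ ‖a‖ - t), max_eq_right (by linarith : 0 ≤ c - t)]
        constructor <;> linarith
      · rw [max_eq_left (by linarith : c - t ≤ 0), sub_zero]
        refine ⟨by have := le_max_left 0 (‖a‖ - t); linarith, ?_⟩
        apply max_le hε.le; linarith
    calc _ ≤ ε * 1 := mul_le_mul h3 he.norm_le (norm_nonneg _) hε.le
      _ = ε := mul_one _
  have h1 : cfc (fun t => max 0 (‖a‖ - t)) a = ((‖a‖ : ℝ) : ℂ) • (1 : M) - a := by
    have : cfc (fun t => max 0 (‖a‖ - t)) a = cfc (fun t => ‖a‖ - t) a := by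
      apply cfc_congr
      intro t ht
      show max 0 (‖a‖ - t) = ‖a‖ - t
      have : |t| ≤ ‖a‖ := by
        have := spectrum.norm_le_norm_of_mem ht
        rwa [Real.norm_eq_abs] at this
      rw [max_eq_right]; linarith [le_abs_self t]
    rw [this, cfc_sub (fun _ => ‖a‖) (fun t => t) a continuousOn_const continuousOn_id, cfc_const ‖a‖ a hsa,
      cfc_id' ℝ a, Algebra.algebraMap_eq_smul_one]
    rfl
  rw [h1, sub_mul, smul_mul_assoc, one_mul, hae, sub_eq_zero, hna] at hlim
  exact hlim.symm

/-- a projection that is minimal in the commutant `S'` compresses `S'` to the scalars -/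
theorem scalar_of_minimal' {S : Set M} (hS : StarClosed S) {e : M} (he : IsProj e) (heS : Co S e)
    (hmin : ∀ f, Co S f → IsProj f → f * e = f → f = 0 ∨ f = e) {x : M} (hx : Co S x) :
    ∃ c : ℂ, e * x * e = c • e := by
  have key : ∀ w, Co S w → w * e = w → ∃ c : ℂ, star w * w = c • e := fun w hw hwe =>
    ⟨_, sq_of_minimal' he hwe (fun f hf hfc hfe => hmin f (fun s hs => by
      have h1 : Co S (star w * w) := (Co.star hS hw).mul hw
      have h2 : Commute (star w * w) s := (h1 s hs).symm
      exact (hfc s h2).eq.symm) hf hfe)⟩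
  have hxe : Co S (x * e) := hx.mul heS
  have hxee : x * e * e = x * e := by rw [mul_assoc, he.mul]
  obtain ⟨c1, h1⟩ := key (e + x * e) (heS.add hxe) (by rw [add_mul, he.mul, hxee])
  obtain ⟨c2, h2⟩ := key (e - x * e) (heS.sub hxe) (by rw [sub_mul, he.mul, hxee])
  obtain ⟨c3, h3⟩ := key (e + Complex.I • (x * e)) (heS.add (hxe.smul _))
    (by rw [add_mul, smul_mul_assoc, he.mul, hxee])
  obtain ⟨c4, h4⟩ := key (e - Complex.I • (x * e)) (heS.sub (hxe.smul _))
    (by rw [sub_mul, smul_mul_assoc, he.mul, hxee])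
  refine ⟨(1 / 4) * (c1 - c2 - Complex.I * (c3 - c4)), ?_⟩
  have e1 : star e * (x * e) = (1 / 4 : ℂ) • (star (e + x * e) * (e + x * e) -
      star (e - x * e) * (e - x * e) -
      Complex.I • (star (e + Complex.I • (x * e)) * (e + Complex.I • (x * e)) -
        star (e - Complex.I • (x * e)) * (e - Complex.I • (x * e)))) := by
    have hI : Complex.I * Complex.I = -1 := Complex.I_mul_I
    simp only [star_add, star_sub, star_smul, add_mul, sub_mul, mul_add, mul_sub, smul_mul_assoc,
      mul_smul_comm, Complex.star_def, Complex.conj_I, smul_smul, smul_add, smul_sub, neg_smul,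
      smul_neg, neg_mul, hI, one_smul]
    module
  rw [mul_assoc]
  nth_rewrite 1 [← he.star]
  rw [e1, h1, h2, h3, h4]
  simp only [← sub_smul, smul_smul]

/-- the commutant `S'` has no minimal projection -/
def NoMin (S : Set M) : Prop :=
  ∀ e, Co S e → IsProj e → e ≠ 0 → ∃ f, Co S f ∧ IsProj f ∧ f * e = f ∧ f ≠ 0 ∧ f ≠ e

theorem noMin_of_commute [FactorII M] {S : Set M} (hS : StarClosed S)
    (hc : ∀ s ∈ S, ∀ t ∈ S, s * t = t * s) : NoMin S := by
  intro e heS he he0
  by_contra hcon
  push Not at hcon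
  have hmin : ∀ f, Co S f → IsProj f → f * e = f → f = 0 ∨ f = e := fun f hfS hf hfe => by
    by_contra h; push Not at h; exact h.2 (hcon f hfS hf hfe h.1)
  obtain ⟨f, hf, hfe, hf0, hf1⟩ := no_minimal he he0
  refine hf1 (((hmin f ?_ hf hfe).resolve_left hf0))
  intro s hs
  have hsS : Co S s := fun t ht => hc t ht s hs
  obtain ⟨c, hc⟩ := scalar_of_minimal' hS he heS hmin hsS
  have hse : s * e = c • e := by
    rw [← hc, ← heS s hs, mul_assoc, he.mul]
  have hes : e * s = c • e := by rw [← heS s hs, hse]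
  have hef : e * f = f := hf.mul_swap he hfe
  calc s * f = s * e * f := by rw [mul_assoc, hef]
    _ = f * (e * s) := by rw [hse, hes, smul_mul_assoc, hef, mul_smul_comm, hfe]
    _ = f * s := by rw [← mul_assoc, hfe]

theorem exists_small {S : Set M} (hN : NoMin S) {e : M} (heS : Co S e) (he : IsProj e)
    (he0 : e ≠ 0) (k : ℕ) : ∃ f, Co S f ∧ IsProj f ∧ f * e = f ∧ f ≠ 0 ∧ tau f ≤ tau e / 2 ^ k := by
  induction k with
  | zero => exact ⟨e, heS, he, he.mul, he0, by simp⟩
  | succ k ih =>
    obtain ⟨f, hfS, hf, hfe, hf0, hft⟩ := ih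
    obtain ⟨g, hgS, hg, hgf, hg0, hg1⟩ := hN f hfS hf hf0
    have hge : g * e = g := by
      calc g * e = g * f * e := by rw [hgf]
        _ = g := by rw [mul_assoc, hfe, hgf]
    rcases le_total (tau g) (tau f / 2) with h | h
    · refine ⟨g, hgS, hg, hge, hg0, h.trans ?_⟩
      rw [pow_succ]
      calc tau f / 2 ≤ tau e / 2 ^ k / 2 := by linarith
        _ = _ := by rw [div_div]
    · refine ⟨f - g, hfS.sub hgS, hg.sub hf hgf, by rw [sub_mul, hfe, hge],
        fun h0 => hg1 (sub_eq_zero.1 h0).symm, ?_⟩
      rw [tau_sub, pow_succ]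
      calc tau f - tau g ≤ tau f / 2 := by linarith
        _ ≤ tau e / 2 ^ k / 2 := by linarith
        _ = _ := by rw [div_div]

/-- Projections of prescribed trace in a commutant without minimal projections. -/
theorem exists_tau_eq {S : Set M} (hN : NoMin S) {q : M} (hqS : Co S q) (hq : IsProj q)
    {s : ℝ} (hs0 : 0 ≤ s) (hs : s ≤ tau q) :
    ∃ r, Co S r ∧ IsProj r ∧ r * q = r ∧ tau r = s := by
  let X := {f : M // Co S f ∧ IsProj f ∧ f * q = f ∧ tau f ≤ s}
  have hle_trans : ∀ f g k : X, f.1 * g.1 = f.1 → g.1 * k.1 = g.1 → f.1 * k.1 = f.1 := by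
    intro f g k h1 h2
    calc f.1 * k.1 = f.1 * g.1 * k.1 := by rw [h1]
      _ = f.1 := by rw [mul_assoc, h2, h1]
  obtain ⟨⟨f, hfS, hf, hfq, hfs⟩, -, hmax⟩ := exhaustion (fun f g : X => f.1 * g.1 = f.1)
    (fun f => f.2.2.1.mul) hle_trans (fun f => tau f.1)
    (fun f g h => tau_le_of_le f.2.2.1 g.2.2.1 h) s (fun f => f.2.2.2.2)
    (by
      intro x hx
      obtain ⟨y, hy, hlim, hle⟩ := proj_limit (x := fun k => (x k).1) (fun k => (x k).2.2.1) hx
      refine ⟨⟨y, Co.of_T2 (fun k => (x k).2.1) hlim, hy, ?_, ?_⟩, hle⟩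
      · have h1 := hlim.mul_const q
        simp only [(x _).2.2.2.1] at h1
        exact h1.unique hlim
      · exact le_of_tendsto' hlim.tau (fun k => (x k).2.2.2.2))
    ⟨0, Co.zero, IsProj.zero, by simp, by simpa using hs0⟩
  simp only at hmax
  refine ⟨f, hfS, hf, hfq, ?_⟩
  by_contra hne
  have hlt : tau f < s := lt_of_le_of_ne hfs hne
  have he := hf.sub hq hfq
  have he0 : q - f ≠ 0 := fun h0 => by
    have := congrArg tau h0; rw [tau_sub, tau_zero] at this; linarith
  obtain ⟨k, hk⟩ : ∃ k : ℕ, tau (q - f) / 2 ^ k < s - tau f := by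
    have : Tendsto (fun k : ℕ => tau (q - f) / 2 ^ k) atTop (𝓝 0) := by
      have h1 := (tendsto_pow_atTop_nhds_zero_of_lt_one (by norm_num : (0:ℝ) ≤ 1/2) (by norm_num)).const_mul
        (tau (q - f))
      rw [mul_zero] at h1
      refine h1.congr fun k => ?_
      rw [one_div, inv_pow, div_eq_mul_inv]
    exact (this.eventually (gt_mem_nhds (by linarith))).exists
  obtain ⟨g, hgS, hg, hge, hg0, hgt⟩ := exists_small hN (hqS.sub hfS) he he0 k
  have hfg : f * g = 0 := by
    have h1 : f * (q - f) = 0 := by rw [mul_sub, hfq, hf.mul, sub_self]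
    rw [← hg.mul_swap he hge, ← mul_assoc, h1, zero_mul]
  have hgq : g * q = g := by
    have h1 : (q - f) * q = q - f := by rw [sub_mul, hq.mul, hfq]
    calc g * q = g * (q - f) * q := by rw [hge]
      _ = g := by rw [mul_assoc, h1, hge]
  have hgpos := hg.tau_pos hg0
  have h1 := hmax ⟨f + g, hfS.add hgS, hf.add hg hfg, by rw [add_mul, hfq, hgq], by
    rw [tau_add]; linarith⟩ (by rw [mul_add, hf.mul, hfg, add_zero])
  rw [tau_add] at h1
  linarith

end

end SCO
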