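import Pool.Agent.Work.MP_52dd0f_an.Tree
import Pool.Agent.Work.MP_52dd0f_an_helper59.UGroup

/-!
# Corners and chains
-/

set_option linter.unusedSectionVars false

namespace SCO

open Filter Topology
open scoped ComplexOrder ComplexConjugate

universe u v

/-- `φ` identifies `K` with the corner `e M e` -/
structure CornerMap {K M : Type u} [CStarAlgebra K] [TrC K] [CStarAlgebra M] [TrC M]
    (φ : K →⋆ₙₐ[ℂ] M) (e : M) : Prop where
  proj : IsProj e
  inj : Function.Injective φ
  surj : ∀ x, e * x * e = x → ∃ y, φ y = x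
  corner : ∀ y, e * φ y * e = φ y
  one : φ 1 = e
  tr : ∀ y, tr (φ y) = tau e * tr y

/-- all Haar unitaries are linked -/
def OneOrbit (K : Type u) [CStarAlgebra K] [TrC K] : Prop :=
  ∀ u v : K, HaarU u → HaarU v → ∃ n, Conn n u v

section Misc

variable {M : Type u} [CStarAlgebra M] [TVN M]

theorem norm_le_one_of_orthogonal {E x y : M} (hE : IsProj E) (hx : E * x * E = x)
    (hy : (1 - E) * y * (1 - E) = y) (hx1 : ‖x‖ ≤ 1) (hy1 : ‖y‖ ≤ 1) : ‖x + y‖ ≤ 1 := by
  let _ := CStarAlgebra.spectralOrder M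
  have _ := CStarAlgebra.spectralOrderedRing M
  have hEE : E * (1 - E) = 0 := by rw [mul_sub, mul_one, hE.mul, sub_self]
  have hEE' : (1 - E) * E = 0 := by rw [sub_mul, one_mul, hE.mul, sub_self]
  have key : ∀ (F z : M), IsProj F → F * z * F = z → ‖z‖ ≤ 1 → star z * z ≤ F := by
    intro F z hF hz hz1
    have h1 : star z * z ≤ 1 := by
      have h2 : star z * z ≤ algebraMap ℝ M (‖z‖ ^ 2) := CStarAlgebra.star_mul_le_algebraMap_norm_sq
      have h3 : algebraMap ℝ M (‖z‖ ^ 2) ≤ algebraMap ℝ M 1 := by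
        apply algebraMap_mono
        exact pow_le_one₀ (norm_nonneg _) hz1
      rw [map_one] at h3
      exact h2.trans h3
    have h4 : 0 ≤ star F * (1 - star z * z) * F := star_left_conjugate_nonneg (sub_nonneg.2 h1) F
    have h5 : z * F = z := by rw [← hz, mul_assoc, hF.mul]
    have h6 : star F * (1 - star z * z) * F = F - star z * z := by
      have h7 : star F * star z = star z := by rw [← star_mul, h5]
      calc star F * (1 - star z * z) * F = star F * F - (star F * star z) * (z * F) := by noncomm_ring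
        _ = _ := by rw [h7, h5, hF.star, hF.mul]
    rw [h6] at h4
    exact sub_nonneg.1 h4
  have h1 := key E x hE hx hx1
  have h2 := key (1 - E) y hE.compl hy hy1
  have hxy : star x * y = 0 := by
    have h5 : E * x = x := by rw [← hx, ← mul_assoc, ← mul_assoc, hE.mul]
    have h6 : (1 - E) * y = y := by rw [← hy, ← mul_assoc, ← mul_assoc, hE.compl.mul]
    rw [← h5, ← h6, star_mul, hE.star, mul_assoc, ← mul_assoc E, hEE, zero_mul, mul_zero]
  have hyx : star y * x = 0 := by
    have := congrArg star hxy; rwa [star_mul, star_star, star_zero] at this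
  have h3 : star (x + y) * (x + y) = star x * x + star y * y := by
    rw [star_add, add_mul, mul_add, mul_add, hxy, hyx]; abel
  have h4 : star (x + y) * (x + y) ≤ 1 := by
    rw [h3]
    calc star x * x + star y * y ≤ E + (1 - E) := add_le_add h1 h2
      _ = 1 := by abel
  have h5 : ‖star (x + y) * (x + y)‖ ≤ 1 :=
    (CStarAlgebra.norm_le_one_iff_of_nonneg _ (star_mul_self_nonneg _)).2 h4
  rw [CStarRing.norm_star_mul_self] at h5
  nlinarith [norm_nonneg (x + y)]

theorem IsHaarIn.haarU {u : M} (h : IsHaarIn 1 u) : HaarU u := ⟨h.src, h.rng, h.tr⟩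

theorem HaarU.isHaarIn {u : M} (h : HaarU u) : IsHaarIn 1 u := ⟨h.isom, h.coisom, h.haar⟩

theorem IsHaarIn.mul_left {e d : M} (he : IsProj e) (h : IsHaarIn e d) : e * d = d :=
  pi_mul_rng he h.src h.rng

theorem IsHaarIn.mul_right {e d : M} (he : IsProj e) (h : IsHaarIn e d) : d * e = d :=
  pi_mul_src he h.src

theorem IsHaarIn.norm_le {e d : M} (he : IsProj e) (h : IsHaarIn e d) : ‖d‖ ≤ 1 := by
  have h1 := he.norm_le
  rw [← h.src, CStarRing.norm_star_mul_self] at h1
  nlinarith [norm_nonneg d]

/-- orthogonal sums of Haar unitaries of complementary corners -/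
theorem IsHaarIn.add {E d₁ d₂ : M} (hE : IsProj E) (h₁ : IsHaarIn E d₁) (h₂ : IsHaarIn (1 - E) d₂) :
    IsHaarIn 1 (d₁ + d₂) := by
  have hEE : E * (1 - E) = 0 := by rw [mul_sub, mul_one, hE.mul, sub_self]
  have hEE' : (1 - E) * E = 0 := by rw [sub_mul, one_mul, hE.mul, sub_self]
  have a1 := h₁.mul_left hE
  have a2 := h₁.mul_right hE
  have b1 := h₂.mul_left hE.compl
  have b2 := h₂.mul_right hE.compl
  have e1 : star d₁ * d₂ = 0 := by
    rw [← a1, ← b1, star_mul, hE.star, mul_assoc, ← mul_assoc E, hEE, zero_mul, mul_zero]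
  have e2 : d₁ * star d₂ = 0 := by
    rw [← a2, ← b2, star_mul, hE.compl.star, mul_assoc, ← mul_assoc E, hEE, zero_mul, mul_zero]
  have e1' : star d₂ * d₁ = 0 := by
    have := congrArg star e1; rwa [star_mul, star_star, star_zero] at this
  have e2' : d₂ * star d₁ = 0 := by
    have := congrArg star e2; rwa [star_mul, star_star, star_zero] at this
  have e3 : d₁ * d₂ = 0 := by
    rw [← a2, ← b1, mul_assoc, ← mul_assoc E, hEE, zero_mul, mul_zero]
  have e4 : d₂ * d₁ = 0 := by
    rw [← b2, ← a1, mul_assoc, ← mul_assoc (1 - E), hEE', zero_mul, mul_zero]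
  refine ⟨?_, ?_, fun m hm => ?_⟩
  · rw [star_add, add_mul, mul_add, mul_add, e1, e1', h₁.src, h₂.src]; abel
  · rw [star_add, add_mul, mul_add, mul_add, e2, e2', h₁.rng, h₂.rng]; abel
  · obtain ⟨m, rfl⟩ : ∃ k, m = k + 1 := ⟨m - 1, by omega⟩
    rw [add_pow_of_orthogonal e3 e4, map_add, h₁.tr _ hm, h₂.tr _ hm, add_zero]

end Misc

section Corner

variable {K M : Type u} [CStarAlgebra K] [TVN K] [CStarAlgebra M] [TVN M]
  {φ : K →⋆ₙₐ[ℂ] M} {e : M}

theorem CornerMap.left (h : CornerMap φ e) (y : K) : e * φ y = φ y := by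
  rw [← h.one, ← map_mul, one_mul]

theorem CornerMap.right (h : CornerMap φ e) (y : K) : φ y * e = φ y := by
  rw [← h.one, ← map_mul, mul_one]

theorem CornerMap.ne_zero (h : CornerMap φ e) : e ≠ 0 := by
  intro h0
  have h1 : φ 1 = φ 0 := by rw [h.one, h0, map_zero]
  exact one_ne_zero (h.inj h1)

theorem CornerMap.tau_pos (h : CornerMap φ e) : 0 < tau e := h.proj.tau_pos h.ne_zero

theorem CornerMap.n2_sq (h : CornerMap φ e) (y : K) : n2 (φ y) ^ 2 = tau e * n2 y ^ 2 := by
  rw [SCO.n2_sq, SCO.n2_sq, ← map_star, ← map_mul, h.tr, Complex.re_ofReal_mul]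

theorem CornerMap.n2_le (h : CornerMap φ e) (y : K) : n2 (φ y) ≤ n2 y := by
  have h1 := h.n2_sq y
  have h2 := h.proj.tau_le_one
  have h3 : n2 (φ y) ^ 2 ≤ n2 y ^ 2 := by nlinarith [sq_nonneg (n2 y)]
  exact abs_le_of_sq_le_sq' h3 (n2_nonneg _) |>.2

theorem CornerMap.haar (h : CornerMap φ e) {a : K} (ha : IsHaarIn 1 a) : IsHaarIn e (φ a) := by
  refine ⟨?_, ?_, fun m hm => ?_⟩
  · rw [← map_star, ← map_mul, ha.src, h.one]
  · rw [← map_star, ← map_mul, ha.rng, h.one]
  · obtain ⟨m, rfl⟩ : ∃ k, m = k + 1 := ⟨m - 1, by omega⟩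
    have : φ a ^ (m + 1) = φ (a ^ (m + 1)) := by
      induction m with
      | zero => simp
      | succ m ih => rw [pow_succ, ih (by omega), ← map_mul, ← pow_succ]
    rw [this, h.tr, ha.tr _ hm, mul_zero]

theorem CornerMap.pow (φ : K →⋆ₙₐ[ℂ] M) (a : K) (m : ℕ) : φ a ^ (m + 1) = φ (a ^ (m + 1)) := by
  induction m with
  | zero => simp
  | succ m ih => rw [pow_succ, ih, ← map_mul, ← pow_succ]

theorem CornerMap.exists_haar (h : CornerMap φ e) {d : M} (hd : IsHaarIn e d) :
    ∃ a : K, φ a = d ∧ IsHaarIn 1 a := by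
  obtain ⟨a, ha⟩ := h.surj d (by rw [hd.mul_left h.proj, hd.mul_right h.proj])
  refine ⟨a, ha, ?_, ?_, fun m hm => ?_⟩
  · apply h.inj
    rw [map_mul, map_star, ha, hd.src, h.one]
  · apply h.inj
    rw [map_mul, map_star, ha, hd.rng, h.one]
  · obtain ⟨m, rfl⟩ : ∃ k, m = k + 1 := ⟨m - 1, by omega⟩
    have h1 := h.tr (a ^ (m + 1))
    rw [← CornerMap.pow, ha, hd.tr _ hm] at h1
    have h2 := h.tau_pos
    rcases mul_eq_zero.1 h1.symm with h3 | h3
    · exact absurd (by exact_mod_cast h3) h2.ne'
    · exact h3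

/-- transport along a partial isometry -/
theorem CornerMap.conj (h : CornerMap φ e) {v f : M} (hv : star v * v = e) (hv' : v * star v = f) :
    ∃ ψ : K →⋆ₙₐ[ℂ] M, CornerMap ψ f := by
  have he := h.proj
  have hve : v * e = v := pi_mul_src he hv
  have hfv : f * v = v := pi_mul_rng he hv hv'
  have hev : e * star v = star v := by
    have := congrArg star hve; rwa [star_mul, he.star] at this
  have hf : IsProj f := by rw [← hv']; exact pi_rng (pi_of_src (by rw [hv]; exact he))
  have hvf : star v * f = star v := by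
    have := congrArg star hfv; rwa [star_mul, hf.star] at this
  refine ⟨{ toFun := fun x => v * φ x * star v
            map_smul' := fun c x => by
              rw [map_smul, mul_smul_comm, smul_mul_assoc]; rfl
            map_zero' := by rw [map_zero, mul_zero, zero_mul]
            map_add' := fun x y => by rw [map_add, mul_add, add_mul]
            map_mul' := fun x y => by
              calc v * φ (x * y) * star v = v * (φ x * e * φ y) * star v := by
                    rw [map_mul, h.right]
                _ = v * φ x * star v * (v * φ y * star v) := by rw [← hv]; noncomm_ring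
            map_star' := fun x => by
              rw [map_star, star_mul, star_mul, star_star]; noncomm_ring }, ?_⟩
  have hψ : ∀ x, star v * (v * φ x * star v) * v = φ x := fun x => by
    calc star v * (v * φ x * star v) * v = (star v * v) * φ x * (star v * v) := by noncomm_ring
      _ = φ x := by rw [hv, h.left, h.right]
  refine ⟨hf, ?_, ?_, ?_, ?_, ?_⟩
  · intro x y hxy
    have hxy' : v * φ x * star v = v * φ y * star v := hxy
    apply h.inj
    rw [← hψ x, ← hψ y, hxy']
  · intro x hx
    obtain ⟨y, hy⟩ := h.surj (star v * x * v) (by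
      calc e * (star v * x * v) * e = (e * star v) * x * (v * e) := by noncomm_ring
        _ = _ := by rw [hev, hve])
    refine ⟨y, ?_⟩
    show v * φ y * star v = x
    rw [hy]
    calc v * (star v * x * v) * star v = (v * star v) * x * (v * star v) := by noncomm_ring
      _ = x := by rw [hv', hx]
  · intro y
    show f * (v * φ y * star v) * f = v * φ y * star v
    calc f * (v * φ y * star v) * f = (f * v) * φ y * (star v * f) := by noncomm_ring
      _ = _ := by rw [hfv, hvf]
  · show v * φ 1 * star v = f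
    rw [h.one, hve, hv']
  · intro y
    show TrC.tr (v * φ y * star v) = tau f * TrC.tr y
    have h1 : TrC.tr (v * φ y * star v) = TrC.tr (φ y) := by
      rw [tr_comm, ← mul_assoc, hv, h.left]
    rw [h1, h.tr]
    congr 2
    rw [← hv, ← hv', pi_tau]

/-- chains in the corner give chains in the big algebra -/
theorem conn_corner (h : CornerMap φ e) {a b : K} {n : ℕ} (hab : Conn n a b) {d : M}
    (hd : IsHaarIn (1 - e) d) : Conn n (φ a + d) (φ b + d) := by
  have hE := h.proj
  have hEE : e * (1 - e) = 0 := by rw [mul_sub, mul_one, hE.mul, sub_self]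
  have hEE' : (1 - e) * e = 0 := by rw [sub_mul, one_mul, hE.mul, sub_self]
  have b1 := hd.mul_left hE.compl
  have b2 := hd.mul_right hE.compl
  have c1 : ∀ y, φ y * d = 0 := fun y => by
    rw [← h.right, ← b1, mul_assoc, ← mul_assoc e, hEE, zero_mul, mul_zero]
  have c2 : ∀ y, d * φ y = 0 := fun y => by
    rw [← h.left, ← b2, mul_assoc, ← mul_assoc (1 - e), hEE', zero_mul, mul_zero]
  have c3 : ∀ y, φ y * star d = 0 := fun y => by
    have := congrArg star (c2 (star y))
    rwa [star_mul, map_star, star_star, star_zero] at this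
  have c4 : ∀ y, star d * φ y = 0 := fun y => by
    have := congrArg star (c1 (star y))
    rwa [star_mul, map_star, star_star, star_zero] at this
  intro ε hε l
  obtain ⟨w, hw0, hw1, hw2, hw3⟩ := hab ε hε l
  refine ⟨fun i => φ (w i) + d, by simp only [hw0], by simp only [hw1], fun i => ?_, fun i hi => ?_⟩
  · have k1 := (hw2 i).norm_le
    have k2 := (hw2 i).isom
    have k3 := (hw2 i).coisom
    have k4 := (hw2 i).haar
    refine ⟨?_, ?_, ?_, fun j hj hjl => ?_⟩
    · apply norm_le_one_of_orthogonal hE (h.corner _) (by rw [b1, b2])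
        ((NonUnitalStarAlgHom.norm_apply_le φ (w i)).trans k1) (hd.norm_le hE.compl)
    · have e1 : star (φ (w i) + d) * (φ (w i) + d) - 1 = φ (star (w i) * w i - 1) := by
        rw [star_add, add_mul, mul_add, mul_add, c4, hd.src, map_sub, h.one, map_mul, map_star]
        rw [← map_star, c1, add_zero]; abel
      rw [e1]; exact (h.n2_le _).trans_lt k2
    · have e1 : (φ (w i) + d) * star (φ (w i) + d) - 1 = φ (w i * star (w i) - 1) := by
        rw [star_add, add_mul, mul_add, mul_add, c3, hd.rng, map_sub, h.one, map_mul, map_star]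
        rw [← map_star, c2, add_zero]; abel
      rw [e1]; exact (h.n2_le _).trans_lt k3
    · obtain ⟨j, rfl⟩ : ∃ k, j = k + 1 := ⟨j - 1, by omega⟩
      show ‖TrC.tr ((φ (w i) + d) ^ (j + 1))‖ < ε
      rw [add_pow_of_orthogonal (c1 _) (c2 _), map_add, hd.tr _ hj, add_zero, CornerMap.pow, h.tr,
        norm_mul, Complex.norm_real, Real.norm_eq_abs, abs_of_pos h.tau_pos]
      have h1 := k4 _ hj hjl
      have h2 := hE.tau_le_one
      have h3 := norm_nonneg (TrC.tr (w i ^ (j + 1)))
      nlinarith
  · have e1 : (φ (w i) + d) * (φ (w (i + 1)) + d) - (φ (w (i + 1)) + d) * (φ (w i) + d) =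
        φ (w i * w (i + 1) - w (i + 1) * w i) := by
      rw [add_mul, mul_add, mul_add, add_mul, mul_add, mul_add, c1, c2, c1, c2, map_sub, map_mul, map_mul]
      abel
    show n2 ((φ (w i) + d) * (φ (w (i + 1)) + d) - (φ (w (i + 1)) + d) * (φ (w i) + d)) < ε
    rw [e1]; exact (h.n2_le _).trans_lt (hw3 i hi)

end Corner

end SCO
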