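import Mathlib

/-!
# Sequential commutation orbits of II₁ factors and of their amplifications

Definitions used in the statements for problem MP_52dd0f_an.
-/

namespace SCO

open Filter Topology
open scoped ComplexOrder

universe u v

section Factor

variable {M : Type u} [CStarAlgebra M]

/-- The 2-norm `‖x‖₂ = τ(x* x)^{1/2}` of a tracial state `τ`. -/
noncomputable def nrm2 (τ : M →ₗ[ℂ] ℂ) (x : M) : ℝ := Real.sqrt (τ (star x * x)).re

/-- `(M, τ)` is a II₁ factor, in intrinsic form: `M` is a unital C*-algebra, `τ` is a faithful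
tracial state on it, the operator-norm unit ball of `M` is complete for the 2-norm (this makes
`(M, τ)` a tracial von Neumann algebra with `τ` normal), the centre is `ℂ 1` and `M` is infinite
dimensional. -/
structure IsII₁Factor (M : Type u) [CStarAlgebra M] (τ : M →ₗ[ℂ] ℂ) : Prop where
  map_one : τ 1 = 1
  map_mul_comm : ∀ x y : M, τ (x * y) = τ (y * x)
  nonneg : ∀ x : M, 0 ≤ τ (star x * x)
  faithful : ∀ x : M, τ (star x * x) = 0 → x = 0
  complete : ∀ x : ℕ → M, (∀ k, ‖x k‖ ≤ 1) →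
    (∀ ε > 0, ∃ K, ∀ k ≥ K, ∀ l ≥ K, nrm2 τ (x k - x l) < ε) →
    ∃ y : M, ‖y‖ ≤ 1 ∧ Tendsto (fun k => nrm2 τ (x k - y)) atTop (𝓝 0)
  center : ∀ z : M, (∀ x, z * x = x * z) → ∃ c : ℂ, z = c • (1 : M)
  infinite : ¬ FiniteDimensional ℂ M

/-- The II₁ factor is separable: some countable subset is dense for the 2-norm. -/
def IsSeparable₂ (τ : M →ₗ[ℂ] ℂ) : Prop :=
  ∃ s : Set M, s.Countable ∧ ∀ x : M, ∀ ε > 0, ∃ y ∈ s, nrm2 τ (x - y) < ε

/-- The set `𝓗(M)` of Haar unitaries of `M`. -/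
def Haar (τ : M →ₗ[ℂ] ℂ) : Type u :=
  {u : unitary M // ∀ k : ℤ, k ≠ 0 → τ ((u ^ k : unitary M) : M) = 0}

/-- Two bounded sequences represent the same element of the tracial ultrapower `M^𝒰`. -/
def EqU (𝒰 : Ultrafilter ℕ) (τ : M →ₗ[ℂ] ℂ) (x y : ℕ → M) : Prop :=
  Tendsto (fun k => nrm2 τ (x k - y k)) 𝒰 (𝓝 0)

/-- The sequence `w` is bounded and represents a Haar unitary of the ultrapower `M^𝒰`. -/
structure IsHaarU (𝒰 : Ultrafilter ℕ) (τ : M →ₗ[ℂ] ℂ) (w : ℕ → M) : Prop where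
  bounded : ∃ C : ℝ, ∀ k, ‖w k‖ ≤ C
  star_mul : EqU 𝒰 τ (fun k => star (w k) * w k) (fun _ => 1)
  mul_star : EqU 𝒰 τ (fun k => w k * star (w k)) (fun _ => 1)
  haar : ∀ m : ℕ, m ≠ 0 → Tendsto (fun k => τ (w k ^ m)) 𝒰 (𝓝 0) ∧
    Tendsto (fun k => τ (star (w k) ^ m)) 𝒰 (𝓝 0)

/-- One step of a chain: `x` and `y` represent commuting Haar unitaries of `M^𝒰`. -/
def Step (𝒰 : Ultrafilter ℕ) (τ : M →ₗ[ℂ] ℂ) (x y : ℕ → M) : Prop :=
  IsHaarU 𝒰 τ x ∧ IsHaarU 𝒰 τ y ∧ EqU 𝒰 τ (fun k => x k * y k) (fun k => y k * x k)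

/-- Sequential commutation `u ∼ v` of two Haar unitaries of `M`: a finite chain of Haar unitaries
of `M^𝒰` leads from `u` to `v`, consecutive ones commuting (`M` sits in `M^𝒰` as the constant
sequences). -/
def SeqComm (𝒰 : Ultrafilter ℕ) (τ : M →ₗ[ℂ] ℂ) (u v : Haar τ) : Prop :=
  Relation.ReflTransGen (Step 𝒰 τ) (fun _ => (u.1 : M)) (fun _ => (v.1 : M))

/-- The number of sequential commutation orbits: the cardinality of the set of classes of `∼`. -/
noncomputable def numOrbits (𝒰 : Ultrafilter ℕ) (τ : M →ₗ[ℂ] ℂ) : Cardinal.{u} :=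
  Cardinal.mk (Quot (SeqComm 𝒰 τ))

end Factor

/-- `M` is a copy of the amplification `N^t`: for some `n` and some projection `p` in
`M_n(N) = M_n(ℂ) ⊗ N` with `∑ i, τ (p i i) = t` (normalized trace `t / n`) there is a
`*`-isomorphism of `M` onto the corner `p M_n(N) p`. -/
def IsAmplification (N : Type u) [CStarAlgebra N] (τ : N →ₗ[ℂ] ℂ) (M : Type v) [CStarAlgebra M]
    (t : ℝ) : Prop :=
  ∃ (n : ℕ) (p : Matrix (Fin n) (Fin n) N) (φ : M →⋆ₙₐ[ℂ] Matrix (Fin n) (Fin n) N),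
    p * p = p ∧ star p = p ∧ ∑ i, τ (p i i) = (t : ℂ) ∧
    Function.Injective φ ∧ Set.range φ = {x | p * x * p = x}

end SCO
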