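import Pool.Agent.Work.MP_52dd0f_an.Proj

/-!
# Comparison of projections in a II₁ factor
-/

set_option linter.unusedSectionVars false

namespace SCO

open Filter Topology
open scoped ComplexOrder ComplexConjugate

universe u v

/-- a II₁ factor -/
class FactorII (M : Type u) [CStarAlgebra M] [TVN M] : Prop where
  center : ∀ z : M, (∀ x, z * x = x * z) → ∃ c : ℂ, z = c • (1 : M)
  infinite : ¬ FiniteDimensional ℂ M

section

variable {M : Type u} [CStarAlgebra M] [TVN M]

/-- an element commuting with all unitaries is central -/
theorem central_of_unitary {z : M} (h : ∀ w ∈ unitary M, w * z * star w = z) (x : M) :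
    z * x = x * z := by
  have hx : x ∈ Submodule.span ℂ (unitary M : Set M) := by
    rw [CStarAlgebra.span_unitary]; trivial
  induction hx using Submodule.span_induction with
  | mem w hw =>
    have h1 := h w hw
    have h2 : star w * w = 1 := (Unitary.mem_iff.1 hw).1
    calc z * w = w * z * star w * w := by rw [h1]
      _ = w * z * (star w * w) := by noncomm_ring
      _ = w * z := by rw [h2, mul_one]
  | zero => simp
  | add a b _ _ ha hb => rw [mul_add, add_mul, ha, hb]
  | smul c a _ ha => rw [mul_smul_comm, smul_mul_assoc, ha]

variable [FactorII M]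

theorem exists_mul_ne {e f : M} (he : IsProj e) (hf : IsProj f) (he0 : e ≠ 0) (hf0 : f ≠ 0) :
    ∃ x, e * x * f ≠ 0 := by
  by_contra hcon
  push Not at hcon
  set K : Set M := {y | ‖y‖ ≤ 1 ∧ tr y = tr f ∧ ∀ x, e * x * y = 0} with hK
  obtain ⟨y, hy, hmin⟩ := exists_min (K := K) ⟨f, hf.norm_le, rfl, hcon⟩ (C := 1) (fun x hx => hx.1)
    (by
      intro x hx y hy
      refine ⟨?_, ?_, ?_⟩
      · rw [norm_smul, Complex.norm_real, Real.norm_eq_abs, abs_of_pos (by norm_num)]
        have h1 := norm_add_le x y
        have h2 := hx.1
        have h3 := hy.1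
        linarith
      · rw [map_smul, map_add, hx.2.1, hy.2.1, smul_eq_mul]; push_cast; ring
      · intro z; rw [mul_smul_comm, mul_add, hx.2.2, hy.2.2]; simp)
    (by
      intro x hx y hxy
      refine ⟨norm_le_of_T2 (fun k => (hx k).1) hxy, ?_, ?_⟩
      · have h1 := hxy.tr
        simp only [(hx _).2.1] at h1
        exact (tendsto_nhds_unique h1 tendsto_const_nhds)
      · intro z
        have h1 := hxy.const_mul (e * z)
        simp only [(hx _).2.2] at h1
        exact h1.unique (T2.const 0))
  have hcen : ∀ w ∈ unitary M, w * y * star w = y := by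
    intro w hw
    have hw1 := (Unitary.mem_iff.1 hw).1
    have hw2 := (Unitary.mem_iff.1 hw).2
    apply hmin
    · refine ⟨?_, ?_, ?_⟩
      · have hn : ‖w‖ ≤ 1 := CStarRing.norm_of_mem_unitary hw |>.le
        have hn' : ‖star w‖ ≤ 1 := by rwa [norm_star]
        calc ‖w * y * star w‖ ≤ ‖w‖ * ‖y‖ * ‖star w‖ :=
              (norm_mul_le _ _).trans (mul_le_mul_of_nonneg_right (norm_mul_le _ _) (norm_nonneg _))
          _ ≤ 1 * 1 * 1 := by gcongr; exact hy.1
          _ = 1 := by norm_num
      · rw [tr_comm, ← mul_assoc, hw1, one_mul, hy.2.1]
      · intro x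
        have : e * x * (w * y * star w) = (e * (x * w) * y) * star w := by noncomm_ring
        rw [this, hy.2.2, zero_mul]
    · rw [mul_assoc, n2_isometry_mul hw1, n2_mul_coisometry (w := star w) (by rw [star_star]; exact hw1)]
  obtain ⟨c, hc⟩ := FactorII.center y (central_of_unitary hcen)
  have h1 := hy.2.1
  rw [hc, map_smul, tr_one, smul_eq_mul, mul_one, hf.tr_eq] at h1
  have h2 := hy.2.2 1
  rw [hc, mul_one, mul_smul_comm, mul_one] at h2
  rcases smul_eq_zero.1 h2 with h3 | h3
  · rw [h3] at h1
    have := hf.tau_pos hf0
    have h4 : (tau f : ℂ) = 0 := h1.symm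
    exact this.ne' (by exact_mod_cast h4)
  · exact he0 h3

/-- there is a nonzero partial isometry from below `e` to below `f` -/
theorem exists_pi {e f : M} (he : IsProj e) (hf : IsProj f) (he0 : e ≠ 0) (hf0 : f ≠ 0) :
    ∃ v : M, v ≠ 0 ∧ v * star v * v = v ∧ v * e = v ∧ f * v = v := by
  obtain ⟨x, hx⟩ := exists_mul_ne hf he hf0 he0
  obtain ⟨v, -, h1, h2, -, h4, h5, -, -⟩ := polar (f * x * e)
  refine ⟨v, ?_, h1, ?_, ?_⟩
  · rintro rfl
    apply hx
    rw [← h2]; simp
  · have := h5 (1 - e) (by rw [mul_sub, mul_one, mul_assoc (f * x) e e, he.mul, sub_self])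
    rw [mul_sub, mul_one] at this
    exact (sub_eq_zero.1 this).symm
  · have := h4 (1 - f) (by rw [sub_mul, one_mul, ← mul_assoc, ← mul_assoc, hf.mul, sub_self])
    rw [sub_mul, one_mul] at this
    exact (sub_eq_zero.1 this).symm

/-- **Comparison of projections.** -/
theorem compare {e f : M} (he : IsProj e) (hf : IsProj f) (h : tau e ≤ tau f) :
    ∃ v : M, star v * v = e ∧ f * v = v ∧ v * star v * v = v := by
  let X := {v : M // v * star v * v = v ∧ v * e = v ∧ f * v = v}
  let r : X → X → Prop := fun v w => w.1 * (star v.1 * v.1) = v.1
  have hle : ∀ v w : X, r v w → (star v.1 * v.1) * (star w.1 * w.1) = star v.1 * v.1 := by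
    intro v w hvw
    have h1 : star v.1 = (star v.1 * v.1) * star w.1 := by
      have := congrArg star hvw
      rw [star_mul, star_mul, star_star] at this
      exact this.symm
    calc (star v.1 * v.1) * (star w.1 * w.1) = ((star v.1 * v.1) * star w.1) * w.1 := by noncomm_ring
      _ = star v.1 * w.1 := by rw [← h1]
      _ = ((star v.1 * v.1) * star w.1) * w.1 := by rw [← h1]
      _ = star v.1 * v.1 := by
          have h2 : w.1 * (star v.1 * v.1) = v.1 := hvw
          have h3 : star v.1 * w.1 = star v.1 * v.1 := by
            have h4 : star w.1 * w.1 * star w.1 = star w.1 := pi_star w.2.1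
            have h5 : star (star v.1 * w.1) = star w.1 * v.1 := by rw [star_mul, star_star]
            have h6 : star w.1 * v.1 = star v.1 * v.1 := by
              have h7 : star w.1 * v.1 = (star w.1 * w.1) * (star v.1 * v.1) := by
                rw [mul_assoc, h2]
              have h8 : star v.1 * v.1 = (star v.1 * v.1) * (star w.1 * w.1) * (star v.1 * v.1) := by
                calc star v.1 * v.1 = star (w.1 * (star v.1 * v.1)) * (w.1 * (star v.1 * v.1)) := by
                      rw [h2]
                  _ = _ := by simp only [star_mul, star_star]; noncomm_ring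
              -- `(1 - w* w) e_v = 0`
              have h9 : star ((1 - star w.1 * w.1) * (star v.1 * v.1)) *
                  ((1 - star w.1 * w.1) * (star v.1 * v.1)) = 0 := by
                have hp := (pi_src w.2.1).compl
                have hq := pi_src v.2.1
                rw [star_mul, hp.star, hq.star]
                calc star v.1 * v.1 * (1 - star w.1 * w.1) * ((1 - star w.1 * w.1) * (star v.1 * v.1))
                    = star v.1 * v.1 * ((1 - star w.1 * w.1) * (1 - star w.1 * w.1)) * (star v.1 * v.1) := by
                      noncomm_ring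
                  _ = (star v.1 * v.1) * (star v.1 * v.1) -
                      (star v.1 * v.1) * (star w.1 * w.1) * (star v.1 * v.1) := by
                      rw [hp.mul]; noncomm_ring
                  _ = 0 := by rw [← h8, hq.mul, sub_self]
              have h10 := (CStarRing.star_mul_self_eq_zero_iff _).1 h9
              rw [sub_mul, one_mul] at h10
              rw [h7]; exact (sub_eq_zero.1 h10).symm
            rw [h6] at h5
            have := congrArg star h5
            rw [star_star, star_mul, star_star] at this
            exact this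
          rw [← h1, h3]
  have hrefl : ∀ v, r v v := fun v => by
    show v.1 * (star v.1 * v.1) = v.1
    rw [← mul_assoc]; exact v.2.1
  have htrans : ∀ v w z, r v w → r w z → r v z := by
    intro v w z hvw hwz
    show z.1 * (star v.1 * v.1) = v.1
    have h1 := hle v w hvw
    have h2 : (star w.1 * w.1) * (star v.1 * v.1) = star v.1 * v.1 :=
      (pi_src v.2.1).mul_swap (pi_src w.2.1) h1
    have hvw' : w.1 * (star v.1 * v.1) = v.1 := hvw
    have hwz' : z.1 * (star w.1 * w.1) = w.1 := hwz
    calc z.1 * (star v.1 * v.1) = z.1 * (star w.1 * w.1) * (star v.1 * v.1) := by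
          rw [mul_assoc, h2]
      _ = v.1 := by rw [hwz', hvw']
  obtain ⟨v, -, hv⟩ := exhaustion r hrefl htrans (fun v => tau (star v.1 * v.1))
    (fun v w hvw => tau_le_of_le (pi_src v.2.1) (pi_src w.2.1) (hle v w hvw)) 1
    (fun v => (pi_src v.2.1).tau_le_one)
    (by
      intro s hs
      have hst : ∀ l k, l ≤ k → r (s l) (s k) := by
        intro l k hlk
        induction k, hlk using Nat.le_induction with
        | base => exact hrefl _
        | succ k hk ih => exact htrans _ _ _ ih (hs k)
      obtain ⟨v, hv1, hv⟩ := exists_limit_of_sq (x := fun k => (s k).1) (C := 1) (B := 1)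
        (fun k => pi_norm_le (s k).2.1) (fun k => tau (star (s k).1 * (s k).1))
        (fun k => (pi_src (s k).2.1).tau_le_one) (fun l k hlk => by
          have h1 : (s k).1 * (star (s l).1 * (s l).1) = (s l).1 := hst l k hlk
          have hp := pi_src (s l).2.1
          have hq := pi_src (s k).2.1
          have h2 := hle _ _ (hst l k hlk)
          have h3 : (s k).1 - (s l).1 = (s k).1 * (1 - star (s l).1 * (s l).1) := by
            rw [mul_sub, mul_one, h1]
          have h4 : star ((s k).1 - (s l).1) * ((s k).1 - (s l).1) =
              star (s k).1 * (s k).1 - star (s l).1 * (s l).1 := by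
            rw [h3, star_mul, hp.compl.star]
            have h5 := hp.mul_swap hq h2
            calc (1 - star (s l).1 * (s l).1) * star (s k).1 * ((s k).1 * (1 - star (s l).1 * (s l).1))
                = star (s k).1 * (s k).1 - (star (s l).1 * (s l).1) * (star (s k).1 * (s k).1)
                  - (star (s k).1 * (s k).1) * (star (s l).1 * (s l).1)
                  + (star (s l).1 * (s l).1) * (star (s k).1 * (s k).1) * (star (s l).1 * (s l).1) := by
                    noncomm_ring
              _ = _ := by rw [h2, h5, hp.mul]; abel
          rw [n2_sq, h4, map_sub, Complex.sub_re]; rfl)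
      have hnb : ∀ k, ‖(s k).1‖ ≤ 1 := fun k => pi_norm_le (s k).2.1
      have hvs := hv.star
      have hnbs : ∀ k, ‖star (s k).1‖ ≤ 1 := fun k => by rw [norm_star]; exact hnb k
      have hmem : v * star v * v = v ∧ v * e = v ∧ f * v = v := by
        refine ⟨?_, ?_, ?_⟩
        · have h1 := T2.mul (C := 1) (fun k => by
            refine (norm_mul_le _ _).trans ?_
            have := hnb k; have := hnbs k
            nlinarith [norm_nonneg (s k).1, norm_nonneg (star (s k).1)]) (T2.mul hnb hv hvs) hv
          simp only [(s _).2.1] at h1
          exact h1.unique hv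
        · have h1 := hv.mul_const e
          simp only [(s _).2.2.1] at h1
          exact h1.unique hv
        · have h1 := hv.const_mul f
          simp only [(s _).2.2.2] at h1
          exact h1.unique hv
      refine ⟨⟨v, hmem⟩, fun l => ?_⟩
      show v * (star (s l).1 * (s l).1) = (s l).1
      have h1 := hv.mul_const (star (s l).1 * (s l).1)
      have h2 : T2 atTop (fun k => (s k).1 * (star (s l).1 * (s l).1)) (s l).1 := by
        refine (T2.const (s l).1).congr' ?_
        filter_upwards [eventually_ge_atTop l] with k hk
        exact (hst l k hk).symm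
      exact h1.unique h2)
    ⟨0, by simp, by simp, by simp⟩
  obtain ⟨v, hv1, hv2, hv3⟩ := v
  simp only at hv
  have hp := pi_src hv1
  have hq := pi_rng hv1
  have hpe : (star v * v) * e = star v * v := by rw [mul_assoc, hv2]
  have hqf : f * (v * star v) = v * star v := by rw [← mul_assoc, hv3]
  have hqf' : (v * star v) * f = v * star v := hq.mul_swap' hf hqf
  refine ⟨v, ?_, hv3, hv1⟩
  by_contra hne
  have hlt : tau (star v * v) < tau e := lt_of_le_of_ne (tau_le_of_le hp he hpe)
    (fun h0 => hne (eq_of_le_of_tau hp he hpe h0))
  have h1 : e - star v * v ≠ 0 := fun h0 => by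
    have := congrArg tau h0; rw [tau_sub, tau_zero] at this; linarith
  have h2 : f - v * star v ≠ 0 := fun h0 => by
    have := congrArg tau h0; rw [tau_sub, tau_zero, ← pi_tau] at this; linarith
  obtain ⟨w, hw0, hw1, hw2, hw3⟩ := exists_pi (hp.sub he hpe) (hq.sub hf hqf') h1 h2
  have e1 : w * star v = 0 := by
    have : (e - star v * v) * star v = 0 := by
      rw [sub_mul, pi_star hv1]
      have : e * star v = star v := by
        have := congrArg star hv2
        rwa [star_mul, he.star] at this
      rw [this, sub_self]
    rw [← hw2, mul_assoc, this, mul_zero]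
  have e2 : star v * w = 0 := by
    have : star v * (f - v * star v) = 0 := by
      rw [mul_sub, ← mul_assoc, pi_star hv1]
      have : star v * f = star v := by
        have := congrArg star hv3
        rwa [star_mul, hf.star] at this
      rw [this, sub_self]
    rw [← hw3, ← mul_assoc, this, zero_mul]
  have e1' : v * star w = 0 := by
    have := congrArg star e1
    rwa [star_mul, star_star, star_zero] at this
  have e2' : star w * v = 0 := by
    have := congrArg star e2
    rwa [star_mul, star_star, star_zero] at this
  have he2 : w * e = w := by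
    have h3 : (e - star v * v) * e = e - star v * v := by rw [sub_mul, he.mul, hpe]
    calc w * e = w * (e - star v * v) * e := by rw [hw2]
      _ = w := by rw [mul_assoc, h3, hw2]
  have hf2 : f * w = w := by
    have h3 : f * (f - v * star v) = f - v * star v := by rw [mul_sub, hf.mul, hqf]
    calc f * w = f * ((f - v * star v) * w) := by rw [hw3]
      _ = w := by rw [← mul_assoc, h3, hw3]
  have hmem : (v + w) * star (v + w) * (v + w) = v + w ∧ (v + w) * e = v + w ∧ f * (v + w) = v + w := by
    refine ⟨?_, by rw [add_mul, hv2, he2], by rw [mul_add, hv3, hf2]⟩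
    calc (v + w) * star (v + w) * (v + w)
        = v * star v * v + w * star w * w + v * (star v * w) + v * star w * (v + w)
          + w * star v * (v + w) + w * (star w * v) := by
            rw [star_add]; noncomm_ring
      _ = v + w := by rw [hv1, hw1, e2, e1', e1, e2']; simp
  have h3 := hv ⟨v + w, hmem⟩ (by
    show (v + w) * (star v * v) = v
    rw [add_mul, ← mul_assoc, ← mul_assoc, hv1, e1]; simp)
  have h4 : star (v + w) * (v + w) = star v * v + star w * w := by
    calc star (v + w) * (v + w) = star v * v + star w * w + star v * w + star w * v := by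
          rw [star_add]; noncomm_ring
      _ = _ := by rw [e2, e2']; simp
  have h5 : tau (star (v + w) * (v + w)) = tau (star v * v) := h3
  rw [h4, tau_add] at h5
  have h6 : 0 < tau (star w * w) := (pi_src hw1).tau_pos (fun h0 => hw0
    ((CStarRing.star_mul_self_eq_zero_iff _).1 h0))
  linarith

end

end SCO
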