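import Pool.Agent.Work.MP_52dd0f_an.Basic

/-!
# Functional calculus and the 2-norm; supports and polar decomposition
-/

set_option linter.unusedSectionVars false

namespace SCO

open Filter Topology
open scoped ComplexOrder ComplexConjugate

universe u v

section TrC

variable {M : Type u} [CStarAlgebra M] [TrC M]

instance instNontrivialOfTrC : Nontrivial M := by
  refine ⟨⟨1, 0, fun h => ?_⟩⟩
  have := tr_one (M := M)
  rw [h, map_zero] at this
  exact zero_ne_one this

theorem tr_cfc_nonneg {a : M} {f : ℝ → ℝ} (h0 : ∀ t ∈ spectrum ℝ a, 0 ≤ f t) :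
    0 ≤ (tr (cfc f a)).re := by
  let _ := CStarAlgebra.spectralOrder M
  have _ := CStarAlgebra.spectralOrderedRing M
  have h : 0 ≤ cfc f a := cfc_nonneg h0
  exact (Complex.nonneg_iff.1 (tr_nonneg_of_exists (CStarAlgebra.nonneg_iff_eq_star_mul_self.1 h))).1

theorem tr_cfc_mono {a : M} {f g : ℝ → ℝ}
    (hf : ContinuousOn f (spectrum ℝ a)) (hg : ContinuousOn g (spectrum ℝ a))
    (h0 : ∀ t ∈ spectrum ℝ a, f t ≤ g t) :
    (tr (cfc f a)).re ≤ (tr (cfc g a)).re := by
  have h := tr_cfc_nonneg (a := a) (f := fun t => g t - f t) (fun t ht => sub_nonneg.2 (h0 t ht))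
  rw [cfc_sub g f a hg hf, map_sub, Complex.sub_re] at h
  linarith

theorem cfc_star_real (f : ℝ → ℝ) (a : M) : star (cfc f a) = cfc f a :=
  (cfc_predicate f a : IsSelfAdjoint (cfc f a))

theorem isSelfAdjoint_sq (x : M) : IsSelfAdjoint (star x * x) := IsSelfAdjoint.star_mul_self x

theorem spectrum_sq_nonneg (x : M) {t : ℝ} (ht : t ∈ spectrum ℝ (star x * x)) : 0 ≤ t := by
  let _ := CStarAlgebra.spectralOrder M
  have _ := CStarAlgebra.spectralOrderedRing M
  exact spectrum_nonneg_of_nonneg (star_mul_self_nonneg x) ht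

/-- `(x f(a))^* (x g(a)) = f(a) a g(a)` for `a = x^* x` -/
theorem star_mul_cfc_mul (x : M) {f g : ℝ → ℝ} (hf : ContinuousOn f (spectrum ℝ (star x * x)))
    (hg : ContinuousOn g (spectrum ℝ (star x * x))) :
    star (x * cfc f (star x * x)) * (x * cfc g (star x * x)) =
      cfc (fun t => f t * t * g t) (star x * x) := by
  have hid : ContinuousOn (fun t : ℝ => t) (spectrum ℝ (star x * x)) := continuousOn_id
  rw [cfc_mul (fun t => f t * t) g _ (hf.mul hid) hg, cfc_mul f (fun t => t) _ hf hid,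
    cfc_id' ℝ (star x * x), star_mul, cfc_star_real]
  noncomm_ring

theorem n2_mul_cfc_sq (x : M) {f : ℝ → ℝ} (hf : ContinuousOn f (spectrum ℝ (star x * x))) :
    n2 (x * cfc f (star x * x)) ^ 2 = (tr (cfc (fun t => f t * t * f t) (star x * x))).re := by
  rw [n2_sq, star_mul_cfc_mul x hf hf]

theorem n2_cfc_sq {a : M} {f : ℝ → ℝ} (hf : ContinuousOn f (spectrum ℝ a)) :
    n2 (cfc f a) ^ 2 = (tr (cfc (fun t => f t * f t) a)).re := by
  rw [n2_sq, cfc_star_real, ← cfc_mul f f a hf hf]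

/-- The unit ball is closed: the norm is lower semicontinuous for 2-norm convergence. -/
theorem norm_le_of_T2 {ι : Type*} {l : Filter ι} [l.NeBot] {x : ι → M} {y : M} {C : ℝ}
    (hC : ∀ k, ‖x k‖ ≤ C) (h : T2 l x y) : ‖y‖ ≤ C := by
  have hC0 : 0 ≤ C := by
    obtain ⟨k⟩ : Nonempty ι := by
      by_contra hne
      rw [not_nonempty_iff] at hne
      exact NeBot.ne ‹l.NeBot› (Filter.filter_eq_bot_of_isEmpty l)
    exact (norm_nonneg _).trans (hC k)
  have key : ∀ z : M, n2 (y * z) ≤ C * n2 z := fun z => by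
    have h1 := (h.mul_const z).n2
    refine le_of_tendsto h1 (Eventually.of_forall fun k => ?_)
    exact (n2_mul_le_left _ _).trans (mul_le_mul_of_nonneg_right (hC k) (n2_nonneg _))
  by_contra hlt
  push Not at hlt
  set a : M := star y * y with ha
  have hna : ‖a‖ = ‖y‖ ^ 2 := by rw [ha, CStarRing.norm_star_mul_self, sq]
  set c : ℝ := (C ^ 2 + ‖y‖ ^ 2) / 2 with hc
  have hcC : C ^ 2 < c := by rw [hc]; nlinarith
  have hcy : c < ‖a‖ := by rw [hc, hna]; nlinarith
  let f : ℝ → ℝ := fun t => max 0 (t - c)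
  have hfc : Continuous f := by fun_prop
  set b : M := cfc f a with hb
  have h1 : n2 (y * b) ^ 2 = (tr (cfc (fun t => f t * t * f t) a)).re :=
    n2_mul_cfc_sq y hfc.continuousOn
  have h2 : n2 b ^ 2 = (tr (cfc (fun t => f t * f t) a)).re := n2_cfc_sq hfc.continuousOn
  have h3 : c * n2 b ^ 2 ≤ n2 (y * b) ^ 2 := by
    have h4 : (tr (cfc (fun t => c * (f t * f t)) a)).re ≤ (tr (cfc (fun t => f t * t * f t) a)).re := by
      apply tr_cfc_mono (by fun_prop) (by fun_prop)
      intro t _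
      show c * (max 0 (t - c) * max 0 (t - c)) ≤ max 0 (t - c) * t * max 0 (t - c)
      rcases le_total t c with h | h
      · rw [max_eq_left (by linarith)]; simp
      · rw [max_eq_right (by linarith)]
        nlinarith [sq_nonneg (t - c), mul_nonneg (sub_nonneg.2 h) (sq_nonneg (t - c))]
    have h5 : cfc (fun t => c * (f t * f t)) a = c • cfc (fun t => f t * f t) a :=
      cfc_const_mul c (fun t => f t * f t) a (by fun_prop)
    rw [h5] at h4
    have h6 : (tr (c • cfc (fun t => f t * f t) a) : ℂ) = (c : ℂ) * tr (cfc (fun t => f t * f t) a) := by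
      have : (c • cfc (fun t => f t * f t) a : M) = (c : ℂ) • cfc (fun t => f t * f t) a := rfl
      rw [this, map_smul, smul_eq_mul]
    rw [h6, Complex.re_ofReal_mul, ← h2, ← h1] at h4
    exact h4
  have h4 : n2 (y * b) ^ 2 ≤ C ^ 2 * n2 b ^ 2 := by
    have := key b
    calc n2 (y * b) ^ 2 ≤ (C * n2 b) ^ 2 := by
          apply pow_le_pow_left₀ (n2_nonneg _) this
      _ = _ := by ring
  have h5 : n2 b ^ 2 ≤ 0 := by nlinarith [sq_nonneg (n2 b)]
  have h6 : b = 0 := n2_eq_zero.1 (by nlinarith [n2_nonneg b, sq_nonneg (n2 b)])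
  -- contradiction with the spectrum
  let _ := CStarAlgebra.spectralOrder M
  have _ := CStarAlgebra.spectralOrderedRing M
  have h7 : ‖a‖ ∈ spectrum ℝ a := CStarAlgebra.norm_mem_spectrum_of_nonneg (star_mul_self_nonneg y)
  have h8 : f ‖a‖ ∈ spectrum ℝ b := by
    rw [hb, cfc_map_spectrum f a (isSelfAdjoint_sq y) hfc.continuousOn]
    exact ⟨_, h7, rfl⟩
  rw [h6, spectrum.zero_eq, Set.mem_singleton_iff] at h8
  have : max 0 (‖a‖ - c) = 0 := h8
  rw [max_eq_right (by linarith)] at this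
  linarith

end TrC

/-- a tracial von Neumann algebra -/
class TVN (M : Type u) [CStarAlgebra M] extends TrC M where
  complete1 : ∀ x : ℕ → M, (∀ k, ‖x k‖ ≤ 1) →
    (∀ ε > 0, ∃ K, ∀ k ≥ K, ∀ l ≥ K, n2 (x k - x l) < ε) → ∃ y : M, T2 atTop x y

section TVN

variable {M : Type u} [CStarAlgebra M] [TVN M]

theorem exists_limit {x : ℕ → M} {C : ℝ} (hC : ∀ k, ‖x k‖ ≤ C)
    (hx : ∀ ε > 0, ∃ K, ∀ k ≥ K, ∀ l ≥ K, n2 (x k - x l) < ε) :
    ∃ y : M, ‖y‖ ≤ C ∧ T2 atTop x y := by
  have hC1 : 0 < |C| + 1 := by positivity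
  have hCl : C < |C| + 1 := by have := le_abs_self C; linarith
  obtain ⟨y, hy⟩ := TVN.complete1 (fun k => (((|C| + 1)⁻¹ : ℝ) : ℂ) • x k)
    (fun k => by
      rw [norm_smul, Complex.norm_real, Real.norm_eq_abs, abs_of_pos (by positivity)]
      have := hC k
      rw [inv_mul_le_iff₀ hC1]; linarith)
    (fun ε hε => by
      obtain ⟨K, hK⟩ := hx ε hε
      refine ⟨K, fun k hk l hl => ?_⟩
      rw [← smul_sub, n2_smul, Complex.norm_real, Real.norm_eq_abs, abs_of_pos (by positivity)]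
      have h1 := hK k hk l hl
      have h2 : (|C| + 1)⁻¹ ≤ 1 := inv_le_one_of_one_le₀ (by have := abs_nonneg C; linarith)
      have := n2_nonneg (x k - x l)
      nlinarith [inv_pos.2 hC1])
  have h2 : T2 atTop x (((|C| + 1 : ℝ) : ℂ) • y) := by
    have := hy.smul ((|C| + 1 : ℝ) : ℂ)
    have e : (fun k => ((|C| + 1 : ℝ) : ℂ) • (((|C| + 1)⁻¹ : ℝ) : ℂ) • x k) = x := by
      funext k
      rw [smul_smul, ← Complex.ofReal_mul, mul_inv_cancel₀ hC1.ne', Complex.ofReal_one, one_smul]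
    rwa [e] at this
  exact ⟨_, norm_le_of_T2 hC h2, h2⟩

/-- Cauchy criterion through a bounded real sequence: `n2 (x k - x l)^2 ≤ b k - b l` for `l ≤ k`. -/
theorem exists_limit_of_sq {x : ℕ → M} {C B : ℝ} (hC : ∀ k, ‖x k‖ ≤ C) (b : ℕ → ℝ)
    (hB : ∀ k, b k ≤ B) (h : ∀ l k, l ≤ k → n2 (x k - x l) ^ 2 ≤ b k - b l) :
    ∃ y : M, ‖y‖ ≤ C ∧ T2 atTop x y := by
  apply exists_limit hC
  have hmono : Monotone b := fun l k hlk => by
    have := h l k hlk; have := sq_nonneg (n2 (x k - x l)); linarith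
  have hb : CauchySeq b := (tendsto_atTop_ciSup hmono ⟨B, by rintro _ ⟨k, rfl⟩; exact hB k⟩).cauchySeq
  intro ε hε
  obtain ⟨K, hK⟩ := Metric.cauchySeq_iff.1 hb (ε ^ 2) (by positivity)
  refine ⟨K, fun k hk l hl => ?_⟩
  have key : ∀ k l, K ≤ l → l ≤ k → n2 (x k - x l) < ε := fun k l hl hlk => by
    have h1 := h l k hlk
    have h2 := hK k (hl.trans hlk) l hl
    rw [Real.dist_eq] at h2
    have h3 := (le_abs_self _).trans_lt h2
    exact lt_of_pow_lt_pow_left₀ 2 hε.le (h1.trans_lt h3)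
  rcases le_total l k with hlk | hlk
  · exact key k l hl hlk
  · rw [n2_sub_comm]; exact key l k hk hlk

end TVN

end SCO
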