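import Pool.Agent.Work.MP_52dd0f_an.CAlg

/-!
# The main theorems on orbits of amplifications
-/

set_option linter.unusedSectionVars false

namespace SCO

open Filter Topology
open scoped ComplexOrder ComplexConjugate

universe u v

section Bridge

variable {M : Type u} [CStarAlgebra M] {τ : M →ₗ[ℂ] ℂ}

/-- the class instance carried by a II₁ factor -/
noncomputable abbrev IsII₁Factor.toTVN (h : IsII₁Factor M τ) : TVN M where
  tr := τ
  tr_one := h.map_one
  tr_comm := h.map_mul_comm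
  tr_pos := h.nonneg
  tr_faithful := h.faithful
  complete1 x hx hc := by
    obtain ⟨y, -, hy⟩ := h.complete x hx hc
    exact ⟨y, hy⟩

theorem IsII₁Factor.toFactorII (h : IsII₁Factor M τ) : @FactorII M _ h.toTVN :=
  @FactorII.mk M _ h.toTVN h.center h.infinite

theorem isII₁Factor_tr [TVN M] [FactorII M] : IsII₁Factor M (tr : M →ₗ[ℂ] ℂ) where
  map_one := tr_one
  map_mul_comm := tr_comm
  nonneg := tr_pos
  faithful := tr_faithful
  complete _ hx hc := exists_limit hx hc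
  center := FactorII.center
  infinite := FactorII.infinite

end Bridge

section

variable {M : Type u} [CStarAlgebra M] [TVN M] [FactorII M] {𝒰 : Ultrafilter ℕ}

theorem numOrbits_one_iff (h𝒰 : (𝒰 : Filter ℕ) ≤ atTop) :
    numOrbits 𝒰 (tr : M →ₗ[ℂ] ℂ) = 1 ↔ OneOrbit M := by
  rw [numOrbits_eq_one_iff h𝒰]
  constructor
  · rintro ⟨-, h⟩ u v hu hv
    exact (seqComm_iff h𝒰).1 (h hu.toHaar hv.toHaar)
  · intro h
    obtain ⟨u, hu⟩ := exists_haarU (M := M)
    exact ⟨⟨hu.toHaar⟩, fun a b => (seqComm_iff h𝒰).2 (h _ _ a.haarU b.haarU)⟩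

theorem numOrbits_mono_of {K : Type u} [CStarAlgebra K] [TVN K] [FactorII K]
    (h𝒰 : (𝒰 : Filter ℕ) ≤ atTop)
    (hM : IsSeparable₂ (tr : M →ₗ[ℂ] ℂ)) (hK : IsSeparable₂ (tr : K →ₗ[ℂ] ℂ))
    (h : OneOrbit K → OneOrbit M) :
    numOrbits 𝒰 (tr : M →ₗ[ℂ] ℂ) ≤ numOrbits 𝒰 (tr : K →ₗ[ℂ] ℂ) := by
  rcases numOrbits_dichotomy h𝒰 hM with ⟨h1, h2⟩ | ⟨h1, h2⟩
  · rcases numOrbits_dichotomy h𝒰 hK with ⟨h3, h4⟩ | ⟨h3, h4⟩
    · rw [h2, h4]
    · rw [h2, h4]
      exact (Cardinal.one_lt_aleph0.trans Cardinal.aleph0_lt_continuum).le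
  · rcases numOrbits_dichotomy h𝒰 hK with ⟨h3, h4⟩ | ⟨h3, h4⟩
    · exact absurd (h h3) h1
    · rw [h2, h4]

theorem numOrbits_eq_of {K : Type u} [CStarAlgebra K] [TVN K] [FactorII K]
    (h𝒰 : (𝒰 : Filter ℕ) ≤ atTop)
    (hM : IsSeparable₂ (tr : M →ₗ[ℂ] ℂ)) (hK : IsSeparable₂ (tr : K →ₗ[ℂ] ℂ))
    (h : OneOrbit K ↔ OneOrbit M) :
    numOrbits 𝒰 (tr : M →ₗ[ℂ] ℂ) = numOrbits 𝒰 (tr : K →ₗ[ℂ] ℂ) :=
  le_antisymm (numOrbits_mono_of h𝒰 hM hK h.1) (numOrbits_mono_of h𝒰 hK hM h.2)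

end

section

variable {N M M' : Type u} [CStarAlgebra N] [CStarAlgebra M] [CStarAlgebra M'] {τ : N →ₗ[ℂ] ℂ}
  {σ : M →ₗ[ℂ] ℂ} {σ' : M' →ₗ[ℂ] ℂ} {𝒰 : Ultrafilter ℕ}

theorem le_atTop_of_ne_pure (h𝒰 : ∀ k : ℕ, 𝒰 ≠ pure k) : (𝒰 : Filter ℕ) ≤ atTop := by
  rw [← Nat.cofinite_eq_atTop]
  rcases 𝒰.le_cofinite_or_eq_pure with h | ⟨a, ha⟩
  · exact h
  · exact absurd ha (h𝒰 a)

/-- monotonicity -/
theorem main_mono (h𝒰 : ∀ k : ℕ, 𝒰 ≠ pure k) (hN : IsII₁Factor N τ) (hM : IsII₁Factor M σ)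
    (hM' : IsII₁Factor M' σ') (hsep : IsSeparable₂ τ) {t s : ℝ} (h : IsAmplification N τ M t)
    (h' : IsAmplification N τ M' s) (hts : t ≤ s) : numOrbits 𝒰 σ' ≤ numOrbits 𝒰 σ := by
  let _ := hN.toTVN
  have _ := hN.toFactorII
  let _ := hM.toTVN
  have _ := hM.toFactorII
  let _ := hM'.toTVN
  have _ := hM'.toFactorII
  exact numOrbits_mono_of (le_atTop_of_ne_pure h𝒰) (separable_of_amplification h' hsep)
    (separable_of_amplification h hsep) (oneOrbit_up h h' hts)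

/-- nontrivial fundamental group -/
theorem main_fundamental (h𝒰 : ∀ k : ℕ, 𝒰 ≠ pure k) (hN : IsII₁Factor N τ) (hM : IsII₁Factor M σ)
    (hsep : IsSeparable₂ τ) {r : ℝ} (hr : r ≠ 1) (hNN : IsAmplification N τ N r) {t : ℝ}
    (h : IsAmplification N τ M t) : numOrbits 𝒰 σ = numOrbits 𝒰 τ := by
  let _ := hN.toTVN
  have _ := hN.toFactorII
  let _ := hM.toTVN
  have _ := hM.toFactorII
  exact numOrbits_eq_of (le_atTop_of_ne_pure h𝒰) (separable_of_amplification h hsep) hsep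
    (oneOrbit_iff_of_fundamental hr hNN h)

end

section OneValue

theorem Rel.symm {N Y : Type u} [CStarAlgebra N] [TVN N] [CStarAlgebra Y] [TVN Y] {t : ℝ}
    (h : Rel N Y t) : Rel Y N (1 / t) := by
  have ht := h.pos
  obtain ⟨A, i1, i2, i3, φ, e, ψ, f, hφ, hψ, htr⟩ := h
  refine ⟨A, i1, i2, i3, ψ, f, φ, e, hψ, hφ, ?_⟩
  rw [htr]; field_simp

/-- existence of amplifications -/
theorem exists_amplification (N : Type u) [CStarAlgebra N] [TVN N] [FactorII N] {r : ℝ} (hr : 0 < r) :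
    ∃ (X : Type u) (_ : CStarAlgebra X) (_ : TVN X) (_ : FactorII X),
      IsAmplification N (tr : N →ₗ[ℂ] ℂ) X r ∧
      ∀ (Y : Type u) [CStarAlgebra Y] [TVN Y] (t : ℝ), Rel N Y t → Rel X Y (t / r) := by
  let _ := CStarAlgebra.spectralOrder N
  have _ := CStarAlgebra.spectralOrderedRing N
  obtain ⟨n, hn⟩ := exists_nat_gt r
  have hn0 : (0 : ℝ) < n := hr.trans hn
  have hnz : NeZero n := ⟨by rintro rfl; simp at hn0⟩
  obtain ⟨e, -, he, -, het⟩ := exists_tau_eq (noMin_empty (M := Mt n N)) (co_empty 1) IsProj.one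
    (s := r / n) (by positivity) (by rw [tau_one, div_le_one hn0]; exact hn.le)
  have he0 : e ≠ 0 := by
    rintro rfl
    rw [tau_zero] at het
    have : 0 < r / n := by positivity
    linarith
  obtain ⟨X, i1, i2, i3, φ, hφ⟩ := exists_corner he he0
  refine ⟨X, i1, i2, i3, ?_, ?_⟩
  · let E : Matrix (Fin n) (Fin n) N ≃⋆ₐ[ℂ] Mt n N := CStarMatrix.ofMatrixStarAlgEquiv
    let φ' : X →⋆ₙₐ[ℂ] Matrix (Fin n) (Fin n) N :=
      { toFun := fun a => E.symm (φ a)
        map_smul' := fun c a => by rw [map_smul, map_smul]; rfl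
        map_zero' := by rw [map_zero, map_zero]
        map_add' := fun a b => by rw [map_add, map_add]
        map_mul' := fun a b => by rw [map_mul, map_mul]
        map_star' := fun a => by rw [map_star, map_star] }
    refine ⟨n, E.symm e, φ', ?_, ?_, ?_, ?_, ?_⟩
    · rw [← map_mul, he.mul]
    · rw [← map_star, he.star]
    · have h1 : TrC.tr e = (n : ℂ)⁻¹ * ∑ i, TrC.tr (e i i) := tr_mat e
      rw [he.tr_eq, het] at h1
      have hnc : (n : ℂ) ≠ 0 := by exact_mod_cast hn0.ne'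
      have h2 : (r : ℂ) = ∑ i, TrC.tr (e i i) := by
        generalize ∑ i, TrC.tr (e i i) = S at h1 ⊢
        have h3 : S = (n : ℂ) * ((r / n : ℝ) : ℂ) := by
          rw [h1, mul_inv_cancel_left₀ hnc]
        rw [h3]
        push_cast
        field_simp
      exact h2.symm
    · intro x y hxy
      exact hφ.inj (E.symm.injective hxy)
    · ext x
      constructor
      · rintro ⟨y, rfl⟩
        show E.symm e * E.symm (φ y) * E.symm e = E.symm (φ y)
        rw [← map_mul, ← map_mul, hφ.corner]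
      · intro hx
        have hx' : E.symm e * x * E.symm e = x := hx
        obtain ⟨y, hy⟩ := hφ.surj (E x) (by
          have h3 := congrArg E hx'
          rw [map_mul, map_mul] at h3
          have : E (E.symm e) = e := E.apply_symm_apply e
          rw [this] at h3
          exact h3)
        refine ⟨y, ?_⟩
        show E.symm (φ y) = x
        rw [hy]
        exact E.symm_apply_apply x
  · intro Y _ _ t hR
    obtain ⟨A, j1, j2, j3, φ₁, e₁, ψ₁, f₁, hφ₁, hψ₁, htr⟩ := hR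
    let _ := CStarAlgebra.spectralOrder A
    have _ := CStarAlgebra.spectralOrderedRing A
    obtain ⟨φ₂, e₂, hφ₂, he₂, -⟩ := cornerMap_entry (n := n) hφ₁
    obtain ⟨ρ, g, hρ, hg, -⟩ := cornerMap_sg (N := A) (n := n)
    refine ⟨Mt n A, inferInstance, inferInstance, inferInstance, φ₂.comp φ, φ₂ e, ρ.comp ψ₁, ρ f₁,
      hφ.comp hφ₂, hψ₁.comp hρ, ?_⟩
    rw [hρ.tau_map, hφ₂.tau_map, hg, htr, he₂, het]
    field_simp

/-- reduction to one value of the parameter -/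
theorem oneOrbit_down_of_value {r : ℝ} (hr : 1 < r)
    (H : ∀ (X : Type u) [CStarAlgebra X] [TVN X] [FactorII X] (Y : Type u) [CStarAlgebra Y] [TVN Y]
      [FactorII Y], IsSeparable₂ (tr : X →ₗ[ℂ] ℂ) → IsAmplification X (tr : X →ₗ[ℂ] ℂ) Y r →
      OneOrbit Y → OneOrbit X) (j : ℕ) :
    ∀ (N Y : Type u) [CStarAlgebra N] [TVN N] [FactorII N] [CStarAlgebra Y] [TVN Y] [FactorII Y]
      (t : ℝ), IsSeparable₂ (tr : N →ₗ[ℂ] ℂ) → Rel N Y t → t ≤ r ^ j → OneOrbit Y → OneOrbit N := by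
  induction j with
  | zero =>
    intro N Y _ _ _ _ _ _ t _ hR ht hY
    obtain ⟨χ, s, hχ, -⟩ := hR.cornerMap_of_le_one (by simpa using ht)
    exact oneOrbit_of_corner hχ hY
  | succ j ih =>
    intro N Y _ _ _ _ _ _ t hsep hR ht hY
    obtain ⟨X, i1, i2, i3, hX, hXR⟩ := exists_amplification N (by linarith : 0 < r)
    apply H N X hsep hX
    refine ih X Y (t / r) (separable_of_amplification hX hsep) (hXR Y t hR) ?_ hY
    rw [pow_succ] at ht
    rw [div_le_iff₀ (by linarith)]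
    exact ht

/-- **One value suffices.** -/
theorem main_value {𝒰 : Ultrafilter ℕ} (h𝒰 : ∀ k : ℕ, 𝒰 ≠ pure k) {r : ℝ} (hr0 : 0 < r) (hr : r ≠ 1)
    (H : ∀ (X Y : Type u) [CStarAlgebra X] [CStarAlgebra Y] (τ : X →ₗ[ℂ] ℂ) (σ : Y →ₗ[ℂ] ℂ),
      IsII₁Factor X τ → IsSeparable₂ τ → IsII₁Factor Y σ → IsAmplification X τ Y r →
      numOrbits 𝒰 σ = numOrbits 𝒰 τ)
    (N M : Type u) [CStarAlgebra N] [CStarAlgebra M] (τ : N →ₗ[ℂ] ℂ) (σ : M →ₗ[ℂ] ℂ)
    (hN : IsII₁Factor N τ) (hsep : IsSeparable₂ τ) (hM : IsII₁Factor M σ) (t : ℝ)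
    (h : IsAmplification N τ M t) : numOrbits 𝒰 σ = numOrbits 𝒰 τ := by
  have hU := le_atTop_of_ne_pure h𝒰
  -- passing down for a parameter above one
  obtain ⟨r', hr', H'⟩ : ∃ r' : ℝ, 1 < r' ∧
      ∀ (X : Type u) [CStarAlgebra X] [TVN X] [FactorII X] (Y : Type u) [CStarAlgebra Y] [TVN Y]
      [FactorII Y], IsSeparable₂ (tr : X →ₗ[ℂ] ℂ) → IsAmplification X (tr : X →ₗ[ℂ] ℂ) Y r' →
      OneOrbit Y → OneOrbit X := by
    rcases lt_or_gt_of_ne hr with h1 | h1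
    · refine ⟨1 / r, (one_lt_div hr0).2 h1, ?_⟩
      intro X _ _ _ Y _ _ _ hX hXY hY
      have hYs := separable_of_amplification hXY hX
      obtain ⟨X', i1, i2, i3, hX', hR⟩ := exists_amplification Y hr0
      have h2 := H Y X' tr tr isII₁Factor_tr hYs isII₁Factor_tr hX'
      have h3 : OneOrbit X' := by
        rw [← numOrbits_one_iff hU, h2, numOrbits_one_iff hU]
        exact hY
      have h4 : Rel Y X r := by
        have := hXY.rel.symm
        rwa [one_div_one_div] at this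
      have h5 := hR X r h4
      rw [div_self hr0.ne'] at h5
      obtain ⟨χ, s, hχ, -⟩ := h5.cornerMap_of_one_le le_rfl
      exact oneOrbit_of_corner hχ h3
    · refine ⟨r, h1, ?_⟩
      intro X _ _ _ Y _ _ _ hX hXY hY
      have h2 := H X Y tr tr isII₁Factor_tr hX isII₁Factor_tr hXY
      rw [← numOrbits_one_iff hU, ← h2, numOrbits_one_iff hU]
      exact hY
  let _ := hN.toTVN
  have _ := hN.toFactorII
  let _ := hM.toTVN
  have _ := hM.toFactorII
  have hMs := separable_of_amplification h hsep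
  have key : ∀ t : ℝ, ∃ j : ℕ, t ≤ r' ^ j := fun t => (pow_unbounded_of_one_lt t hr').imp fun _ h => h.le
  refine numOrbits_eq_of hU hMs hsep ⟨fun h1 => ?_, fun h1 => ?_⟩
  · obtain ⟨j, hj⟩ := key (1 / t)
    exact oneOrbit_down_of_value hr' H' j M N (1 / t) hMs h.rel.symm hj h1
  · obtain ⟨j, hj⟩ := key t
    exact oneOrbit_down_of_value hr' H' j N M t hsep h.rel hj h1

end OneValue

end SCO
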