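import Pool.Agent.Work.MP_52dd0f_an.Uniform

/-!
# Matrix algebras over a II₁ factor
-/

set_option linter.unusedSectionVars false

namespace SCO

open Filter Topology
open scoped ComplexOrder ComplexConjugate

universe u v

section

variable {N : Type u} [CStarAlgebra N] [PartialOrder N] [StarOrderedRing N]

/-- matrices as a C*-algebra -/
abbrev Mt (n : ℕ) (N : Type u) : Type u := CStarMatrix (Fin n) (Fin n) N

variable {n : ℕ}

/-- normalized trace on matrices -/
noncomputable def trM [TrC N] (n : ℕ) : Mt n N →ₗ[ℂ] ℂ where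
  toFun x := (n : ℂ)⁻¹ * ∑ i, tr (x i i)
  map_add' x y := by
    simp only [CStarMatrix.add_apply, map_add, Finset.sum_add_distrib, mul_add]
  map_smul' c x := by
    simp only [CStarMatrix.smul_apply, map_smul, smul_eq_mul, RingHom.id_apply, ← Finset.mul_sum]
    ring

theorem trM_apply [TrC N] (x : Mt n N) : trM n x = (n : ℂ)⁻¹ * ∑ i, tr (x i i) := rfl

theorem star_mul_self_diag (x : Mt n N) (i : Fin n) :
    (star x * x) i i = ∑ j, star (x j i) * x j i := by
  rw [CStarMatrix.mul_apply]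
  exact Finset.sum_congr rfl fun j _ => rfl

theorem trM_sq [TrC N] (x : Mt n N) : trM n (star x * x) =
    (((n : ℝ)⁻¹ * ∑ i, ∑ j, n2 (x j i) ^ 2 : ℝ) : ℂ) := by
  rw [trM_apply]
  push_cast
  congr 1
  refine Finset.sum_congr rfl fun i _ => ?_
  rw [star_mul_self_diag, map_sum]
  refine Finset.sum_congr rfl fun j _ => ?_
  rw [← n2_sq' (x j i)]; push_cast; rfl

noncomputable instance instTrCMat [TrC N] [NeZero n] : TrC (Mt n N) where
  tr := trM n
  tr_one := by
    have hn : (n : ℂ) ≠ 0 := by exact_mod_cast NeZero.ne n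
    simp [trM_apply, tr_one, hn]
  tr_comm x y := by
    rw [trM_apply, trM_apply]
    congr 1
    simp only [CStarMatrix.mul_apply, map_sum]
    rw [Finset.sum_comm]
    exact Finset.sum_congr rfl fun i _ => Finset.sum_congr rfl fun j _ => tr_comm _ _
  tr_pos x := by
    rw [trM_sq, Complex.zero_le_real]
    positivity
  tr_faithful x h := by
    rw [trM_sq] at h
    have hn : (0 : ℝ) < (n : ℝ)⁻¹ := by
      have : 0 < n := Nat.pos_of_ne_zero (NeZero.ne n)
      positivity
    have h1 : (n : ℝ)⁻¹ * ∑ i, ∑ j, n2 (x j i) ^ 2 = 0 := by exact_mod_cast h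
    have h2 : ∑ i, ∑ j, n2 (x j i) ^ 2 = 0 := by
      rcases mul_eq_zero.1 h1 with h3 | h3
      · exact absurd h3 hn.ne'
      · exact h3
    ext i j
    have h3 := (Finset.sum_eq_zero_iff_of_nonneg (fun i _ => Finset.sum_nonneg fun j _ =>
      sq_nonneg (n2 (x j i)))).1 h2 j (Finset.mem_univ _)
    have h4 := (Finset.sum_eq_zero_iff_of_nonneg (fun i _ => sq_nonneg (n2 (x i j)))).1 h3 i
      (Finset.mem_univ _)
    exact n2_eq_zero.1 (pow_eq_zero_iff (two_ne_zero) |>.1 h4)

theorem tr_mat [TrC N] [NeZero n] (x : Mt n N) : tr x = (n : ℂ)⁻¹ * ∑ i, tr (x i i) := rfl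

theorem n2_mat_sq [TrC N] [NeZero n] (x : Mt n N) :
    n2 x ^ 2 = (n : ℝ)⁻¹ * ∑ i, ∑ j, n2 (x j i) ^ 2 := by
  rw [n2_sq]
  have : tr (star x * x) = trM n (star x * x) := rfl
  rw [this, trM_sq, Complex.ofReal_re]

theorem n2_entry_le [TrC N] [NeZero n] (x : Mt n N) (i j : Fin n) :
    n2 (x i j) ^ 2 ≤ n * n2 x ^ 2 := by
  have hn : (0 : ℝ) < n := by exact_mod_cast Nat.pos_of_ne_zero (NeZero.ne n)
  rw [n2_mat_sq, ← mul_assoc, mul_inv_cancel₀ hn.ne', one_mul]
  calc n2 (x i j) ^ 2 ≤ ∑ i', n2 (x i' j) ^ 2 :=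
        Finset.single_le_sum (f := fun i' => n2 (x i' j) ^ 2) (fun _ _ => sq_nonneg _)
          (Finset.mem_univ i)
    _ ≤ _ := Finset.single_le_sum (f := fun j' => ∑ i', n2 (x i' j') ^ 2)
          (fun _ _ => Finset.sum_nonneg fun _ _ => sq_nonneg _) (Finset.mem_univ j)

theorem T2_mat [TVN N] [NeZero n] {ι : Type*} {l : Filter ι} {x : ι → Mt n N} {y : Mt n N}
    (h : ∀ i j, T2 l (fun k => x k i j) (y i j)) : T2 l x y := by
  have h1 : Tendsto (fun k => (n : ℝ)⁻¹ * ∑ i, ∑ j, n2 (x k j i - y j i) ^ 2) l (𝓝 0) := by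
    have h2 : Tendsto (fun k => (n : ℝ)⁻¹ * ∑ i, ∑ j, n2 (x k j i - y j i) ^ 2) l
        (𝓝 ((n : ℝ)⁻¹ * ∑ _i : Fin n, ∑ _j : Fin n, (0 : ℝ) ^ 2)) := by
      refine Tendsto.const_mul _ (tendsto_finsetSum _ fun i _ => tendsto_finsetSum _ fun j _ => ?_)
      exact Tendsto.pow (h j i) 2
    simpa using h2
  have h3 : Tendsto (fun k => Real.sqrt ((n : ℝ)⁻¹ * ∑ i, ∑ j, n2 (x k j i - y j i) ^ 2)) l (𝓝 0) := by
    have := h1.sqrt
    rwa [Real.sqrt_zero] at this
  refine squeeze_zero (fun _ => n2_nonneg _) (fun k => ?_) h3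
  apply Real.le_sqrt_of_sq_le
  rw [n2_mat_sq]
  exact le_rfl

noncomputable instance instTVNMat [TVN N] [NeZero n] : TVN (Mt n N) where
  complete1 x hx hc := by
    have hent : ∀ i j, ∃ y : N, T2 atTop (fun k => x k i j) y := by
      intro i j
      obtain ⟨y, -, hy⟩ := exists_limit (x := fun k => x k i j) (C := 1)
        (fun k => CStarMatrix.norm_entry_le_norm.trans (hx k)) (fun ε hε => by
          have hn : (0 : ℝ) < n := by exact_mod_cast Nat.pos_of_ne_zero (NeZero.ne n)
          obtain ⟨K, hK⟩ := hc (ε / (n + 1)) (by positivity)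
          refine ⟨K, fun k hk l hl => ?_⟩
          have h1 := hK k hk l hl
          have h2 := n2_entry_le (x k - x l) i j
          rw [CStarMatrix.sub_apply] at h2
          have h3 : n2 (x k - x l) ^ 2 < (ε / (n + 1)) ^ 2 := pow_lt_pow_left₀ h1 (n2_nonneg _) two_ne_zero
          have h4 : n * (ε / (n + 1)) ^ 2 ≤ ε ^ 2 := by
            rw [div_pow, mul_div_assoc', div_le_iff₀ (by positivity)]
            nlinarith [sq_nonneg ε, mul_nonneg hn.le (sq_nonneg ε), mul_nonneg (sq_nonneg (n : ℝ)) (sq_nonneg ε)]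
          have h5 : n2 (x k i j - x l i j) ^ 2 < ε ^ 2 := by nlinarith
          exact lt_of_pow_lt_pow_left₀ 2 hε.le h5)
      exact ⟨y, hy⟩
    choose y hy using hent
    exact ⟨CStarMatrix.ofMatrix (Matrix.of y), T2_mat (fun i j => hy i j)⟩

/-- matrix units -/
noncomputable def sg (i j : Fin n) (a : N) : Mt n N := CStarMatrix.ofMatrix (Matrix.single i j a)

theorem sg_apply (i j : Fin n) (a : N) (k l : Fin n) :
    sg i j a k l = if i = k ∧ j = l then a else 0 := by
  simp [sg, CStarMatrix.ofMatrix_apply, Matrix.single_apply]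

theorem mul_sg (x : Mt n N) (i j : Fin n) (a : N) (k l : Fin n) :
    (x * sg i j a) k l = if j = l then x k i * a else 0 := by
  rw [CStarMatrix.mul_apply, Finset.sum_eq_single i]
  · rw [sg_apply]; by_cases h : j = l <;> simp [h]
  · intro b _ hb
    rw [sg_apply, if_neg (fun h => hb h.1.symm), mul_zero]
  · simp

theorem sg_mul (x : Mt n N) (i j : Fin n) (a : N) (k l : Fin n) :
    (sg i j a * x) k l = if i = k then a * x j l else 0 := by
  rw [CStarMatrix.mul_apply, Finset.sum_eq_single j]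
  · rw [sg_apply]; by_cases h : i = k <;> simp [h]
  · intro b _ hb
    rw [sg_apply, if_neg (fun h => hb h.2.symm), zero_mul]
  · simp

instance instFactorMat [TVN N] [FactorII N] [NeZero n] : FactorII (Mt n N) where
  center z hz := by
    have i₀ : Fin n := 0
    -- off-diagonal entries vanish, diagonal entries agree and are central
    have h1 : ∀ (i j : Fin n) (a : N) (k l : Fin n),
        (if j = l then z k i * a else 0) = if i = k then a * z j l else 0 := by
      intro i j a k l
      rw [← mul_sg, ← sg_mul, hz]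
    have hoff : ∀ k i : Fin n, k ≠ i → z k i = 0 := by
      intro k i hki
      have := h1 i i 1 k i
      rw [if_pos rfl, if_neg (fun h => hki h.symm), mul_one] at this
      exact this
    have hdiag : ∀ (i j : Fin n) (a : N), z i i * a = a * z j j := by
      intro i j a
      have := h1 i j a i j
      rwa [if_pos rfl, if_pos rfl] at this
    obtain ⟨c, hc⟩ := FactorII.center (z 0 0) (fun x => hdiag 0 0 x)
    refine ⟨c, ?_⟩
    ext i j
    by_cases hij : i = j
    · subst hij
      have := hdiag i 0 1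
      rw [mul_one, one_mul] at this
      rw [this, hc, CStarMatrix.smul_apply, CStarMatrix.one_apply_eq]
    · rw [hoff i j hij, CStarMatrix.smul_apply, CStarMatrix.one_apply_ne hij, smul_zero]
  infinite hfin := by
    apply FactorII.infinite (M := N)
    let f : N →ₗ[ℂ] Mt n N :=
      { toFun := fun a => sg 0 0 a
        map_add' := fun a b => by
          ext i j; simp only [sg_apply, CStarMatrix.add_apply]; split_ifs <;> simp
        map_smul' := fun c a => by
          ext i j
          simp only [sg_apply, CStarMatrix.smul_apply, RingHom.id_apply]; split_ifs <;> simp }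
    have hf : Function.Injective f := by
      intro a b hab
      have h1 : sg (n := n) 0 0 a 0 0 = sg (n := n) 0 0 b 0 0 := congrFun (congrFun hab 0) 0
      simpa [sg_apply] using h1
    exact FiniteDimensional.of_injective f hf

/-- matrices over a separable algebra form a separable algebra -/
theorem separable_mat [TVN N] [NeZero n] (h : IsSeparable₂ (tr : N →ₗ[ℂ] ℂ)) :
    IsSeparable₂ (tr : Mt n N →ₗ[ℂ] ℂ) := by
  obtain ⟨s, hs, hd⟩ := h
  have : Countable s := hs.to_subtype
  refine ⟨Set.range fun f : Fin n → Fin n → s => (CStarMatrix.ofMatrix (Matrix.of fun i j => (f i j : N))),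
    Set.countable_range _, fun x ε hε => ?_⟩
  have hn : (0 : ℝ) < n := by exact_mod_cast Nat.pos_of_ne_zero (NeZero.ne n)
  choose f hf1 hf2 using fun i j => hd (x i j) (ε / (n + 1)) (by positivity)
  refine ⟨_, ⟨fun i j => ⟨f i j, hf1 i j⟩, rfl⟩, ?_⟩
  show n2 (x - CStarMatrix.ofMatrix (Matrix.of f)) < ε
  have h1 : n2 (x - CStarMatrix.ofMatrix (Matrix.of f)) ^ 2 < ε ^ 2 := by
    rw [n2_mat_sq]
    have h2 : ∀ i j, n2 ((x - CStarMatrix.ofMatrix (Matrix.of f)) j i) ^ 2 ≤ (ε / (n + 1)) ^ 2 := by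
      intro i j
      rw [CStarMatrix.sub_apply]
      exact pow_le_pow_left₀ (n2_nonneg _) (hf2 j i).le 2
    calc (n : ℝ)⁻¹ * ∑ i, ∑ j, n2 ((x - CStarMatrix.ofMatrix (Matrix.of f)) j i) ^ 2
        ≤ (n : ℝ)⁻¹ * ∑ _i : Fin n, ∑ _j : Fin n, (ε / (n + 1)) ^ 2 := by
          refine mul_le_mul_of_nonneg_left ?_ (by positivity)
          exact Finset.sum_le_sum fun i _ => Finset.sum_le_sum fun j _ => h2 i j
      _ = n * (ε / (n + 1)) ^ 2 := by
          simp only [Finset.sum_const, Finset.card_univ, Fintype.card_fin, nsmul_eq_mul]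
          field_simp
      _ < ε ^ 2 := by
          rw [div_pow, mul_div_assoc', div_lt_iff₀ (by positivity)]
          nlinarith [mul_pos hn (pow_pos hε 2), mul_pos (pow_pos hn 2) (pow_pos hε 2), pow_pos hε 2]
  exact lt_of_pow_lt_pow_left₀ 2 hε.le h1

end

end SCO
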