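import Pool.Agent.Work.MP_52dd0f_an.Supp

/-!
# Projections: basic calculus, exhaustion, closest points
-/

set_option linter.unusedSectionVars false

namespace SCO

open Filter Topology
open scoped ComplexOrder ComplexConjugate

universe u v

/-- real part of the trace -/
noncomputable def tau {M : Type u} [CStarAlgebra M] [TrC M] (x : M) : ℝ := (tr x).re

/-- projections -/
structure IsProj {M : Type u} [CStarAlgebra M] (e : M) : Prop where
  mul : e * e = e
  star : star e = e

section TrC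

variable {M : Type u} [CStarAlgebra M] [TrC M]

@[simp] theorem tau_zero : tau (0 : M) = 0 := by simp [tau]
@[simp] theorem tau_one : tau (1 : M) = 1 := by simp [tau, tr_one]
theorem tau_add (x y : M) : tau (x + y) = tau x + tau y := by simp [tau]
theorem tau_sub (x y : M) : tau (x - y) = tau x - tau y := by simp [tau]
theorem tau_mul_comm (x y : M) : tau (x * y) = tau (y * x) := by simp [tau, tr_comm x y]
theorem tau_sum {ι : Type*} (s : Finset ι) (f : ι → M) : tau (∑ i ∈ s, f i) = ∑ i ∈ s, tau (f i) := by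
  simp [tau, map_sum]

theorem T2.tau {ι : Type*} {l : Filter ι} {x : ι → M} {y : M} (h : T2 l x y) :
    Tendsto (fun k => SCO.tau (x k)) l (𝓝 (SCO.tau y)) :=
  (Complex.continuous_re.tendsto _).comp h.tr

theorem IsProj.zero : IsProj (0 : M) := ⟨by simp, by simp⟩
theorem IsProj.one : IsProj (1 : M) := ⟨by simp, by simp⟩

variable {e f g v w : M}

theorem IsProj.tau_eq (h : IsProj e) : tau e = n2 e ^ 2 := by
  rw [n2_sq, h.star, h.mul, tau]

theorem IsProj.tr_eq (h : IsProj e) : tr e = (tau e : ℂ) := by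
  have := n2_sq' e
  rw [h.star, h.mul] at this
  rw [← this, h.tau_eq]

theorem IsProj.tau_nonneg (h : IsProj e) : 0 ≤ tau e := by rw [h.tau_eq]; positivity

theorem IsProj.eq_zero (h : IsProj e) (h0 : tau e = 0) : e = 0 := by
  rw [h.tau_eq] at h0
  exact n2_eq_zero.1 (pow_eq_zero_iff (two_ne_zero) |>.1 h0)

theorem IsProj.tau_pos (h : IsProj e) (h0 : e ≠ 0) : 0 < tau e :=
  lt_of_le_of_ne h.tau_nonneg (fun h1 => h0 (h.eq_zero h1.symm))

theorem IsProj.norm_le (h : IsProj e) : ‖e‖ ≤ 1 := by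
  have h1 : ‖e‖ * ‖e‖ = ‖e‖ := by
    have := CStarRing.norm_star_mul_self (x := e)
    rw [h.star, h.mul] at this
    exact this.symm
  by_contra hlt
  push Not at hlt
  nlinarith

theorem IsProj.tau_le_one (h : IsProj e) : tau e ≤ 1 := by
  rw [h.tau_eq]
  have h1 := n2_le_norm e
  have h2 := h.norm_le
  have h3 := n2_nonneg e
  nlinarith

theorem IsProj.compl (h : IsProj e) : IsProj (1 - e) :=
  ⟨by simp only [mul_sub, sub_mul, mul_one, one_mul, h.mul]; abel, by simp [h.star]⟩

theorem IsProj.mul_swap (he : IsProj e) (hf : IsProj f) (h : e * f = e) : f * e = e := by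
  have := congrArg Star.star h
  rwa [star_mul, he.star, hf.star] at this

theorem IsProj.mul_swap' (he : IsProj e) (hf : IsProj f) (h : f * e = e) : e * f = e := by
  have := congrArg Star.star h
  rwa [star_mul, he.star, hf.star] at this

theorem IsProj.mul_zero_swap (he : IsProj e) (hf : IsProj f) (h : e * f = 0) : f * e = 0 := by
  have := congrArg Star.star h
  rwa [star_mul, he.star, hf.star, star_zero] at this

/-- `f - e` for `e ≤ f` -/
theorem IsProj.sub (he : IsProj e) (hf : IsProj f) (h : e * f = e) : IsProj (f - e) := by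
  have h2 := he.mul_swap hf h
  refine ⟨?_, by rw [star_sub, he.star, hf.star]⟩
  rw [mul_sub, sub_mul, sub_mul, hf.mul, h, h2, he.mul]; abel

theorem IsProj.add (he : IsProj e) (hf : IsProj f) (h : e * f = 0) : IsProj (e + f) := by
  have h2 := he.mul_zero_swap hf h
  refine ⟨?_, by rw [star_add, he.star, hf.star]⟩
  rw [mul_add, add_mul, add_mul, hf.mul, h, h2, he.mul]; abel

theorem tau_le_of_le (he : IsProj e) (hf : IsProj f) (h : e * f = e) : tau e ≤ tau f := by
  have := (he.sub hf h).tau_nonneg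
  rw [tau_sub] at this; linarith

theorem eq_of_le_of_tau (he : IsProj e) (hf : IsProj f) (h : e * f = e) (ht : tau e = tau f) :
    e = f := by
  have := (he.sub hf h).eq_zero (by rw [tau_sub, ht, sub_self])
  exact (sub_eq_zero.1 this).symm

theorem IsProj.of_T2 {ι : Type*} {l : Filter ι} [l.NeBot] {x : ι → M} {y : M}
    (hx : ∀ k, IsProj (x k)) (h : T2 l x y) : IsProj y := by
  have hb : ∀ k, ‖x k‖ ≤ 1 := fun k => (hx k).norm_le
  constructor
  · have h1 := T2.mul hb h h
    simp only [(hx _).mul] at h1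
    exact h1.unique h
  · have h1 := h.star
    simp only [(hx _).star] at h1
    exact h1.unique h

/-- sources and ranges of partial isometries -/
theorem pi_src (h : v * star v * v = v) : IsProj (star v * v) := by
  refine ⟨?_, by simp⟩
  rw [mul_assoc, ← mul_assoc v, h]

theorem pi_rng (h : v * star v * v = v) : IsProj (v * star v) := by
  refine ⟨?_, by simp⟩
  rw [← mul_assoc, h]

theorem pi_of_src (h : IsProj (star v * v)) : v * star v * v = v := by
  have h0 : star (v - v * star v * v) * (v - v * star v * v) = 0 := by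
    have : star (v - v * star v * v) * (v - v * star v * v) =
        star v * v - (star v * v) * (star v * v) - (star v * v) * (star v * v) +
        (star v * v) * ((star v * v) * (star v * v)) := by
      simp only [star_sub, star_mul, star_star]; noncomm_ring
    rw [this, h.mul, h.mul]; abel
  exact (sub_eq_zero.1 ((CStarRing.star_mul_self_eq_zero_iff _).1 h0)).symm

theorem pi_star (h : v * star v * v = v) : star v * v * star v = star v := by
  have := congrArg star h
  simpa only [star_mul, star_star, mul_assoc] using this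

theorem pi_tau (v : M) : tau (star v * v) = tau (v * star v) := tau_mul_comm _ _

theorem pi_norm_le (h : v * star v * v = v) : ‖v‖ ≤ 1 := by
  have h1 := (pi_src h).norm_le
  rw [CStarRing.norm_star_mul_self] at h1
  nlinarith [norm_nonneg v]

theorem pi_mul_src {v e : M} (he : IsProj e) (h : star v * v = e) : v * e = v := by
  have := pi_of_src (v := v) (by rw [h]; exact he)
  rw [mul_assoc, h] at this; exact this

theorem pi_mul_rng {v f e : M} (he : IsProj e) (h : star v * v = e) (h' : v * star v = f) :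
    f * v = v := by
  rw [← h']; exact pi_of_src (by rw [h]; exact he)

/-- the parallelogram law -/
theorem parallelogram (x y : M) : n2 (x + y) ^ 2 + n2 (x - y) ^ 2 = 2 * (n2 x ^ 2 + n2 y ^ 2) := by
  simp only [n2_sq, star_add, star_sub, add_mul, sub_mul, mul_add, mul_sub, map_add, map_sub,
    Complex.add_re, Complex.sub_re]
  ring

end TrC

/-- Exhaustion principle (Brezis–Browder). -/
theorem exhaustion {X : Type*} (r : X → X → Prop) (hrefl : ∀ x, r x x)
    (htrans : ∀ x y z, r x y → r y z → r x z) (μ : X → ℝ) (hmono : ∀ x y, r x y → μ x ≤ μ y)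
    (B : ℝ) (hB : ∀ x, μ x ≤ B)
    (hub : ∀ s : ℕ → X, (∀ n, r (s n) (s (n + 1))) → ∃ y, ∀ n, r (s n) y) (x₀ : X) :
    ∃ x, r x₀ x ∧ ∀ y, r x y → μ y = μ x := by
  classical
  have hbdd : ∀ x, BddAbove (μ '' {y | r x y}) := fun x => ⟨B, by rintro _ ⟨y, _, rfl⟩; exact hB y⟩
  have step : ∀ (n : ℕ) (x : X), ∃ y, r x y ∧ ∀ z, r x z → μ z ≤ μ y + 1 / ((n : ℝ) + 1) := by
    intro n x
    have hne : (μ '' {y | r x y}).Nonempty := ⟨μ x, x, hrefl x, rfl⟩
    obtain ⟨_, ⟨y, hy, rfl⟩, hlt⟩ := exists_lt_of_lt_csSup hne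
      (sub_lt_self (sSup (μ '' {y | r x y})) (by positivity : (0 : ℝ) < 1 / ((n : ℝ) + 1)))
    refine ⟨y, hy, fun z hz => ?_⟩
    have := le_csSup (hbdd x) ⟨z, hz, rfl⟩
    linarith
  choose nx hnx1 hnx2 using step
  let s : ℕ → X := fun n => Nat.rec x₀ (fun n x => nx n x) n
  have hs : ∀ n, s (n + 1) = nx n (s n) := fun n => rfl
  obtain ⟨y, hy⟩ := hub s (fun n => by rw [hs]; exact hnx1 n _)
  refine ⟨y, hy 0, fun z hz => le_antisymm ?_ (hmono _ _ hz)⟩
  have h1 : ∀ n : ℕ, μ z ≤ μ y + 1 / ((n : ℝ) + 1) := fun n => by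
    have h2 := hnx2 n (s n) z (htrans _ _ _ (hy n) hz)
    have h3 := hmono _ _ (hy (n + 1))
    rw [hs] at h3
    linarith
  have h2 : Tendsto (fun n : ℕ => μ y + 1 / ((n : ℝ) + 1)) atTop (𝓝 (μ y + 0)) :=
    tendsto_const_nhds.add tendsto_one_div_nat
  rw [add_zero] at h2
  exact ge_of_tendsto' h2 h1

section TVN

variable {M : Type u} [CStarAlgebra M] [TVN M]

/-- increasing sequences of projections converge -/
theorem proj_limit {x : ℕ → M} (hx : ∀ k, IsProj (x k)) (hm : ∀ k, x k * x (k + 1) = x k) :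
    ∃ y : M, IsProj y ∧ T2 atTop x y ∧ ∀ k, x k * y = x k := by
  have hmm : ∀ l k, l ≤ k → x l * x k = x l := by
    intro l k hlk
    induction k, hlk using Nat.le_induction with
    | base => exact (hx l).mul
    | succ k hk ih =>
      calc x l * x (k + 1) = x l * x k * x (k + 1) := by rw [ih]
        _ = x l := by rw [mul_assoc, hm, ih]
  obtain ⟨y, hy1, hy⟩ := exists_limit_of_sq (x := x) (C := 1) (B := 1) (fun k => (hx k).norm_le)
    (fun k => tau (x k)) (fun k => (hx k).tau_le_one) (fun l k hlk => by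
      rw [← ((hx l).sub (hx k) (hmm l k hlk)).tau_eq, tau_sub])
  refine ⟨y, IsProj.of_T2 hx hy, hy, fun k => ?_⟩
  have h1 : T2 atTop (fun n => x k * x n) (x k * y) := hy.const_mul (x k)
  have h2 : T2 atTop (fun n => x k * x n) (x k) := by
    refine (T2.const (x k)).congr' ?_
    filter_upwards [eventually_ge_atTop k] with n hn
    rw [hmm k n hn]
  exact h1.unique h2

/-- closest point to the origin in a convex, bounded, 2-norm closed set -/
theorem exists_min {K : Set M} (hne : K.Nonempty) {C : ℝ} (hb : ∀ x ∈ K, ‖x‖ ≤ C)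
    (hconv : ∀ x ∈ K, ∀ y ∈ K, ((1 / 2 : ℝ) : ℂ) • (x + y) ∈ K)
    (hcl : ∀ x : ℕ → M, (∀ k, x k ∈ K) → ∀ y, T2 atTop x y → y ∈ K) :
    ∃ y ∈ K, ∀ x ∈ K, n2 x ≤ n2 y → x = y := by
  set S : Set ℝ := (fun x => n2 x ^ 2) '' K with hS
  have hSne : S.Nonempty := hne.image _
  have hSb : BddBelow S := ⟨0, by rintro _ ⟨x, _, rfl⟩; positivity⟩
  set m : ℝ := sInf S with hm
  have hle : ∀ x ∈ K, m ≤ n2 x ^ 2 := fun x hx => csInf_le hSb ⟨x, hx, rfl⟩
  have hpar : ∀ x ∈ K, ∀ y ∈ K, n2 (x - y) ^ 2 ≤ 2 * (n2 x ^ 2 + n2 y ^ 2) - 4 * m := by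
    intro x hx y hy
    have h1 := hle _ (hconv x hx y hy)
    rw [n2_smul, Complex.norm_real, Real.norm_eq_abs, abs_of_pos (by norm_num)] at h1
    have h2 := parallelogram x y
    nlinarith
  have : ∀ k : ℕ, ∃ x ∈ K, n2 x ^ 2 < m + 1 / ((k : ℝ) + 1) := fun k => by
    obtain ⟨_, ⟨x, hx, rfl⟩, hlt⟩ := exists_lt_of_csInf_lt hSne
      (lt_add_of_pos_right m (by positivity : (0 : ℝ) < 1 / ((k : ℝ) + 1)))
    exact ⟨x, hx, hlt⟩
  choose x hxK hxm using this
  obtain ⟨y, -, hy⟩ := exists_limit (x := x) (fun k => hb _ (hxK k)) (fun ε hε => by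
    have h1 : Tendsto (fun n : ℕ => 1 / ((n : ℝ) + 1)) atTop (𝓝 0) := tendsto_one_div_nat
    obtain ⟨K₀, hK₀⟩ := (h1.eventually (gt_mem_nhds (by positivity : 0 < ε ^ 2 / 4))).exists_forall_of_atTop
    refine ⟨K₀, fun k hk l hl => ?_⟩
    have h2 := hpar _ (hxK k) _ (hxK l)
    have h3 := hxm k
    have h4 := hxm l
    have h5 := hK₀ k hk
    have h6 := hK₀ l hl
    have h7 : n2 (x k - x l) ^ 2 < ε ^ 2 := by linarith
    exact lt_of_pow_lt_pow_left₀ 2 hε.le h7)
  have hyK : y ∈ K := hcl x hxK y hy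
  have hym : n2 y ^ 2 ≤ m := by
    have h1 : Tendsto (fun k => n2 (x k) ^ 2) atTop (𝓝 (n2 y ^ 2)) := hy.n2.pow 2
    have h2 : Tendsto (fun k : ℕ => m + 1 / ((k : ℝ) + 1)) atTop (𝓝 (m + 0)) :=
      tendsto_const_nhds.add tendsto_one_div_nat
    rw [add_zero] at h2
    exact le_of_tendsto_of_tendsto' h1 h2 (fun k => (hxm k).le)
  refine ⟨y, hyK, fun z hz hzy => ?_⟩
  have h1 := hpar z hz y hyK
  have h2 : n2 z ^ 2 ≤ n2 y ^ 2 := pow_le_pow_left₀ (n2_nonneg _) hzy 2
  have h3 : n2 (z - y) ^ 2 ≤ 0 := by linarith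
  have h4 : n2 (z - y) = 0 := by nlinarith [n2_nonneg (z - y), sq_nonneg (n2 (z - y))]
  exact sub_eq_zero.1 (n2_eq_zero.1 h4)

end TVN

end SCO
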