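import Pool.Agent.Work.MP_52dd0f_an.Factor

/-!
# Projections of prescribed trace
-/

set_option linter.unusedSectionVars false

namespace SCO

open Filter Topology
open scoped ComplexOrder ComplexConjugate

universe u v

section

variable {M : Type u} [CStarAlgebra M] [TVN M]

theorem cfc_mul_eq_zero {a : M} {f g : ℝ → ℝ} (hf : ContinuousOn f (spectrum ℝ a))
    (hg : ContinuousOn g (spectrum ℝ a)) (h : ∀ t, f t * g t = 0) : cfc f a * cfc g a = 0 := by
  rw [← cfc_mul f g a hf hg]
  have : (fun t => f t * g t) = fun _ => (0 : ℝ) := funext h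
  rw [this, cfc_const_zero]

/-- If `e` is a minimal projection then `y^* y` is a multiple of `e` for `y = y e`. -/
theorem sq_of_minimal {e : M} (he : IsProj e) (hmin : ∀ f, IsProj f → f * e = f → f = 0 ∨ f = e)
    {y : M} (hy : y * e = y) : star y * y = ((‖y‖ ^ 2 : ℝ) : ℂ) • e := by
  set a : M := star y * y with ha
  have hsa : IsSelfAdjoint a := isSelfAdjoint_sq y
  have hna : ‖a‖ = ‖y‖ ^ 2 := by rw [ha, CStarRing.norm_star_mul_self, sq]
  have hae : a * e = a := by rw [ha, mul_assoc, hy]
  rcases eq_or_lt_of_le (norm_nonneg a) with h0 | h0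
  · have : a = 0 := norm_eq_zero.1 h0.symm
    rw [this, ← hna, ← h0]; simp
  let _ := CStarAlgebra.spectralOrder M
  have _ := CStarAlgebra.spectralOrderedRing M
  have hspec : ‖a‖ ∈ spectrum ℝ a := CStarAlgebra.norm_mem_spectrum_of_nonneg (star_mul_self_nonneg y)
  have key : ∀ c : ℝ, 0 < c → c < ‖a‖ → cfc (fun t => max 0 (c - t)) a * e = 0 := by
    intro c hc hca
    set b : M := cfc (fun t => max 0 (t - c)) a with hb
    have hbc : ContinuousOn (fun t : ℝ => max 0 (t - c)) (spectrum ℝ a) := by fun_prop
    have hb0 : b ≠ 0 := by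
      intro h0
      have h8 : max 0 (‖a‖ - c) ∈ spectrum ℝ b := by
        rw [hb, cfc_map_spectrum (fun t => max 0 (t - c)) a hsa hbc]
        exact ⟨_, hspec, rfl⟩
      rw [h0, spectrum.zero_eq, Set.mem_singleton_iff, max_eq_right (by linarith)] at h8
      linarith
    obtain ⟨v, -, h1, h2, h3, h4, h5, -, -⟩ := polar b
    have hbe : b * (1 - e) = 0 := by
      have hg : Continuous (fun t : ℝ => max 0 (t - c) / max t c) :=
        Continuous.div (by fun_prop) (by fun_prop) (fun t => (lt_max_of_lt_right hc).ne')
      have e1 : b = cfc (fun t => (max 0 (t - c) / max t c) * t) a := by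
        rw [hb]
        apply cfc_congr
        intro t _
        show max 0 (t - c) = max 0 (t - c) / max t c * t
        rcases le_total t c with h | h
        · rw [max_eq_left (by linarith : t - c ≤ 0)]; simp
        · rw [max_eq_left h, div_mul_cancel₀ _ (by linarith : t ≠ 0)]
      rw [e1, cfc_mul _ (fun t => t) a hg.continuousOn continuousOn_id, cfc_id' ℝ a, mul_assoc,
        mul_sub, mul_one, hae, sub_self, mul_zero]
    have hr := pi_src h1
    have hre : (star v * v) * e = star v * v := by
      have := h5 (1 - e) hbe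
      rw [mul_sub, mul_one] at this
      rw [mul_assoc, ← sub_eq_zero.1 this]
    have hr0 : star v * v ≠ 0 := by
      intro h0
      apply hb0
      rw [← h3, h0, mul_zero]
    have hreq : star v * v = e := (hmin _ hr hre).resolve_left hr0
    -- `(c - a)_+ b = 0`
    have hz : cfc (fun t => max 0 (c - t)) a * b = 0 := by
      rw [hb]
      apply cfc_mul_eq_zero (by fun_prop) (by fun_prop)
      intro t
      rcases le_total t c with h | h
      · rw [max_eq_left (by linarith : t - c ≤ 0), mul_zero]
      · rw [max_eq_left (by linarith : c - t ≤ 0), zero_mul]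
    have hz' : b * cfc (fun t => max 0 (c - t)) a = 0 := by
      have := congrArg star hz
      rwa [star_mul, hb, cfc_star_real, cfc_star_real, star_zero] at this
    have h6 := h5 _ hz'
    have h7 : (star v * v) * cfc (fun t => max 0 (c - t)) a = 0 := by
      rw [mul_assoc, h6, mul_zero]
    rw [hreq] at h7
    have := congrArg star h7
    rwa [star_mul, he.star, cfc_star_real, star_zero] at this
  -- pass to the limit `c → ‖a‖`
  have hlim : cfc (fun t => max 0 (‖a‖ - t)) a * e = 0 := by
    apply norm_le_zero_iff.1
    refine le_of_forall_pos_le_add fun ε hε => ?_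
    set c := max (‖a‖ - ε) (‖a‖ / 2) with hc
    have hc0 : 0 < c := lt_max_of_lt_right (by positivity)
    have hca : c < ‖a‖ := max_lt (by linarith) (by linarith)
    have hce : ‖a‖ - ε ≤ c := le_max_left _ _
    have h1 := key c hc0 hca
    have h2 : cfc (fun t => max 0 (‖a‖ - t)) a * e =
        cfc (fun t => max 0 (‖a‖ - t) - max 0 (c - t)) a * e := by
      rw [cfc_sub (fun t => max 0 (‖a‖ - t)) (fun t => max 0 (c - t)) a (by fun_prop) (by fun_prop),
        sub_mul, h1, sub_zero]
    rw [h2, zero_add]
    refine (norm_mul_le _ _).trans ?_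
    have h3 : ‖cfc (fun t => max 0 (‖a‖ - t) - max 0 (c - t)) a‖ ≤ ε := by
      apply norm_cfc_le hε.le
      intro t _
      rw [Real.norm_eq_abs, abs_le]
      rcases le_total t c with h | h
      · rw [max_eq_right (by linarith : 0 ≤ ‖a‖ - t), max_eq_right (by linarith : 0 ≤ c - t)]
        constructor <;> linarith
      · rw [max_eq_left (by linarith : c - t ≤ 0), sub_zero]
        refine ⟨by have := le_max_left 0 (‖a‖ - t); linarith, ?_⟩
        apply max_le hε.le; linarith
    calc _ ≤ ε * 1 := mul_le_mul h3 he.norm_le (norm_nonneg _) hε.le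
      _ = ε := mul_one _
  have h1 : cfc (fun t => max 0 (‖a‖ - t)) a = ((‖a‖ : ℝ) : ℂ) • (1 : M) - a := by
    have : cfc (fun t => max 0 (‖a‖ - t)) a = cfc (fun t => ‖a‖ - t) a := by
      apply cfc_congr
      intro t ht
      show max 0 (‖a‖ - t) = ‖a‖ - t
      have : |t| ≤ ‖a‖ := by
        have := spectrum.norm_le_norm_of_mem ht
        rwa [Real.norm_eq_abs] at this
      rw [max_eq_right]; linarith [le_abs_self t]
    rw [this, cfc_sub (fun _ => ‖a‖) (fun t => t) a continuousOn_const continuousOn_id, cfc_const ‖a‖ a hsa,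
      cfc_id' ℝ a, Algebra.algebraMap_eq_smul_one]
    rfl
  rw [h1, sub_mul, smul_mul_assoc, one_mul, hae, sub_eq_zero, hna] at hlim
  exact hlim.symm

/-- In a minimal corner every element is a scalar. -/
theorem scalar_of_minimal {e : M} (he : IsProj e) (hmin : ∀ f, IsProj f → f * e = f → f = 0 ∨ f = e)
    {y z : M} (hy : y * e = y) (hz : z * e = z) : ∃ c : ℂ, star y * z = c • e := by
  have key : ∀ w : M, w * e = w → ∃ c : ℂ, star w * w = c • e := fun w hw =>
    ⟨_, sq_of_minimal he hmin hw⟩
  obtain ⟨c1, h1⟩ := key (y + z) (by rw [add_mul, hy, hz])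
  obtain ⟨c2, h2⟩ := key (y - z) (by rw [sub_mul, hy, hz])
  obtain ⟨c3, h3⟩ := key (y + Complex.I • z) (by rw [add_mul, smul_mul_assoc, hy, hz])
  obtain ⟨c4, h4⟩ := key (y - Complex.I • z) (by rw [sub_mul, smul_mul_assoc, hy, hz])
  refine ⟨(1 / 4) * (c1 - c2 - Complex.I * (c3 - c4)), ?_⟩
  have e1 : star y * z = (1 / 4 : ℂ) • (star (y + z) * (y + z) - star (y - z) * (y - z) -
      Complex.I • (star (y + Complex.I • z) * (y + Complex.I • z) -
        star (y - Complex.I • z) * (y - Complex.I • z))) := by
    have hI : Complex.I * Complex.I = -1 := Complex.I_mul_I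
    simp only [star_add, star_sub, star_smul, add_mul, sub_mul, mul_add, mul_sub, smul_mul_assoc,
      mul_smul_comm, Complex.star_def, Complex.conj_I, smul_smul, smul_add, smul_sub, neg_smul,
      smul_neg, neg_mul, hI, one_smul]
    module
  rw [e1, h1, h2, h3, h4]
  simp only [← sub_smul, smul_smul]

end

section

variable {M : Type u} [CStarAlgebra M] [TVN M] [FactorII M]

/-- many orthogonal copies of a small projection -/
theorem exists_copies {e : M} (he : IsProj e) (k : ℕ) (hk : k * tau e ≤ 1) :
    ∃ v : Fin k → M, (∀ i, star (v i) * v i = e) ∧ (∀ i j, i ≠ j → star (v i) * v j = 0) := by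
  induction k with
  | zero => exact ⟨fun i => i.elim0, fun i => i.elim0, fun i => i.elim0⟩
  | succ k ih =>
    push_cast at hk
    have hte := he.tau_nonneg
    obtain ⟨v, hv1, hv2⟩ := ih (by nlinarith)
    have hpi : ∀ i, v i * star (v i) * v i = v i := fun i => pi_of_src (by rw [hv1]; exact he)
    set s : M := ∑ i, v i * star (v i) with hs
    have hvs : ∀ i, s * v i = v i := fun i => by
      rw [hs, Finset.sum_mul, Finset.sum_eq_single i]
      · exact hpi i
      · intro j _ hj; rw [mul_assoc, hv2 j i hj, mul_zero]
      · simp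
    have hsp : IsProj s := by
      constructor
      · conv_lhs => rw [hs, Finset.mul_sum]
        rw [hs]
        refine Finset.sum_congr rfl fun i _ => ?_
        rw [← hs, ← mul_assoc, hvs]
      · rw [hs, star_sum]; simp
    have hts : tau s = k * tau e := by
      rw [hs, tau_sum]
      simp only [← pi_tau, hv1]
      simp
    obtain ⟨w, hw1, hw2, hw3⟩ := compare he hsp.compl (by rw [tau_sub, tau_one, hts]; linarith)
    have hsw : s * w = 0 := by
      have h1 : s * (1 - s) = 0 := by rw [mul_sub, mul_one, hsp.mul, sub_self]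
      rw [← hw2, ← mul_assoc, h1, zero_mul]
    have hvw : ∀ i, star (v i) * w = 0 := fun i => by
      have h1 : star (v i) * s = star (v i) := by
        have := congrArg star (hvs i)
        rwa [star_mul, hsp.star] at this
      rw [← h1, mul_assoc, hsw, mul_zero]
    have hwv : ∀ i, star w * v i = 0 := fun i => by
      have := congrArg star (hvw i)
      rwa [star_mul, star_star, star_zero] at this
    refine ⟨Fin.snoc v w, fun i => ?_, fun i j hij => ?_⟩
    · refine Fin.lastCases ?_ (fun i => ?_) i
      · simp [hw1]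
      · simp [hv1]
    · revert hij
      refine Fin.lastCases ?_ (fun i => ?_) i <;> refine Fin.lastCases ?_ (fun j => ?_) j
      · intro h; exact absurd rfl h
      · intro _; simp [hwv]
      · intro _; simp [hvw]
      · intro h
        simp only [Fin.snoc_castSucc]
        exact hv2 i j (fun h' => h (by rw [h']))

/-- A II₁ factor has no minimal projection. -/
theorem no_minimal {e : M} (he : IsProj e) (he0 : e ≠ 0) :
    ∃ f : M, IsProj f ∧ f * e = f ∧ f ≠ 0 ∧ f ≠ e := by
  by_contra hcon
  push Not at hcon
  have hmin : ∀ f, IsProj f → f * e = f → f = 0 ∨ f = e := fun f hf hfe => by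
    by_contra h; push Not at h; exact h.2 (hcon f hf hfe h.1)
  have hte := he.tau_pos he0
  set k : ℕ := ⌊1 / tau e⌋₊ with hk
  have hk1 : (k : ℝ) * tau e ≤ 1 := by
    have := Nat.floor_le (by positivity : 0 ≤ 1 / tau e)
    rwa [← hk, le_div_iff₀ hte] at this
  have hk2 : 1 < ((k : ℝ) + 1) * tau e := by
    have := Nat.lt_floor_add_one (1 / tau e)
    rwa [← hk, div_lt_iff₀ hte] at this
  obtain ⟨v, hv1, hv2⟩ := exists_copies he k hk1
  have hpi : ∀ i, v i * star (v i) * v i = v i := fun i => pi_of_src (by rw [hv1]; exact he)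
  have hve : ∀ i, v i * e = v i := fun i => by rw [← hv1 i, ← mul_assoc]; exact hpi i
  set s : M := ∑ i, v i * star (v i) with hs
  have hvs : ∀ i, s * v i = v i := fun i => by
    rw [hs, Finset.sum_mul, Finset.sum_eq_single i]
    · exact hpi i
    · intro j _ hj; rw [mul_assoc, hv2 j i hj, mul_zero]
    · simp
  have hsp : IsProj s := by
    constructor
    · conv_lhs => rw [hs, Finset.mul_sum]
      rw [hs]
      refine Finset.sum_congr rfl fun i _ => ?_
      rw [← hs, ← mul_assoc, hvs]
    · rw [hs, star_sum]; simp
  have hts : tau s = k * tau e := by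
    rw [hs, tau_sum]
    simp only [← pi_tau, hv1]
    simp
  -- the remainder is zero
  have hs1 : s = 1 := by
    by_contra hne
    have h1s : (1 : M) - s ≠ 0 := fun h => hne (sub_eq_zero.1 h).symm
    have h1 : tau (1 - s) < tau e := by rw [tau_sub, tau_one, hts]; linarith
    obtain ⟨w, hw1, hw2, hw3⟩ := compare hsp.compl he h1.le
    have h2 : IsProj (w * star w) := pi_rng hw3
    have h3 : (w * star w) * e = w * star w := h2.mul_swap' he (by rw [← mul_assoc, hw2])
    have h4 : 0 < tau (1 - s) := hsp.compl.tau_pos h1s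
    rcases hmin _ h2 h3 with h | h
    · have := pi_tau w
      rw [hw1, h, tau_zero] at this
      linarith
    · have := pi_tau w
      rw [hw1, h] at this
      linarith
  -- `M` is finite dimensional
  apply FactorII.infinite (M := M)
  have hspan : Submodule.span ℂ (Set.range fun p : Fin k × Fin k => v p.1 * star (v p.2)) = ⊤ := by
    rw [eq_top_iff]
    intro x _
    have hx : x = ∑ i, ∑ j, v i * (star (v i) * x * v j) * star (v j) := by
      calc x = s * x * s := by rw [hs1]; simp
        _ = _ := by
          rw [hs, Finset.sum_mul, Finset.sum_mul]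
          refine Finset.sum_congr rfl fun i _ => ?_
          rw [Finset.mul_sum]
          refine Finset.sum_congr rfl fun j _ => ?_
          noncomm_ring
    rw [hx]
    refine Submodule.sum_mem _ fun i _ => Submodule.sum_mem _ fun j _ => ?_
    obtain ⟨c, hc⟩ := scalar_of_minimal he hmin (y := star x * v i) (z := v j)
      (by rw [mul_assoc, hve]) (hve j)
    have hc' : star (v i) * x * v j = c • e := by
      rw [star_mul, star_star] at hc; exact hc
    rw [hc', mul_smul_comm, smul_mul_assoc, hve]
    exact Submodule.smul_mem _ _ (Submodule.subset_span ⟨(i, j), rfl⟩)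
  exact Module.Finite.of_fg_top (by
    rw [← hspan]
    exact Submodule.fg_span (Set.finite_range _))

end

end SCO
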