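import Pool.Agent.Work.MP_52dd0f_an.Func

/-!
# Polar decomposition and support projections
-/

set_option linter.unusedSectionVars false

namespace SCO

open Filter Topology
open scoped ComplexOrder ComplexConjugate

universe u v

/-- `t ↦ max(t, 1/(n+1))^{-1/2}` -/
noncomputable def hN (n : ℕ) (t : ℝ) : ℝ := (Real.sqrt (max t (1 / ((n : ℝ) + 1))))⁻¹

noncomputable def fN (n : ℕ) (t : ℝ) : ℝ := hN n t * t * hN n t

theorem max_pos (n : ℕ) (t : ℝ) : 0 < max t (1 / ((n : ℝ) + 1)) :=
  lt_max_of_lt_right (by positivity)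

theorem hN_pos (n : ℕ) (t : ℝ) : 0 < hN n t := inv_pos.2 (Real.sqrt_pos.2 (max_pos n t))

theorem hN_cont (n : ℕ) : Continuous (hN n) := by
  unfold hN
  refine Continuous.inv₀ (by fun_prop) (fun t => ?_)
  exact (Real.sqrt_pos.2 (max_pos n t)).ne'

theorem fN_cont (n : ℕ) : Continuous (fN n) := by
  unfold fN
  have := hN_cont n
  fun_prop

theorem hN_mono {n m : ℕ} (h : n ≤ m) (t : ℝ) : hN n t ≤ hN m t := by
  unfold hN
  apply inv_anti₀ (Real.sqrt_pos.2 (max_pos m t))
  apply Real.sqrt_le_sqrt
  apply max_le_max_left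
  apply one_div_le_one_div_of_le (by positivity)
  have : (n : ℝ) ≤ m := by exact_mod_cast h
  linarith

theorem fN_eq (n : ℕ) (t : ℝ) : fN n t = t / max t (1 / ((n : ℝ) + 1)) := by
  unfold fN hN
  have h := max_pos n t
  have hs : Real.sqrt (max t (1 / ((n : ℝ) + 1))) * Real.sqrt (max t (1 / ((n : ℝ) + 1))) =
    max t (1 / ((n : ℝ) + 1)) := Real.mul_self_sqrt h.le
  have h0 := (Real.sqrt_pos.2 h).ne'
  rw [eq_div_iff h.ne']
  nth_rewrite 3 [← hs]
  field_simp

theorem fN_nonneg (n : ℕ) {t : ℝ} (ht : 0 ≤ t) : 0 ≤ fN n t := by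
  rw [fN_eq]; exact div_nonneg ht (max_pos n t).le

theorem fN_le_one (n : ℕ) {t : ℝ} (ht : 0 ≤ t) : fN n t ≤ 1 := by
  rw [fN_eq, div_le_one (max_pos n t)]; exact le_max_left _ _

theorem fN_diff {n m : ℕ} (h : n ≤ m) {t : ℝ} (ht : 0 ≤ t) :
    (hN m t - hN n t) * t * (hN m t - hN n t) ≤ fN m t - fN n t := by
  have h1 := hN_mono h t
  have h2 := hN_pos n t
  unfold fN
  nlinarith [mul_nonneg ht (mul_nonneg h2.le (sub_nonneg.2 h1))]

theorem fN_idem (n : ℕ) {t : ℝ} (ht : 0 ≤ t) :
    (fN n t - fN n t * fN n t) * (fN n t - fN n t * fN n t) ≤ fN (2 * n + 1) t - fN n t := by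
  have hb0 := fN_nonneg n ht
  have hb1 := fN_le_one n ht
  have key : fN n t - fN n t * fN n t ≤ fN (2 * n + 1) t - fN n t := by
    have hpos : (0 : ℝ) < (n : ℝ) + 1 := by positivity
    rcases le_total (1 / ((n : ℝ) + 1)) t with h | h
    · have e1 : fN n t = 1 := by
        rw [fN_eq, max_eq_left h, div_self]
        exact (lt_of_lt_of_le (by positivity) h).ne'
      have h2 : 1 / (((2 * n + 1 : ℕ) : ℝ) + 1) ≤ t := by
        refine le_trans ?_ h
        apply one_div_le_one_div_of_le hpos
        push_cast; linarith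
      have e2 : fN (2 * n + 1) t = 1 := by
        rw [fN_eq, max_eq_left h2, div_self]
        exact (lt_of_lt_of_le (by positivity) h).ne'
      rw [e1, e2]; norm_num
    · have e1 : fN n t = ((n : ℝ) + 1) * t := by
        rw [fN_eq, max_eq_right h]; field_simp
      rcases le_total (1 / (((2 * n + 1 : ℕ) : ℝ) + 1)) t with h2 | h2
      · have e2 : fN (2 * n + 1) t = 1 := by
          rw [fN_eq, max_eq_left h2, div_self]
          exact (lt_of_lt_of_le (by positivity) h2).ne'
        rw [e2]
        nlinarith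
      · have e2 : fN (2 * n + 1) t = 2 * (((n : ℝ) + 1) * t) := by
          rw [fN_eq, max_eq_right h2]; push_cast; field_simp; ring
        rw [e2, e1]
        nlinarith [sq_nonneg (((n : ℝ) + 1) * t)]
  have h3 : 0 ≤ fN n t - fN n t * fN n t := by nlinarith
  have h4 : fN n t - fN n t * fN n t ≤ 1 := by nlinarith
  nlinarith

theorem hN_sqrt (n : ℕ) {t : ℝ} (ht : 0 ≤ t) :
    (hN n t * t - Real.sqrt t) * (hN n t * t - Real.sqrt t) ≤ 1 / ((n : ℝ) + 1) := by
  have hpos : (0 : ℝ) < (n : ℝ) + 1 := by positivity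
  rcases le_total (1 / ((n : ℝ) + 1)) t with h | h
  · have e : hN n t * t = Real.sqrt t := by
      unfold SCO.hN
      rw [max_eq_left h]
      have ht' : 0 < t := lt_of_lt_of_le (by positivity) h
      have := Real.mul_self_sqrt ht
      rw [inv_mul_eq_iff_eq_mul₀ (Real.sqrt_pos.2 ht').ne']
      exact this.symm
    rw [e]; simp; positivity
  · have h1 : 0 ≤ hN n t * t := mul_nonneg (hN_pos n t).le ht
    have h2 : hN n t * t ≤ Real.sqrt t := by
      unfold SCO.hN
      rw [max_eq_right h, inv_mul_le_iff₀ (Real.sqrt_pos.2 (by positivity)), ← Real.sqrt_mul (by positivity)]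
      apply Real.le_sqrt_of_sq_le
      rw [sq]
      exact mul_le_mul_of_nonneg_right h ht
    have h3 : Real.sqrt t * Real.sqrt t = t := Real.mul_self_sqrt ht
    nlinarith [Real.sqrt_nonneg t]

theorem hN_sqrt' (n : ℕ) {t : ℝ} (ht : 0 ≤ t) :
    (1 - hN n t * Real.sqrt t) * t * (1 - hN n t * Real.sqrt t) ≤ 1 / ((n : ℝ) + 1) := by
  have hpos : (0 : ℝ) < (n : ℝ) + 1 := by positivity
  rcases le_total (1 / ((n : ℝ) + 1)) t with h | h
  · have e : hN n t * Real.sqrt t = 1 := by
      unfold SCO.hN
      rw [max_eq_left h]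
      exact inv_mul_cancel₀ (Real.sqrt_pos.2 (lt_of_lt_of_le (by positivity) h)).ne'
    rw [e]; simp; positivity
  · have h1 : 0 ≤ hN n t * Real.sqrt t := mul_nonneg (hN_pos n t).le (Real.sqrt_nonneg _)
    have h2 : hN n t * Real.sqrt t ≤ 1 := by
      unfold SCO.hN
      rw [max_eq_right h, inv_mul_le_iff₀ (Real.sqrt_pos.2 (by positivity)), mul_one]
      exact Real.sqrt_le_sqrt h
    have h3 : (1 - hN n t * Real.sqrt t) * (1 - hN n t * Real.sqrt t) ≤ 1 := by nlinarith
    nlinarith [mul_nonneg ht (mul_self_nonneg (1 - hN n t * Real.sqrt t))]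

section TVN

variable {M : Type u} [CStarAlgebra M] [TVN M]

theorem tendsto_one_div_nat : Tendsto (fun n : ℕ => 1 / ((n : ℝ) + 1)) atTop (𝓝 0) :=
  tendsto_one_div_add_atTop_nhds_zero_nat

theorem T2.of_sq_le {ι : Type*} {l : Filter ι} {x : ι → M} {y : M} {b : ι → ℝ}
    (hb : Tendsto b l (𝓝 0)) (h : ∀ k, SCO.n2 (x k - y) ^ 2 ≤ b k) : T2 l x y := by
  have h1 : Tendsto (fun k => Real.sqrt (b k)) l (𝓝 0) := by
    have := hb.sqrt
    rwa [Real.sqrt_zero] at this
  refine T2.squeeze h1 (fun k => ?_)
  exact Real.le_sqrt_of_sq_le (h k)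

theorem tr_cfc_le_one {a : M} {f : ℝ → ℝ} {c : ℝ} (hf : ContinuousOn f (spectrum ℝ a))
    (ha : IsSelfAdjoint a) (h : ∀ t ∈ spectrum ℝ a, f t ≤ c) : (tr (cfc f a)).re ≤ c := by
  have h1 := tr_cfc_mono (a := a) (g := fun _ => c) hf continuousOn_const h
  rw [cfc_const c a ha] at h1
  have h2 : (algebraMap ℝ M c) = (c : ℂ) • (1 : M) := by
    rw [Algebra.algebraMap_eq_smul_one]; rfl
  rw [h2, map_smul, tr_one, smul_eq_mul, mul_one, Complex.ofReal_re] at h1
  exact h1

/-- **Polar decomposition.** -/
theorem polar (x : M) : ∃ v : M, ‖v‖ ≤ 1 ∧ v * star v * v = v ∧ v * star v * x = x ∧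
    x * (star v * v) = x ∧ (∀ q, q * x = 0 → q * v = 0) ∧ (∀ q, x * q = 0 → v * q = 0) ∧
    T2 atTop (fun n => x * cfc (hN n) (star x * x)) v ∧
    T2 atTop (fun n => cfc (fN n) (star x * x)) (star v * v) := by
  set a : M := star x * x with ha
  have hsa : IsSelfAdjoint a := isSelfAdjoint_sq x
  have hsp : ∀ t ∈ spectrum ℝ a, 0 ≤ t := fun t ht => spectrum_sq_nonneg x ht
  have hid : ContinuousOn (fun t : ℝ => t) (spectrum ℝ a) := continuousOn_id
  set vn : ℕ → M := fun n => x * cfc (hN n) a with hvn
  have hf : ∀ n, ContinuousOn (fN n) (spectrum ℝ a) := fun n => (fN_cont n).continuousOn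
  have hh : ∀ n, ContinuousOn (hN n) (spectrum ℝ a) := fun n => (hN_cont n).continuousOn
  have hvv : ∀ n, star (vn n) * vn n = cfc (fN n) a := fun n => star_mul_cfc_mul x (hh n) (hh n)
  have hnf : ∀ n, ‖cfc (fN n) a‖ ≤ 1 := fun n => norm_cfc_le zero_le_one fun t ht => by
    rw [Real.norm_eq_abs, abs_of_nonneg (fN_nonneg n (hsp t ht))]; exact fN_le_one n (hsp t ht)
  have hnv : ∀ n, ‖vn n‖ ≤ 1 := fun n => by
    have : ‖vn n‖ * ‖vn n‖ ≤ 1 := by
      rw [← CStarRing.norm_star_mul_self, hvv]; exact hnf n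
    nlinarith [norm_nonneg (vn n)]
  -- the sequence `vn` converges
  obtain ⟨v, hv1, hv⟩ := exists_limit_of_sq (x := vn) (C := 1) (B := 1) hnv
    (fun n => (tr (cfc (fN n) a)).re)
    (fun n => tr_cfc_le_one (hf n) hsa fun t ht => fN_le_one n (hsp t ht))
    (fun l k hlk => by
      have e : vn k - vn l = x * cfc (fun t => hN k t - hN l t) a := by
        rw [hvn, cfc_sub (hN k) (hN l) a (hh k) (hh l), mul_sub]
      have h1 : n2 (vn k - vn l) ^ 2 =
          (tr (cfc (fun t => (hN k t - hN l t) * t * (hN k t - hN l t)) a)).re := by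
        rw [e]; exact n2_mul_cfc_sq x ((hh k).sub (hh l))
      have h2 : (tr (cfc (fN k) a)).re - (tr (cfc (fN l) a)).re =
          (tr (cfc (fun t => fN k t - fN l t) a)).re := by
        rw [cfc_sub (fN k) (fN l) a (hf k) (hf l), map_sub, Complex.sub_re]
      rw [h1, h2]
      apply tr_cfc_mono
      · exact (((hh k).sub (hh l)).mul hid).mul ((hh k).sub (hh l))
      · exact (hf k).sub (hf l)
      · exact fun t ht => fN_diff hlk (hsp t ht))
  have hvs : T2 atTop (fun n => star (vn n)) (star v) := hv.star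
  have hnvs : ∀ n, ‖star (vn n)‖ ≤ 1 := fun n => by rw [norm_star]; exact hnv n
  have hlim : T2 atTop (fun n => cfc (fN n) a) (star v * v) := by
    have := T2.mul hnvs hvs hv
    simpa only [hvv] using this
  -- `e = v* v` is a projection
  have hee : (star v * v) * (star v * v) = star v * v := by
    have h1 : T2 atTop (fun n => cfc (fN n) a - cfc (fN n) a * cfc (fN n) a)
        (star v * v - star v * v * (star v * v)) := hlim.sub (T2.mul hnf hlim hlim)
    have h2 : T2 atTop (fun n => cfc (fN n) a - cfc (fN n) a * cfc (fN n) a) 0 := by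
      have h3 : Tendsto (fun n => (tr (cfc (fN (2 * n + 1)) a)).re - (tr (cfc (fN n) a)).re)
          atTop (𝓝 0) := by
        have h4 : Tendsto (fun n => (tr (cfc (fN n) a)).re) atTop (𝓝 (tr (star v * v)).re) :=
          (Complex.continuous_re.tendsto _).comp hlim.tr
        have h5 : Tendsto (fun n : ℕ => 2 * n + 1) atTop atTop :=
          tendsto_atTop_mono (fun n => by show n ≤ 2 * n + 1; omega) tendsto_id
        have := (h4.comp h5).sub h4
        rwa [sub_self] at this
      refine T2.of_sq_le h3 (fun n => ?_)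
      have e1 : cfc (fN n) a - cfc (fN n) a * cfc (fN n) a =
          cfc (fun t => fN n t - fN n t * fN n t) a := by
        rw [cfc_sub (fN n) (fun t => fN n t * fN n t) a (hf n) ((hf n).mul (hf n)),
          cfc_mul (fN n) (fN n) a (hf n) (hf n)]
      have e2 : (tr (cfc (fN (2 * n + 1)) a)).re - (tr (cfc (fN n) a)).re =
          (tr (cfc (fun t => fN (2 * n + 1) t - fN n t) a)).re := by
        rw [cfc_sub (fN (2 * n + 1)) (fN n) a (hf _) (hf n), map_sub, Complex.sub_re]
      rw [sub_zero, e1, n2_cfc_sq (f := fun t => fN n t - fN n t * fN n t)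
        ((hf n).sub ((hf n).mul (hf n))), e2]
      apply tr_cfc_mono
      · exact ((hf n).sub ((hf n).mul (hf n))).mul ((hf n).sub ((hf n).mul (hf n)))
      · exact (hf _).sub (hf n)
      · exact fun t ht => fN_idem n (hsp t ht)
    have := h1.unique h2
    exact (sub_eq_zero.1 this).symm
  have hpi : v * star v * v = v := by
    have h0 : star (v - v * star v * v) * (v - v * star v * v) = 0 := by
      have : star (v - v * star v * v) * (v - v * star v * v) =
          star v * v - (star v * v) * (star v * v) - (star v * v) * (star v * v) +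
          (star v * v) * ((star v * v) * (star v * v)) := by
        simp only [star_sub, star_mul, star_star]; noncomm_ring
      rw [this, hee, hee]; abel
    exact (sub_eq_zero.1 ((CStarRing.star_mul_self_eq_zero_iff _).1 h0)).symm
  -- square root
  set s : M := cfc (fun t => Real.sqrt t) a with hs
  have hsq : ContinuousOn (fun t => Real.sqrt t) (spectrum ℝ a) := by fun_prop
  have hvx : star v * x = s := by
    have h1 : T2 atTop (fun n => star (vn n) * x) (star v * x) := hvs.mul_const x
    have h2 : T2 atTop (fun n => star (vn n) * x) s := by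
      refine T2.of_sq_le tendsto_one_div_nat (fun n => ?_)
      have e : star (vn n) * x = cfc (fun t => hN n t * t) a := by
        rw [hvn, star_mul, cfc_star_real, mul_assoc, cfc_mul (hN n) (fun t => t) a (hh n) hid,
          cfc_id' ℝ a]
      rw [e, hs, ← cfc_sub (fun t => hN n t * t) (fun t => Real.sqrt t) a ((hh n).mul hid) hsq,
        n2_cfc_sq (f := fun t => hN n t * t - Real.sqrt t) (((hh n).mul hid).sub hsq)]
      exact tr_cfc_le_one ((((hh n).mul hid).sub hsq).mul (((hh n).mul hid).sub hsq)) hsa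
        fun t ht => hN_sqrt n (hsp t ht)
    exact h1.unique h2
  have hvsx : v * s = x := by
    have h1 : T2 atTop (fun n => vn n * s) (v * s) := hv.mul_const s
    have h2 : T2 atTop (fun n => vn n * s) x := by
      refine T2.of_sq_le tendsto_one_div_nat (fun n => ?_)
      have e : vn n * s - x = - (x * cfc (fun t => 1 - hN n t * Real.sqrt t) a) := by
        rw [hvn, hs, cfc_sub (fun _ => (1 : ℝ)) (fun t => hN n t * Real.sqrt t) a continuousOn_const
          ((hh n).mul hsq), cfc_const_one ℝ a, cfc_mul (hN n) (fun t => Real.sqrt t) a (hh n) hsq]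
        noncomm_ring
      have hc : ContinuousOn (fun t => 1 - hN n t * Real.sqrt t) (spectrum ℝ a) :=
        continuousOn_const.sub ((hh n).mul hsq)
      rw [e, n2_neg, n2_mul_cfc_sq x hc]
      exact tr_cfc_le_one ((hc.mul hid).mul hc) hsa fun t ht => hN_sqrt' n (hsp t ht)
    exact h1.unique h2
  refine ⟨v, hv1, hpi, ?_, ?_, ?_, ?_, hv, hlim⟩
  · rw [mul_assoc, hvx, hvsx]
  · -- `x e = x` since `a e = a`
    have h1 : s * (star v * v) = s := by
      have : star (s * (star v * v)) = star s := by
        have hss : star s = s := cfc_star_real _ _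
        rw [star_mul, star_mul, star_star, hss, ← hvx, ← mul_assoc, mul_assoc (star v), ]
        rw [← mul_assoc, mul_assoc (star v) v (star v)]
        have : star v * (v * star v) = star v := by
          have := congrArg star hpi
          simpa only [star_mul, star_star, mul_assoc] using this
        rw [this]
      exact star_injective this
    calc x * (star v * v) = v * (s * (star v * v)) := by rw [← mul_assoc v s, hvsx]
      _ = x := by rw [h1, hvsx]
  · intro q hq
    have h1 : T2 atTop (fun n => q * vn n) (q * v) := hv.const_mul q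
    have h2 : T2 atTop (fun n => q * vn n) 0 := by
      have : (fun n => q * vn n) = fun _ => (0 : M) := by
        funext n; rw [hvn, ← mul_assoc, hq, zero_mul]
      rw [this]; exact T2.const 0
    exact h1.unique h2
  · intro q hq
    have h1 : T2 atTop (fun n => vn n * q) (v * q) := hv.mul_const q
    have h2 : T2 atTop (fun n => vn n * q) 0 := by
      have : (fun n => vn n * q) = fun _ => (0 : M) := by
        funext n
        apply (CStarRing.star_mul_self_eq_zero_iff _).1
        have e : star (vn n * q) * (vn n * q) = star q * (star (vn n) * vn n) * q := by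
          rw [star_mul]; noncomm_ring
        have e2 : cfc (fN n) a = cfc (fun t => hN n t * hN n t) a * a := by
          have : cfc (fN n) a = cfc (fun t => (hN n t * hN n t) * t) a := by
            apply cfc_congr; intro t _; show hN n t * t * hN n t = _; ring
          rw [this, cfc_mul (fun t => hN n t * hN n t) (fun t => t) a ((hh n).mul (hh n)) hid,
            cfc_id' ℝ a]
        rw [e, hvv, e2, mul_assoc, mul_assoc, ha, mul_assoc (star x), hq, mul_zero, mul_zero, mul_zero]
      rw [this]; exact T2.const 0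
    exact h1.unique h2

end TVN

end SCO
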