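import Pool.Agent.Work.MP_52dd0f_an.Comm

/-!
# Haar unitaries from dyadic trees of projections
-/

set_option linter.unusedSectionVars false

namespace SCO

open Filter Topology
open scoped ComplexOrder ComplexConjugate Real

universe u v

/-- `h` halves projections in the commutant of `S` -/
def IsHalving {M : Type u} [CStarAlgebra M] [TrC M] (S : Set M) (h : M → M) : Prop :=
  ∀ e, Co S e → IsProj e → Co S (h e) ∧ IsProj (h e) ∧ h e * e = h e ∧ tau (h e) = tau e / 2

/-- `∑_j exp(i(θ + j w / 2^n)) e_j` over the `n`-th level of the tree of projections below `e` -/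
noncomputable def Dn {M : Type u} [CStarAlgebra M] (h : M → M) : ℕ → M → ℝ → ℝ → M
  | 0, e, θ, _ => Complex.exp (θ * Complex.I) • e
  | n + 1, e, θ, w => Dn h n (h e) θ (w / 2) + Dn h n (e - h e) (θ + w / 2) (w / 2)

/-- `∏_{k=1}^n (1 + exp(i m w / 2^k)) / 2` -/
noncomputable def cf (m : ℕ) : ℕ → ℝ → ℂ
  | 0, _ => 1
  | n + 1, w => cf m n (w / 2) * ((1 + Complex.exp (m * (w / 2 : ℝ) * Complex.I)) / 2)

/-- Haar unitaries of the corner `e M e` -/
structure IsHaarIn {M : Type u} [CStarAlgebra M] [TrC M] (e d : M) : Prop where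
  src : star d * d = e
  rng : d * star d = e
  tr : ∀ m : ℕ, 1 ≤ m → tr (d ^ m) = 0

section

variable {M : Type u} [CStarAlgebra M] [TVN M] {S : Set M} {h : M → M}

theorem exists_halving (hN : NoMin S) : ∃ h : M → M, IsHalving S h := by
  classical
  have : ∀ e : M, ∃ r, (Co S e → IsProj e → Co S r ∧ IsProj r ∧ r * e = r ∧ tau r = tau e / 2) := by
    intro e
    by_cases he : Co S e ∧ IsProj e
    · obtain ⟨r, h1, h2, h3, h4⟩ := exists_tau_eq hN he.1 he.2 (s := tau e / 2)
        (by have := he.2.tau_nonneg; linarith) (by have := he.2.tau_nonneg; linarith)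
      exact ⟨r, fun _ _ => ⟨h1, h2, h3, h4⟩⟩
    · exact ⟨0, fun h1 h2 => absurd ⟨h1, h2⟩ he⟩
  choose h hh using this
  exact ⟨h, hh⟩

theorem IsHalving.rest (hh : IsHalving S h) {e : M} (heS : Co S e) (he : IsProj e) :
    Co S (e - h e) ∧ IsProj (e - h e) ∧ (e - h e) * e = e - h e ∧ tau (e - h e) = tau e / 2 ∧
    h e * (e - h e) = 0 ∧ (e - h e) * h e = 0 ∧ e * (e - h e) = e - h e ∧ e * h e = h e := by
  obtain ⟨h1, h2, h3, h4⟩ := hh e heS he
  have h5 := h2.mul_swap he h3
  refine ⟨heS.sub h1, h2.sub he h3, by rw [sub_mul, he.mul, h3], by rw [tau_sub, h4]; ring,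
    by rw [mul_sub, h3, h2.mul, sub_self], by rw [sub_mul, h5, h2.mul, sub_self],
    by rw [mul_sub, he.mul, h5], h5⟩

theorem Dn_spec (hh : IsHalving S h) (n : ℕ) : ∀ (e : M), Co S e → IsProj e → ∀ θ w : ℝ,
    Co S (Dn h n e θ w) ∧ e * Dn h n e θ w = Dn h n e θ w ∧ Dn h n e θ w * e = Dn h n e θ w ∧
    star (Dn h n e θ w) * Dn h n e θ w = e ∧ Dn h n e θ w * star (Dn h n e θ w) = e := by
  induction n with
  | zero =>
    intro e heS he θ w
    have hexp : conj (Complex.exp (θ * Complex.I)) * Complex.exp (θ * Complex.I) = 1 := by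
      rw [← Complex.exp_conj, ← Complex.exp_add]
      simp
    simp only [Dn]
    refine ⟨heS.smul _, by rw [mul_smul_comm, he.mul], by rw [smul_mul_assoc, he.mul], ?_, ?_⟩
    · rw [star_smul, smul_mul_assoc, mul_smul_comm, smul_smul, he.star, he.mul, Complex.star_def,
        hexp, one_smul]
    · rw [star_smul, smul_mul_assoc, mul_smul_comm, smul_smul, he.star, he.mul, Complex.star_def,
        mul_comm, hexp, one_smul]
  | succ n ih =>
    intro e heS he θ w
    obtain ⟨h1, h2, h3, h4⟩ := hh e heS he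
    obtain ⟨r1, r2, r3, r4, r5, r6, r7, r8⟩ := hh.rest heS he
    obtain ⟨a1, a2, a3, a4, a5⟩ := ih (h e) h1 h2 θ (w / 2)
    obtain ⟨b1, b2, b3, b4, b5⟩ := ih (e - h e) r1 r2 (θ + w / 2) (w / 2)
    simp only [Dn]
    set A := Dn h n (h e) θ (w / 2)
    set B := Dn h n (e - h e) (θ + w / 2) (w / 2)
    have e1 : star A * B = 0 := by
      rw [← a2, ← b2, star_mul, h2.star, mul_assoc, ← mul_assoc (h e), r5, zero_mul, mul_zero]
    have e2 : A * star B = 0 := by
      rw [← a3, ← b3, star_mul, r2.star, mul_assoc, ← mul_assoc (h e), r5, zero_mul, mul_zero]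
    have e1' : star B * A = 0 := by
      have := congrArg star e1; rwa [star_mul, star_star, star_zero] at this
    have e2' : B * star A = 0 := by
      have := congrArg star e2; rwa [star_mul, star_star, star_zero] at this
    refine ⟨a1.add b1, ?_, ?_, ?_, ?_⟩
    · rw [mul_add]
      congr 1
      · rw [← a2, ← mul_assoc, r8]
      · rw [← b2, ← mul_assoc, r7]
    · rw [add_mul]
      congr 1
      · rw [← a3, mul_assoc, h3]
      · rw [← b3, mul_assoc, r3]
    · rw [star_add, add_mul, mul_add, mul_add, e1, e1', a4, b4]; abel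
    · rw [star_add, add_mul, mul_add, mul_add, e2, e2', a5, b5]; abel

theorem add_pow_of_orthogonal {R : Type*} [Ring R] {a b : R} (h1 : a * b = 0) (h2 : b * a = 0)
    (m : ℕ) : (a + b) ^ (m + 1) = a ^ (m + 1) + b ^ (m + 1) := by
  induction m with
  | zero => simp
  | succ m ih =>
    have e1 : a ^ (m + 1) * b = 0 := by rw [pow_succ, mul_assoc, h1, mul_zero]
    have e2 : b ^ (m + 1) * a = 0 := by rw [pow_succ, mul_assoc, h2, mul_zero]
    rw [pow_succ, ih, add_mul, mul_add, mul_add, e1, e2, ← pow_succ, ← pow_succ]; abel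

theorem Dn_tr (hh : IsHalving S h) (m : ℕ) (hm : 1 ≤ m) (n : ℕ) : ∀ (e : M), Co S e → IsProj e →
    ∀ θ w : ℝ, tr (Dn h n e θ w ^ m) = tau e * Complex.exp (m * θ * Complex.I) * cf m n w := by
  obtain ⟨m, rfl⟩ : ∃ k, m = k + 1 := ⟨m - 1, by omega⟩
  induction n with
  | zero =>
    intro e heS he θ w
    simp only [Dn, cf, mul_one]
    have hpow : ∀ k : ℕ, e ^ (k + 1) = e := fun k => by
      induction k with
      | zero => simp
      | succ k ih => rw [pow_succ, ih, he.mul]
    rw [smul_pow, hpow, map_smul, he.tr_eq, smul_eq_mul, mul_comm, ← Complex.exp_nat_mul]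
    congr 2
    push_cast; ring
  | succ n ih =>
    intro e heS he θ w
    obtain ⟨h1, h2, h3, h4⟩ := hh e heS he
    obtain ⟨r1, r2, r3, r4, r5, r6, r7, r8⟩ := hh.rest heS he
    obtain ⟨a1, a2, a3, -, -⟩ := Dn_spec hh n (h e) h1 h2 θ (w / 2)
    obtain ⟨b1, b2, b3, -, -⟩ := Dn_spec hh n (e - h e) r1 r2 (θ + w / 2) (w / 2)
    have iA := ih (h e) h1 h2 θ (w / 2)
    have iB := ih (e - h e) r1 r2 (θ + w / 2) (w / 2)
    simp only [Dn, cf]
    have e1 : Dn h n (h e) θ (w / 2) * Dn h n (e - h e) (θ + w / 2) (w / 2) = 0 := by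
      rw [← a3, ← b2, mul_assoc, ← mul_assoc (h e), r5, zero_mul, mul_zero]
    have e2 : Dn h n (e - h e) (θ + w / 2) (w / 2) * Dn h n (h e) θ (w / 2) = 0 := by
      rw [← b3, ← a2, mul_assoc, ← mul_assoc (e - h e), r6, zero_mul, mul_zero]
    rw [add_pow_of_orthogonal e1 e2, map_add, iA, iB, h4, r4]
    have e3 : Complex.exp (((m + 1 : ℕ) : ℂ) * ((θ + w / 2 : ℝ) : ℂ) * Complex.I) =
        Complex.exp (((m + 1 : ℕ) : ℂ) * (θ : ℂ) * Complex.I) *
        Complex.exp (((m + 1 : ℕ) : ℂ) * ((w / 2 : ℝ) : ℂ) * Complex.I) := by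
      rw [← Complex.exp_add]; congr 1; push_cast; ring
    rw [e3]
    push_cast
    ring

theorem pythagoras {x y : M} (h : star x * y = 0) : n2 (x + y) ^ 2 = n2 x ^ 2 + n2 y ^ 2 := by
  have h' : star y * x = 0 := by
    have := congrArg star h; rwa [star_mul, star_star, star_zero] at this
  rw [n2_sq, n2_sq, n2_sq, star_add, add_mul, mul_add, mul_add, h, h']
  simp

theorem norm_exp_sub_le (θ w : ℝ) :
    ‖Complex.exp (((θ + w : ℝ) : ℂ) * Complex.I) - Complex.exp ((θ : ℂ) * Complex.I)‖ ≤ |w| := by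
  have h1 : Complex.exp (((θ + w : ℝ) : ℂ) * Complex.I) - Complex.exp ((θ : ℂ) * Complex.I) =
      Complex.exp ((θ : ℂ) * Complex.I) * (Complex.exp (Complex.I * (w : ℂ)) - 1) := by
    rw [mul_sub, ← Complex.exp_add, mul_one]; congr 2; push_cast; ring
  rw [h1, norm_mul, Complex.norm_exp_ofReal_mul_I, one_mul]
  exact Real.norm_exp_I_mul_ofReal_sub_one_le

theorem Dn_diff (hh : IsHalving S h) (n : ℕ) : ∀ (e : M), Co S e → IsProj e → ∀ θ w : ℝ,
    n2 (Dn h (n + 1) e θ w - Dn h n e θ w) ^ 2 ≤ (w / 2 ^ (n + 1)) ^ 2 * tau e := by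
  induction n with
  | zero =>
    intro e heS he θ w
    obtain ⟨h1, h2, h3, h4⟩ := hh e heS he
    obtain ⟨r1, r2, r3, r4, r5, r6, r7, r8⟩ := hh.rest heS he
    have e1 : Dn h (0 + 1) e θ w - Dn h 0 e θ w =
        (Complex.exp (((θ + w / 2 : ℝ) : ℂ) * Complex.I) - Complex.exp ((θ : ℂ) * Complex.I)) •
          (e - h e) := by
      simp only [Dn]
      push_cast
      module
    rw [e1, n2_smul, mul_pow, ← r2.tau_eq, r4]
    have h5 := norm_exp_sub_le θ (w / 2)
    have h6 : ‖Complex.exp (((θ + w / 2 : ℝ) : ℂ) * Complex.I) - Complex.exp ((θ : ℂ) * Complex.I)‖ ^ 2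
        ≤ (w / 2) ^ 2 := by
      rw [← sq_abs (w / 2)]
      exact pow_le_pow_left₀ (norm_nonneg _) h5 2
    have h7 := he.tau_nonneg
    have h8 : (w / 2 ^ (0 + 1)) ^ 2 = (w / 2) ^ 2 := by norm_num
    rw [h8]
    nlinarith [sq_nonneg (w / 2)]
  | succ n ih =>
    intro e heS he θ w
    obtain ⟨h1, h2, h3, h4⟩ := hh e heS he
    obtain ⟨r1, r2, r3, r4, r5, r6, r7, r8⟩ := hh.rest heS he
    have iA := ih (h e) h1 h2 θ (w / 2)
    have iB := ih (e - h e) r1 r2 (θ + w / 2) (w / 2)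
    obtain ⟨-, a2, -, -, -⟩ := Dn_spec hh n (h e) h1 h2 θ (w / 2)
    obtain ⟨-, b2, -, -, -⟩ := Dn_spec hh n (e - h e) r1 r2 (θ + w / 2) (w / 2)
    obtain ⟨-, a2', -, -, -⟩ := Dn_spec hh (n + 1) (h e) h1 h2 θ (w / 2)
    obtain ⟨-, b2', -, -, -⟩ := Dn_spec hh (n + 1) (e - h e) r1 r2 (θ + w / 2) (w / 2)
    have e1 : Dn h (n + 1 + 1) e θ w - Dn h (n + 1) e θ w =
        (Dn h (n + 1) (h e) θ (w / 2) - Dn h n (h e) θ (w / 2)) +
        (Dn h (n + 1) (e - h e) (θ + w / 2) (w / 2) - Dn h n (e - h e) (θ + w / 2) (w / 2)) := by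
      show (Dn h (n + 1) (h e) θ (w / 2) + Dn h (n + 1) (e - h e) (θ + w / 2) (w / 2)) -
        (Dn h n (h e) θ (w / 2) + Dn h n (e - h e) (θ + w / 2) (w / 2)) = _
      abel
    set X := Dn h (n + 1) (h e) θ (w / 2) - Dn h n (h e) θ (w / 2)
    set Y := Dn h (n + 1) (e - h e) (θ + w / 2) (w / 2) - Dn h n (e - h e) (θ + w / 2) (w / 2)
    have hX : h e * X = X := by rw [mul_sub, a2, a2']
    have hY : (e - h e) * Y = Y := by rw [mul_sub, b2, b2']
    have hXY : star X * Y = 0 := by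
      rw [← hX, ← hY, star_mul, h2.star, mul_assoc, ← mul_assoc (h e), r5, zero_mul, mul_zero]
    rw [e1, pythagoras hXY]
    rw [h4] at iA
    rw [r4] at iB
    have h5 : (w / 2 / 2 ^ (n + 1)) ^ 2 = (w / 2 ^ (n + 1 + 1)) ^ 2 := by
      congr 1; rw [pow_succ 2 (n + 1)]; field_simp
    rw [h5] at iA iB
    linarith

theorem cf_eq_zero {m n : ℕ} (hm : 1 ≤ m) : ∀ {k : ℕ}, m < 2 ^ n → n ≤ k →
    cf m k (2 * π) = 0 := by
  -- general statement: if `m * w = π * 2^(j+1) * odd` then level `> j` vanishes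
  have key : ∀ (j : ℕ) (w : ℝ), (∃ r : ℤ, (m : ℝ) * w = π * 2 ^ (j + 1) * (2 * r + 1)) →
      ∀ k, j < k → cf m k w = 0 := by
    intro j
    induction j with
    | zero =>
      rintro w ⟨r, hr⟩ k hk
      obtain ⟨k, rfl⟩ : ∃ l, k = l + 1 := ⟨k - 1, by omega⟩
      rw [cf]
      have h1 : (m : ℂ) * ((w / 2 : ℝ) : ℂ) * Complex.I = (r : ℂ) * (2 * π * Complex.I) + π * Complex.I := by
        have h2 : (m : ℝ) * (w / 2) = π * (2 * r + 1) := by
          have : (m : ℝ) * w / 2 = π * (2 * r + 1) := by rw [hr]; ring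
          linarith
        have h3 : (m : ℂ) * ((w / 2 : ℝ) : ℂ) = ((π * (2 * r + 1) : ℝ) : ℂ) := by
          rw [← h2]; push_cast; ring
        rw [h3]; push_cast; ring
      rw [h1, Complex.exp_add, Complex.exp_int_mul_two_pi_mul_I, Complex.exp_pi_mul_I]
      ring
    | succ j ih =>
      rintro w ⟨r, hr⟩ k hk
      obtain ⟨k, rfl⟩ : ∃ l, k = l + 1 := ⟨k - 1, by omega⟩
      rw [cf, ih (w / 2) ⟨r, by
        have : (m : ℝ) * (w / 2) = (m : ℝ) * w / 2 := by ring
        rw [this, hr, pow_succ 2 (j + 1)]; ring⟩ k (by omega), zero_mul]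
  intro k hmn hnk
  obtain ⟨j, q, hq, hmq⟩ : ∃ j q : ℕ, ¬ 2 ∣ q ∧ m = 2 ^ j * q :=
    Nat.exists_eq_pow_mul_and_not_dvd (by omega) 2 (by norm_num)
  obtain ⟨r, hr⟩ : ∃ r, q = 2 * r + 1 := by
    have : q % 2 = 1 := by omega
    exact ⟨q / 2, by omega⟩
  apply key j
  · refine ⟨(r : ℤ), ?_⟩
    rw [hmq, hr]; push_cast; ring
  · have h1 : 2 ^ j ≤ m := by
      rw [hmq]; exact Nat.le_mul_of_pos_right _ (by omega)
    have h2 : 2 ^ j < 2 ^ n := lt_of_le_of_lt h1 hmn
    have := (Nat.pow_lt_pow_iff_right (by norm_num : 1 < 2)).1 h2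
    omega

/-- the tree approximations converge to a Haar unitary of the corner -/
theorem tree_limit (hh : IsHalving S h) {e : M} (heS : Co S e) (he : IsProj e) :
    ∃ d : M, Co S d ∧ IsHaarIn e d ∧ ∀ n, n2 (d - Dn h n e 0 (2 * π)) ≤ 2 * π / 2 ^ n := by
  set x : ℕ → M := fun n => Dn h n e 0 (2 * π) with hx
  have hspec := fun n => Dn_spec hh n e heS he 0 (2 * π)
  have hnorm : ∀ n, ‖x n‖ ≤ 1 := fun n => by
    have h1 := he.norm_le
    rw [← (hspec n).2.2.2.1, CStarRing.norm_star_mul_self] at h1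
    show ‖Dn h n e 0 (2 * π)‖ ≤ 1
    nlinarith [norm_nonneg (Dn h n e 0 (2 * π))]
  have hstep : ∀ n, n2 (x (n + 1) - x n) ≤ 2 * π / 2 ^ (n + 1) := fun n => by
    have h1 := Dn_diff hh n e heS he 0 (2 * π)
    have h2 := he.tau_le_one
    have h3 : n2 (x (n + 1) - x n) ^ 2 ≤ (2 * π / 2 ^ (n + 1)) ^ 2 := h1.trans (by
      nlinarith [sq_nonneg (2 * π / 2 ^ (n + 1))])
    exact abs_le_of_sq_le_sq' h3 (by positivity) |>.2
  have hdist : ∀ l k, l ≤ k → n2 (x k - x l) ≤ 2 * π / 2 ^ l - 2 * π / 2 ^ k := by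
    intro l k hlk
    induction k, hlk using Nat.le_induction with
    | base => simp
    | succ k hk ih =>
      have h1 := n2_triangle (x (k + 1)) (x k) (x l)
      have h2 := hstep k
      have h3 : 2 * π / 2 ^ k = 2 * (2 * π / 2 ^ (k + 1)) := by
        rw [pow_succ]; field_simp
      linarith
  obtain ⟨d, hd1, hd⟩ := exists_limit (x := x) hnorm (fun ε hε => by
    obtain ⟨N, hN⟩ : ∃ N : ℕ, 2 * π / 2 ^ N < ε := by
      have : Tendsto (fun k : ℕ => 2 * π / 2 ^ k) atTop (𝓝 0) := by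
        have h1 := (tendsto_pow_atTop_nhds_zero_of_lt_one (by norm_num : (0:ℝ) ≤ 1/2)
          (by norm_num)).const_mul (2 * π)
        rw [mul_zero] at h1
        refine h1.congr fun k => ?_
        rw [one_div, inv_pow, div_eq_mul_inv]
      exact (this.eventually (gt_mem_nhds hε)).exists
    refine ⟨N, ?_⟩
    have key : ∀ k l, N ≤ l → l ≤ k → n2 (x k - x l) < ε := fun k l hl hlk => by
      have h1 := hdist l k hlk
      have h2 : 2 * π / 2 ^ l ≤ 2 * π / 2 ^ N := by
        apply div_le_div_of_nonneg_left (by positivity) (by positivity)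
        exact pow_le_pow_right₀ (by norm_num) hl
      have h3 : 0 < 2 * π / 2 ^ k := by positivity
      linarith
    intro k hk l hl
    rcases le_total l k with hlk | hlk
    · exact key k l hl hlk
    · rw [n2_sub_comm]; exact key l k hk hlk)
  have hds := hd.star
  have hnorms : ∀ n, ‖star (x n)‖ ≤ 1 := fun n => by rw [norm_star]; exact hnorm n
  refine ⟨d, Co.of_T2 (fun n => (hspec n).1) hd, ⟨?_, ?_, ?_⟩, fun n => ?_⟩
  · have h1 := T2.mul hnorms hds hd
    have h2 : (fun k => star (x k) * x k) = fun _ => e := funext fun k => (hspec k).2.2.2.1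
    rw [h2] at h1
    exact h1.unique (T2.const e)
  · have h1 := T2.mul hnorm hd hds
    have h2 : (fun k => x k * star (x k)) = fun _ => e := funext fun k => (hspec k).2.2.2.2
    rw [h2] at h1
    exact h1.unique (T2.const e)
  · intro m hm
    have hpow : ∀ m : ℕ, T2 atTop (fun n => x n ^ m) (d ^ m) := by
      intro m
      induction m with
      | zero => simp only [pow_zero]; exact T2.const 1
      | succ m ih =>
        simp only [pow_succ]
        refine T2.mul (C := 1) (fun k => ?_) ih hd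
        calc ‖x k ^ m‖ ≤ ‖x k‖ ^ m := norm_pow_le _ _
          _ ≤ 1 := pow_le_one₀ (norm_nonneg _) (hnorm k)
    have h1 := (hpow m).tr
    have h2 : Tendsto (fun n => tr (x n ^ m)) atTop (𝓝 0) := by
      refine tendsto_const_nhds.congr' ?_
      have hlt : m < 2 ^ m := Nat.lt_two_pow_self
      filter_upwards [eventually_ge_atTop m] with n hn
      show 0 = tr (Dn h n e 0 (2 * π) ^ m)
      rw [Dn_tr hh m hm n e heS he 0 (2 * π), cf_eq_zero hm hlt hn, mul_zero]
    exact tendsto_nhds_unique h1 h2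
  · have h1 : Tendsto (fun k => n2 (x k - x n)) atTop (𝓝 (n2 (d - x n))) := (hd.sub (T2.const (x n))).n2
    refine le_of_tendsto h1 ?_
    filter_upwards [eventually_ge_atTop n] with k hk
    have h2 := hdist n k hk
    have h3 : 0 < 2 * π / 2 ^ k := by positivity
    linarith

end

section

variable {M : Type u} [CStarAlgebra M] [TVN M] [FactorII M] {S S' : Set M} {h h' : M → M}

/-- projections of the same trace are equivalent -/
theorem equiv_of_tau {e f : M} (he : IsProj e) (hf : IsProj f) (ht : tau e = tau f) :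
    ∃ v : M, star v * v = e ∧ v * star v = f := by
  obtain ⟨v, h1, h2, h3⟩ := compare he hf ht.le
  refine ⟨v, h1, ?_⟩
  have hq := pi_rng h3
  apply eq_of_le_of_tau hq hf (hq.mul_swap' hf (by rw [← mul_assoc, h2]))
  rw [← pi_tau, h1, ht]

/-- trees of the same trace are conjugate level by level -/
theorem tree_conj (hh : IsHalving S h) (hh' : IsHalving S' h') (n : ℕ) :
    ∀ e e' : M, Co S e → IsProj e → Co S' e' → IsProj e' → tau e = tau e' → ∀ θ w : ℝ,
    ∃ g : M, star g * g = e ∧ g * star g = e' ∧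
      g * Dn h n e θ w * star g = Dn h' n e' θ w := by
  induction n with
  | zero =>
    intro e e' heS he heS' he' ht θ w
    obtain ⟨v, h1, h2⟩ := equiv_of_tau he he' ht
    refine ⟨v, h1, h2, ?_⟩
    simp only [Dn]
    rw [mul_smul_comm, smul_mul_assoc, pi_mul_src he h1, h2]
  | succ n ih =>
    intro e e' heS he heS' he' ht θ w
    obtain ⟨h1, h2, h3, h4⟩ := hh e heS he
    obtain ⟨r1, r2, r3, r4, r5, r6, r7, r8⟩ := hh.rest heS he
    obtain ⟨k1, k2, k3, k4⟩ := hh' e' heS' he'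
    obtain ⟨s1, s2, s3, s4, s5, s6, s7, s8⟩ := hh'.rest heS' he'
    obtain ⟨g, g1, g2, g3⟩ := ih (h e) (h' e') h1 h2 k1 k2 (by rw [h4, k4, ht]) θ (w / 2)
    obtain ⟨f, f1, f2, f3⟩ := ih (e - h e) (e' - h' e') r1 r2 s1 s2 (by rw [r4, s4, ht])
      (θ + w / 2) (w / 2)
    obtain ⟨-, a2, a3, -, -⟩ := Dn_spec hh n (h e) h1 h2 θ (w / 2)
    obtain ⟨-, b2, b3, -, -⟩ := Dn_spec hh n (e - h e) r1 r2 (θ + w / 2) (w / 2)
    have hg1 := pi_mul_src h2 g1
    have hg2 := pi_mul_rng h2 g1 g2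
    have hf1 := pi_mul_src r2 f1
    have hf2 := pi_mul_rng r2 f1 f2
    have c1 : star g * f = 0 := by
      rw [← hg2, ← hf2, star_mul, k2.star, mul_assoc, ← mul_assoc (h' e'), s5, zero_mul, mul_zero]
    have c1' : star f * g = 0 := by
      have := congrArg star c1; rwa [star_mul, star_star, star_zero] at this
    have c2 : g * star f = 0 := by
      rw [← hg1, ← hf1, star_mul, r2.star, mul_assoc, ← mul_assoc (h e), r5, zero_mul, mul_zero]
    have c2' : f * star g = 0 := by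
      have := congrArg star c2; rwa [star_mul, star_star, star_zero] at this
    refine ⟨g + f, ?_, ?_, ?_⟩
    · rw [star_add, add_mul, mul_add, mul_add, c1, c1', g1, f1]; abel
    · rw [star_add, add_mul, mul_add, mul_add, c2, c2', g2, f2]; abel
    · simp only [Dn]
      set A := Dn h n (h e) θ (w / 2)
      set B := Dn h n (e - h e) (θ + w / 2) (w / 2)
      have d1 : g * B = 0 := by
        rw [← hg1, ← b2, mul_assoc, ← mul_assoc (h e), r5, zero_mul, mul_zero]
      have d2 : f * A = 0 := by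
        rw [← hf1, ← a2, mul_assoc, ← mul_assoc (e - h e), r6, zero_mul, mul_zero]
      have d3 : A * star f = 0 := by
        rw [← a3, ← hf1, star_mul, r2.star, mul_assoc, ← mul_assoc (h e), r5, zero_mul, mul_zero]
      have d4 : B * star g = 0 := by
        rw [← b3, ← hg1, star_mul, h2.star, mul_assoc, ← mul_assoc (e - h e), r6, zero_mul, mul_zero]
      calc (g + f) * (A + B) * star (g + f)
          = g * A * star g + f * B * star f + g * (A * star f) + (g * B) * star (g + f)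
            + (f * A) * star (g + f) + f * (B * star g) := by rw [star_add]; noncomm_ring
        _ = _ := by rw [d1, d2, d3, d4, g3, f3]; simp

end

end SCO
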