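import Pool.Agent.Work.MP_52dd0f_an.Up

/-!
# Uniform chain length and the passing-up theorem
-/

set_option linter.unusedSectionVars false

namespace SCO

open Filter Topology
open scoped ComplexOrder ComplexConjugate Real

universe u v

section

variable {M : Type u} [CStarAlgebra M] [TVN M] [FactorII M]

/-- every unitary is a bounded product of unitaries close to `1` -/
theorem uniform_of_ball {u : M} (hu : HaarU u) {δ : ℝ} (hδ : 0 < δ) {N : ℕ}
    (hball : Metric.ball (1 : UG M) δ ⊆ Stb u N) : ∃ L, ∀ g : UG M, g ∈ Stb u L := by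
  obtain ⟨m, hm⟩ := exists_nat_gt (4 / δ ^ 2)
  have hm0 : (0 : ℝ) < m := lt_of_le_of_lt (by positivity) hm
  refine ⟨m * (N + 1), fun g => ?_⟩
  have hS := commSet_unitary g.val_star_mul g.val_mul_star
  have hN := noMin_of_commute hS.star hS.comm
  obtain ⟨r, hrS, hr, hrt, hro, hrs⟩ := exists_partition hN (1 / m) (by positivity) m 1 Co.one
    IsProj.one (by rw [tau_one]; field_simp)
  have hgr : ∀ i, g.val * r i = r i * g.val := fun i => hrS i _ (Or.inl rfl)
  have hgr' : ∀ i, star g.val * r i = r i * star g.val := fun i => hrS i _ (Or.inr rfl)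
  have key := gen_graded (P := fun n x => ∃ f : UG M, f.val = x ∧ f ∈ Stb u n) (N := N) hro hrs hgr
    ⟨1, rfl, Stb.one_mem hu⟩
    (fun a b x y ⟨f, hf, hfa⟩ ⟨f', hf', hfb⟩ => ⟨f * f', by rw [UG.val_mul, hf, hf'],
      Stb.mul_mem hfa hfb⟩) (fun i => by
      have hp := hr i
      have hz : r i * (1 - r i) = 0 := by rw [mul_sub, mul_one, hp.mul, sub_self]
      have hz' : (1 - r i) * r i = 0 := by rw [sub_mul, one_mul, hp.mul, sub_self]
      have a1 : star (g.val * r i) * (1 - r i) = 0 := by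
        rw [star_mul, hp.star, ← hgr', mul_assoc, hz, mul_zero]
      have a2 : (1 - r i) * (g.val * r i) = 0 := by rw [hgr, ← mul_assoc, hz', zero_mul]
      have a3 : (g.val * r i) * (1 - r i) = 0 := by rw [mul_assoc, hz, mul_zero]
      have a4 : (1 - r i) * star (g.val * r i) = 0 := by
        rw [star_mul, hp.star, ← mul_assoc, hz', zero_mul]
      have b1 : star (g.val * r i + (1 - r i)) * (g.val * r i + (1 - r i)) = 1 := by
        rw [star_add, hp.compl.star, add_mul, mul_add, mul_add, a1, a2, hp.compl.mul]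
        have : star (g.val * r i) * (g.val * r i) = r i := by
          calc star (g.val * r i) * (g.val * r i) = r i * (star g.val * g.val) * r i := by
                rw [star_mul, hp.star]; noncomm_ring
            _ = r i := by rw [g.val_star_mul, mul_one, hp.mul]
        rw [this]; abel
      have b2 : (g.val * r i + (1 - r i)) * star (g.val * r i + (1 - r i)) = 1 := by
        rw [star_add, hp.compl.star, add_mul, mul_add, mul_add, a3, a4, hp.compl.mul]
        have : (g.val * r i) * star (g.val * r i) = r i := by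
          calc (g.val * r i) * star (g.val * r i) = g.val * (r i * r i) * star g.val := by
                rw [star_mul, hp.star]; noncomm_ring
            _ = r i := by rw [hp.mul, hgr, mul_assoc, g.val_mul_star, mul_one]
        rw [this]; abel
      refine ⟨UG.mk _ b1 b2, rfl, hball ?_⟩
      rw [Metric.mem_ball, UG.dist_def, UG.val_mk, UG.val_one]
      have e1 : g.val * r i + (1 - r i) - 1 = (g.val - 1) * r i := by noncomm_ring
      have e2 : n2 ((g.val - 1) * r i) ≤ 2 * n2 (r i) := by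
        refine (n2_mul_le_left _ _).trans (mul_le_mul_of_nonneg_right ?_ (n2_nonneg _))
        have h1 := norm_sub_le g.val 1
        have h2 := g.norm_val_le
        rw [norm_one] at h1
        linarith
      have e3 : n2 (r i) ^ 2 = 1 / m := by rw [← hp.tau_eq, hrt]
      rw [e1]
      refine e2.trans_lt ?_
      have e4 : (2 * n2 (r i)) ^ 2 < δ ^ 2 := by
        rw [mul_pow, e3]
        rw [div_lt_iff₀ (by positivity)] at hm
        rw [mul_one_div, div_lt_iff₀ hm0]
        linarith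
      exact lt_of_pow_lt_pow_left₀ 2 hδ.le e4)
  obtain ⟨f, hf, hfL⟩ := key
  rwa [← UG.val_injective hf]

/-- a dichotomy for the stabiliser pieces of a Haar unitary -/
theorem stab_dichotomy {u : M} (hu : HaarU u) :
    (∃ L, ∀ g : UG M, g ∈ Stb u L) ∨ ∀ n, interior (Stb u n) = ∅ := by
  by_cases h : ∀ n, interior (Stb u n) = ∅
  · exact Or.inr h
  · left
    push Not at h
    obtain ⟨n, hn⟩ := h
    obtain ⟨δ, hδ, hball⟩ := Stb.ball_of_interior (Set.nonempty_iff_ne_empty.2 hn.ne_empty)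
    exact uniform_of_ball hu hδ hball

theorem exists_tree (u : M) (hu : HaarU u) : ∃ (S : Set M) (h : M → M) (d : M), IsHalving S h ∧
    Co S (1 : M) ∧ HaarU d ∧ u * d = d * u ∧ ∀ n, n2 (d - Dn h n 1 0 (2 * π)) ≤ 2 * π / 2 ^ n := by
  have hS := commSet_unitary hu.isom hu.coisom
  obtain ⟨h, hh⟩ := exists_halving (noMin_of_commute hS.star hS.comm)
  obtain ⟨d, hd1, hd2, hd3⟩ := tree_limit hh Co.one IsProj.one
  exact ⟨_, h, d, hh, Co.one, hd2.haarU, hd1 u (Or.inl rfl), hd3⟩

theorem exists_haarU : ∃ u : M, HaarU u := by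
  have hS : NoMin (∅ : Set M) := noMin_of_commute (fun s hs => absurd hs (by simp))
    (fun s hs => absurd hs (by simp))
  obtain ⟨h, hh⟩ := exists_halving hS
  obtain ⟨d, hd1, hd2, hd3⟩ := tree_limit hh Co.one IsProj.one
  exact ⟨d, hd2.haarU⟩

/-- uniform stabilisers give one orbit -/
theorem conn_of_uniform {u : M} (hu : HaarU u) {L : ℕ} (hL : ∀ g : UG M, g ∈ Stb u L) :
    ∀ v : M, HaarU v → ∃ n, Conn n u v := by
  intro v hv
  obtain ⟨S, h, d, hh, hS1, hd, hud, hdn⟩ := exists_tree u hu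
  obtain ⟨S', h', d', hh', hS1', hd', hvd', hdn'⟩ := exists_tree v hv
  -- the stabiliser of `d` is also uniform
  have hc0 : Conn 0 u d := Conn.of_commute hu hd hud
  have hLd : ∀ g : UG M, Conn (0 + L + 1 + 0 + 1) d (cj g d) := fun g =>
    (hc0.symm.trans (hL g)).trans (hc0.cj g)
  choose g hg1 hg2 hg3 using fun n => tree_conj hh hh' n 1 1 hS1 IsProj.one hS1' IsProj.one rfl 0 (2 * π)
  have hconn : Conn (0 + L + 1 + 0 + 1) d d' := by
    refine Conn.of_T2 (l := atTop) (x := fun _ : ℕ => d) (y := fun n => cj (UG.mk (g n) (hg1 n) (hg2 n)) d)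
      hd hd' (T2.const d) ?_ (fun n => hLd _)
    have hb : Tendsto (fun n : ℕ => 2 * π / 2 ^ n + 2 * π / 2 ^ n) atTop (𝓝 (0 + 0)) := by
      have : Tendsto (fun k : ℕ => 2 * π / 2 ^ k) atTop (𝓝 0) := by
        have h1 := (tendsto_pow_atTop_nhds_zero_of_lt_one (by norm_num : (0:ℝ) ≤ 1/2)
          (by norm_num)).const_mul (2 * π)
        rw [mul_zero] at h1
        refine h1.congr fun k => ?_
        rw [one_div, inv_pow, div_eq_mul_inv]
      exact this.add this
    rw [add_zero] at hb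
    refine T2.squeeze hb (fun n => ?_)
    show n2 (g n * d * star (g n) - d') ≤ _
    have e1 : g n * d * star (g n) - d' = g n * (d - Dn h n 1 0 (2 * π)) * star (g n) -
        (d' - Dn h' n 1 0 (2 * π)) := by
      rw [← hg3 n]; noncomm_ring
    rw [e1]
    refine (n2_sub_le _ _).trans (add_le_add ?_ (hdn' n))
    rw [n2_conj (hg1 n)]
    exact hdn n
  exact ⟨_, (hc0.trans hconn).trans (Conn.of_commute hv hd' hvd').symm⟩

theorem oneOrbit_of_uniform {u : M} (hu : HaarU u) {L : ℕ} (hL : ∀ g : UG M, g ∈ Stb u L) :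
    OneOrbit M := by
  intro v w hv hw
  obtain ⟨n, hn⟩ := conn_of_uniform hu hL v hv
  obtain ⟨m, hm⟩ := conn_of_uniform hu hL w hw
  exact ⟨_, hn.symm.trans hm⟩

/-- **Passing up**: if a corner has one orbit then so has the whole factor. -/
theorem oneOrbit_of_corner {K : Type u} [CStarAlgebra K] [TVN K] {φ : K →⋆ₙₐ[ℂ] M} {e : M}
    (hφ : CornerMap φ e) (hK : OneOrbit K) : OneOrbit M := by
  obtain ⟨u, hu⟩ := exists_haarU (M := M)
  rcases stab_dichotomy hu with ⟨L, hL⟩ | h
  · exact oneOrbit_of_uniform hu hL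
  · exfalso
    have hU : (⋃ n, Stb u n) = Set.univ := by
      rw [Set.eq_univ_iff_forall]
      intro g
      obtain ⟨-, -, n, hn⟩ := stab_all hφ hK hu g.val_star_mul g.val_mul_star
      exact Set.mem_iUnion.2 ⟨n, hn⟩
    obtain ⟨n, hn⟩ := nonempty_interior_of_iUnion_of_closed (fun n => Stb.isClosed hu n) hU
    rw [h n] at hn
    exact Set.not_nonempty_empty hn

/-- **Dichotomy**: one orbit or continuum many. -/
theorem numOrbits_dichotomy {𝒰 : Ultrafilter ℕ} (h𝒰 : (𝒰 : Filter ℕ) ≤ atTop)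
    (hsep : IsSeparable₂ (tr : M →ₗ[ℂ] ℂ)) :
    (OneOrbit M ∧ numOrbits 𝒰 (tr : M →ₗ[ℂ] ℂ) = 1) ∨
    (¬ OneOrbit M ∧ numOrbits 𝒰 (tr : M →ₗ[ℂ] ℂ) = Cardinal.continuum.{u}) := by
  obtain ⟨u, hu⟩ := exists_haarU (M := M)
  rcases stab_dichotomy hu with ⟨L, hL⟩ | h
  · left
    have h1 := oneOrbit_of_uniform hu hL
    refine ⟨h1, (numOrbits_eq_one_iff h𝒰).2 ⟨⟨hu.toHaar⟩, fun a b => ?_⟩⟩
    exact (seqComm_iff h𝒰).2 (h1 _ _ a.haarU b.haarU)
  · right
    have h1 := numOrbits_eq_continuum h𝒰 hsep hu h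
    refine ⟨fun h2 => ?_, h1⟩
    have h3 : numOrbits 𝒰 (tr : M →ₗ[ℂ] ℂ) = 1 :=
      (numOrbits_eq_one_iff h𝒰).2 ⟨⟨hu.toHaar⟩, fun a b =>
        (seqComm_iff h𝒰).2 (h2 _ _ a.haarU b.haarU)⟩
    rw [h3] at h1
    exact absurd h1.symm (by
      have := Cardinal.one_lt_aleph0.trans Cardinal.aleph0_lt_continuum
      exact this.ne')

end

end SCO
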