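import Pool.Agent.Work.MP_52dd0f_an.Corner

/-!
# Passing one orbit from a corner to the whole factor: the stabiliser is everything
-/

set_option linter.unusedSectionVars false

namespace SCO

open Filter Topology
open scoped ComplexOrder ComplexConjugate

universe u v

section

variable {M : Type u} [CStarAlgebra M] [TVN M]

/-- commutative star-closed sets -/
structure CommSet (S : Set M) : Prop where
  star : StarClosed S
  comm : ∀ s ∈ S, ∀ t ∈ S, s * t = t * s

theorem CommSet.insert {S : Set M} (hS : CommSet S) {e : M} (he : IsProj e) (heS : Co S e) :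
    CommSet (insert e S) := by
  constructor
  · intro s hs
    rcases Set.mem_insert_iff.1 hs with rfl | hs
    · rw [he.star]; exact Set.mem_insert _ _
    · exact Set.mem_insert_of_mem _ (hS.star s hs)
  · intro s hs t ht
    rcases Set.mem_insert_iff.1 hs with h1 | hs <;> rcases Set.mem_insert_iff.1 ht with h2 | ht
    · rw [h1, h2]
    · rw [h1]; exact (heS t ht).symm
    · rw [h2]; exact heS s hs
    · exact hS.comm s hs t ht

theorem Co.of_insert {S : Set M} {e x : M} (h : Co (insert e S) x) : Co S x :=
  fun s hs => h s (Set.mem_insert_of_mem _ hs)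

theorem Co.comm_insert {S : Set M} {e x : M} (h : Co (insert e S) x) : e * x = x * e :=
  h e (Set.mem_insert _ _)

theorem Co.insert {S : Set M} {e x : M} (h : Co S x) (he : e * x = x * e) : Co (insert e S) x :=
  fun s hs => by
    rcases Set.mem_insert_iff.1 hs with rfl | hs
    · exact he
    · exact h s hs

theorem commSet_unitary {u : M} (h1 : star u * u = 1) (h2 : u * star u = 1) :
    CommSet ({u, star u} : Set M) := by
  constructor
  · intro s hs
    rcases hs with rfl | hs
    · exact Or.inr rfl
    · rw [Set.mem_singleton_iff.1 hs, star_star]; exact Or.inl rfl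
  · intro s hs t ht
    rcases hs with rfl | hs <;> rcases ht with rfl | ht
    · rfl
    · rw [Set.mem_singleton_iff.1 ht, h1, h2]
    · rw [Set.mem_singleton_iff.1 hs, h1, h2]
    · rw [Set.mem_singleton_iff.1 hs, Set.mem_singleton_iff.1 ht]

theorem co_pair {u x : M} (h1 : u * x = x * u) (h2 : star u * x = x * star u) :
    Co ({u, star u} : Set M) x := by
  intro s hs
  rcases hs with rfl | hs
  · exact h1
  · rw [Set.mem_singleton_iff.1 hs]; exact h2

/-- an orthogonal partition in a commutant -/
theorem exists_partition {S : Set M} (hN : NoMin S) (c : ℝ) (hc : 0 ≤ c) (k : ℕ) : ∀ q : M, Co S q →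
    IsProj q → tau q = k * c → ∃ e : Fin k → M, (∀ i, Co S (e i)) ∧ (∀ i, IsProj (e i)) ∧
      (∀ i, tau (e i) = c) ∧ (∀ i j, i ≠ j → e i * e j = 0) ∧ ∑ i, e i = q := by
  induction k with
  | zero =>
    intro q _ hq ht
    refine ⟨fun i => i.elim0, fun i => i.elim0, fun i => i.elim0, fun i => i.elim0,
      fun i => i.elim0, ?_⟩
    rw [hq.eq_zero (by rw [ht]; simp)]; simp
  | succ k ih =>
    intro q hqS hq ht
    push_cast at ht
    obtain ⟨r, hrS, hr, hrq, hrt⟩ := exists_tau_eq hN hqS hq hc (by rw [ht]; nlinarith [(Nat.cast_nonneg k : (0:ℝ) ≤ k)])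
    obtain ⟨e, h1, h2, h3, h4, h5⟩ := ih (q - r) (hqS.sub hrS) (hr.sub hq hrq)
      (by rw [tau_sub, ht, hrt]; ring)
    have hre : ∀ i, r * e i = 0 := fun i => by
      have h6 : (q - r) * e i = e i := by
        rw [← h5, Finset.sum_mul, Finset.sum_eq_single i]
        · exact (h2 i).mul
        · intro j _ hj; exact h4 j i hj
        · simp
      rw [← h6, ← mul_assoc, mul_sub, hrq, hr.mul, sub_self, zero_mul]
    refine ⟨Fin.cons r e, fun i => ?_, fun i => ?_, fun i => ?_, fun i j => ?_, ?_⟩
    · refine Fin.cases ?_ (fun i => ?_) i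
      · exact hrS
      · exact h1 i
    · refine Fin.cases ?_ (fun i => ?_) i
      · exact hr
      · exact h2 i
    · refine Fin.cases ?_ (fun i => ?_) i
      · exact hrt
      · exact h3 i
    · refine Fin.cases ?_ (fun i => ?_) i <;> refine Fin.cases ?_ (fun j => ?_) j
      · intro h; exact absurd rfl h
      · intro _; exact hre j
      · intro _; exact hr.mul_zero_swap (h2 i) (hre i)
      · intro h; exact h4 i j (fun h' => h (by rw [h']))
    · rw [Fin.sum_univ_succ]
      simp only [Fin.cons_zero, Fin.cons_succ]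
      rw [h5]; abel

/-- an element commuting with a partition of unity is a product of its pieces (graded form) -/
theorem gen_graded {k : ℕ} {e : Fin k → M}
    (ho : ∀ i j, i ≠ j → e i * e j = 0) (hs : ∑ i, e i = 1) {g : M} (hg : ∀ i, g * e i = e i * g)
    {P : ℕ → M → Prop} {N : ℕ} (h1 : P 0 1) (hmul : ∀ a b x y, P a x → P b y → P (a + b + 1) (x * y))
    (hP : ∀ i, P N (g * e i + (1 - e i))) : P (k * (N + 1)) g := by
  classical
  have key : ∀ s : Finset (Fin k), P (s.card * (N + 1)) (g * ∑ i ∈ s, e i + (1 - ∑ i ∈ s, e i)) := by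
    intro s
    induction s using Finset.induction_on with
    | empty => simpa using h1
    | insert a s ha ih =>
      rw [Finset.sum_insert ha, Finset.card_insert_of_notMem ha]
      set f := ∑ i ∈ s, e i with hf
      have h2 : e a * f = 0 := by
        rw [hf, Finset.mul_sum]
        exact Finset.sum_eq_zero fun i hi => ho a i (fun h => ha (h ▸ hi))
      have h4 : g * (e a + f) + (1 - (e a + f)) = (g * e a + (1 - e a)) * (g * f + (1 - f)) := by
        have e1 : g * e a * (g * f) = 0 := by
          calc g * e a * (g * f) = g * (e a * g) * f := by noncomm_ring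
            _ = g * g * (e a * f) := by rw [← hg a]; noncomm_ring
            _ = 0 := by rw [h2, mul_zero]
        have e2 : g * e a * f = 0 := by rw [mul_assoc, h2, mul_zero]
        have e3 : e a * (g * f) = 0 := by rw [← mul_assoc, ← hg a, mul_assoc, h2, mul_zero]
        calc g * (e a + f) + (1 - (e a + f)) = g * e a + g * f + 1 - e a - f := by noncomm_ring
          _ = g * e a * (g * f) + (g * e a - g * e a * f) + (g * f - e a * (g * f)) +
              (1 - e a - f + e a * f) := by rw [e1, e2, e3, h2]; abel
          _ = _ := by noncomm_ring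
      rw [h4]
      have h5 := hmul _ _ _ _ (hP a) ih
      have h6 : N + s.card * (N + 1) + 1 = (s.card + 1) * (N + 1) := by ring
      rwa [h6] at h5
  have := key Finset.univ
  rwa [hs, mul_one, sub_self, add_zero, Finset.card_univ, Fintype.card_fin] at this

theorem gen_of_partition {k : ℕ} {e : Fin k → M}
    (ho : ∀ i j, i ≠ j → e i * e j = 0) (hs : ∑ i, e i = 1) {g : M} (hg : ∀ i, g * e i = e i * g)
    {P : M → Prop} (h1 : P 1) (hmul : ∀ x y, P x → P y → P (x * y))
    (hP : ∀ i, P (g * e i + (1 - e i))) : P g :=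
  gen_graded (P := fun _ x => P x) (N := 0) ho hs hg h1 (fun _ _ x y hx hy => hmul x y hx hy) hP

theorem IsProj.sum {k : ℕ} {e : Fin k → M} (hp : ∀ i, IsProj (e i))
    (ho : ∀ i j, i ≠ j → e i * e j = 0) : IsProj (∑ i, e i) := by
  constructor
  · rw [Finset.sum_mul]
    refine Finset.sum_congr rfl fun i _ => ?_
    rw [Finset.mul_sum, Finset.sum_eq_single i]
    · exact (hp i).mul
    · intro j _ hj; exact ho i j (Ne.symm hj)
    · simp
  · rw [star_sum]
    exact Finset.sum_congr rfl fun i _ => (hp i).star

/-- the stabiliser of the class of `u` -/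
def Stab (u g : M) : Prop := star g * g = 1 ∧ g * star g = 1 ∧ ∃ n, Conn n u (g * u * star g)

theorem haar_conj {u g : M} (hu : HaarU u) (h1 : star g * g = 1) (h2 : g * star g = 1) :
    HaarU (g * u * star g) := hu.conj h1 h2

theorem Stab.one {u : M} (hu : HaarU u) : Stab u 1 := by
  refine ⟨by simp, by simp, 0, ?_⟩
  simpa using Conn.refl hu

theorem Stab.mul {u g h : M} (hg : Stab u g) (hh : Stab u h) :
    Stab u (g * h) := by
  obtain ⟨g1, g2, n, hn⟩ := hg
  obtain ⟨h1, h2, m, hm⟩ := hh
  refine ⟨?_, ?_, n + m + 1, ?_⟩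
  · calc star (g * h) * (g * h) = star h * (star g * g) * h := by rw [star_mul]; noncomm_ring
      _ = 1 := by rw [g1, mul_one, h1]
  · calc (g * h) * star (g * h) = g * (h * star h) * star g := by rw [star_mul]; noncomm_ring
      _ = 1 := by rw [h2, mul_one, g2]
  · have h3 := hm.conj g1 g2
    have h4 : g * (h * u * star h) * star g = g * h * u * star (g * h) := by
      rw [star_mul]; noncomm_ring
    rw [h4] at h3
    exact hn.trans h3

/-- the stabiliser only depends on the class -/
theorem Stab.congr {u v g : M} {n : ℕ} (huv : Conn n u v)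
    (hg : Stab v g) : Stab u g := by
  obtain ⟨g1, g2, m, hm⟩ := hg
  refine ⟨g1, g2, n + m + 1 + n + 1, ?_⟩
  exact (huv.trans hm).trans ((huv.symm).conj g1 g2)

end

section

variable {K M : Type u} [CStarAlgebra K] [TVN K] [CStarAlgebra M] [TVN M] [FactorII M]
  {φ : K →⋆ₙₐ[ℂ] M} {e₀ : M}

/-- step (A): unitaries supported on a projection commuting with `u` of trace at most the trace of
the corner stabilise the class of `u` -/
theorem upA (hφ : CornerMap φ e₀) (hK : OneOrbit K) {u : M} (hu : HaarU u) {e : M}
    (he : IsProj e) (heu : u * e = e * u) (hte : tau e ≤ tau e₀) {h : M} (h1 : star h * h = e)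
    (h2 : h * star h = e) : Stab u (h + (1 - e)) := by
  have heS : Co ({u, star u} : Set M) e := co_pair heu (by
    have := congrArg star heu
    rw [star_mul, star_mul, he.star] at this; exact this.symm)
  have hS0 := commSet_unitary hu.isom hu.coisom
  have hS1 := hS0.insert he heS
  have hN1 := noMin_of_commute hS1.star hS1.comm
  -- enlarge `e` to `E`
  have hcS : Co (insert e ({u, star u} : Set M)) (1 - e) :=
    (Co.one.sub heS).insert (by rw [mul_sub, sub_mul, mul_one, one_mul])
  obtain ⟨r, hrS, hr, hre, hrt⟩ := exists_tau_eq hN1 hcS he.compl (s := tau e₀ - tau e)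
    (by linarith) (by rw [tau_sub, tau_one]; have := hφ.proj.tau_le_one; linarith)
  have her : e * r = 0 := by
    have : r * e = 0 := by
      rw [← hre, mul_assoc, sub_mul, one_mul, he.mul, sub_self, mul_zero]
    exact hr.mul_zero_swap he this
  have hE : IsProj (e + r) := he.add hr her
  set E : M := e + r with hEdef
  have heE : e * E = e := by rw [hEdef, mul_add, he.mul, her, add_zero]
  have hEe : E * e = e := he.mul_swap hE heE
  have htE : tau e₀ = tau E := by rw [hEdef, tau_add, hrt]; ring
  have hES : Co (insert e ({u, star u} : Set M)) E := (heS.insert rfl).add hrS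
  -- transport the corner to `E`
  obtain ⟨v, hv1, hv2⟩ := equiv_of_tau hφ.proj hE htE
  obtain ⟨ψ, hψ⟩ := hφ.conj hv1 hv2
  -- Haar unitaries commuting with everything
  have hS2 := hS1.insert hE hES
  have hN2 := noMin_of_commute hS2.star hS2.comm
  obtain ⟨half, hhalf⟩ := exists_halving hN2
  have hES2 : Co (insert E (insert e ({u, star u} : Set M))) E := hES.insert rfl
  obtain ⟨d₁, hd₁S, hd₁, -⟩ := tree_limit hhalf hES2 hE
  obtain ⟨d₂, hd₂S, hd₂, -⟩ := tree_limit hhalf (Co.one.sub hES2) hE.compl
  set D : M := d₁ + d₂ with hD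
  have hDH : HaarU D := (hd₁.add hE hd₂).haarU
  have huD : u * D = D * u := (hd₁S.add hd₂S).of_insert.of_insert u (Or.inl rfl)
  -- `h' = h + (E - e)`
  have heh : e * h = h := pi_mul_rng he h1 h2
  have hhe : h * e = h := pi_mul_src he h1
  have hEh : E * h = h := by rw [← heh, ← mul_assoc, hEe]
  have hhE : h * E = h := by rw [← hhe, mul_assoc, heE]
  set H : M := h + (1 - e) with hH
  have c1 : star h * (1 - e) = 0 := by
    have : star h * e = star h := by
      have := congrArg star heh; rwa [star_mul, he.star] at this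
    rw [mul_sub, mul_one, this, sub_self]
  have c2 : (1 - e) * h = 0 := by rw [sub_mul, one_mul, heh, sub_self]
  have c3 : h * (1 - e) = 0 := by rw [mul_sub, mul_one, hhe, sub_self]
  have c4 : (1 - e) * star h = 0 := by
    have := congrArg star c3; rwa [star_mul, he.compl.star, star_zero] at this
  have hH1 : star H * H = 1 := by
    rw [hH, star_add, he.compl.star, add_mul, mul_add, mul_add, h1, c1, c2, he.compl.mul]; abel
  have hH2 : H * star H = 1 := by
    rw [hH, star_add, he.compl.star, add_mul, mul_add, mul_add, h2, c3, c4, he.compl.mul]; abel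
  refine ⟨hH1, hH2, ?_⟩
  -- `H D H^* = d₁' + d₂`
  have hEH : H * E = E * H := by
    rw [hH, add_mul, mul_add E h, hhE, hEh, sub_mul, mul_sub E 1 e, one_mul, mul_one, heE, hEe]
  have hHs : star H * E = E * star H := by
    have := congrArg star hEH
    rw [star_mul, star_mul, hE.star] at this; exact this.symm
  have hHd2 : H * d₂ = d₂ := by
    have k1 : (1 - E) * d₂ = d₂ := hd₂.mul_left hE.compl
    have k2 : h * d₂ = 0 := by
      rw [← k1, ← mul_assoc, mul_sub, mul_one, hhE, sub_self, zero_mul]
    have k3 : e * d₂ = 0 := by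
      rw [← k1, ← mul_assoc, mul_sub, mul_one, heE, sub_self, zero_mul]
    rw [hH, add_mul, k2, sub_mul, one_mul, k3]; abel
  have hHd2' : d₂ * star H = d₂ := by
    have k1 : d₂ * (1 - E) = d₂ := hd₂.mul_right hE.compl
    have k2 : d₂ * star h = 0 := by
      have : E * star h = star h := by
        have := congrArg star hhE; rwa [star_mul, hE.star] at this
      rw [← k1, mul_assoc, sub_mul, one_mul, this, sub_self, mul_zero]
    have k3 : d₂ * e = 0 := by
      rw [← k1, mul_assoc, sub_mul, one_mul, hEe, sub_self, mul_zero]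
    rw [hH, star_add, he.compl.star, mul_add, k2, mul_sub, mul_one, k3]; abel
  have hsplit : H * D * star H = H * d₁ * star H + d₂ := by
    rw [hD, mul_add, add_mul, hHd2, hHd2']
  have hd₁' : IsHaarIn E (H * d₁ * star H) := by
    have k1 := hd₁.mul_left hE
    have k2 := hd₁.mul_right hE
    have hpow : ∀ m : ℕ, (H * d₁ * star H) ^ (m + 1) = H * d₁ ^ (m + 1) * star H := by
      intro m
      induction m with
      | zero => simp
      | succ m ih =>
        rw [pow_succ, ih, pow_succ d₁ (m + 1)]
        calc H * d₁ ^ (m + 1) * star H * (H * d₁ * star H) =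
            H * d₁ ^ (m + 1) * (star H * H) * d₁ * star H := by noncomm_ring
          _ = _ := by rw [hH1]; noncomm_ring
    refine ⟨?_, ?_, fun m hm => ?_⟩
    · calc star (H * d₁ * star H) * (H * d₁ * star H) = H * star d₁ * (star H * H) * d₁ * star H := by
            simp only [star_mul, star_star]; noncomm_ring
        _ = H * (star d₁ * d₁) * star H := by rw [hH1]; noncomm_ring
        _ = E := by rw [hd₁.src, hEH, mul_assoc, hH2, mul_one]
    · calc (H * d₁ * star H) * star (H * d₁ * star H) = H * d₁ * (star H * H) * star d₁ * star H := by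
            simp only [star_mul, star_star]; noncomm_ring
        _ = H * (d₁ * star d₁) * star H := by rw [hH1]; noncomm_ring
        _ = E := by rw [hd₁.rng, hEH, mul_assoc, hH2, mul_one]
    · obtain ⟨m, rfl⟩ : ∃ k, m = k + 1 := ⟨m - 1, by omega⟩
      rw [hpow, tr_comm, ← mul_assoc, hH1, one_mul, hd₁.tr _ hm]
  obtain ⟨a, ha, haH⟩ := hψ.exists_haar hd₁
  obtain ⟨b, hb, hbH⟩ := hψ.exists_haar hd₁'
  obtain ⟨n, hn⟩ := hK a b haH.haarU hbH.haarU
  have hn' := conn_corner hψ hn hd₂
  rw [ha, hb, ← hD, ← hsplit] at hn'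
  have huD0 := Conn.of_commute hu hDH huD
  have hDu0 : Conn 0 (H * D * star H) (H * u * star H) := (huD0.symm).conj hH1 hH2
  exact ⟨_, (huD0.trans hn').trans hDu0⟩

/-- step (B): unitaries of small support stabilise every class -/
theorem upB (hφ : CornerMap φ e₀) (hK : OneOrbit K) {u : M} (hu : HaarU u) {k : ℕ}
    (hk : 1 ≤ k * tau e₀) {q g : M} (hq : IsProj q) (hqt : k * tau q ≤ tau e₀)
    (hg1 : star g * g = 1) (hg2 : g * star g = 1) (hgq : g * q = q * g)
    (hgq' : g * (1 - q) = 1 - q) : Stab u g := by
  have hα := hφ.tau_pos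
  have hα1 := hφ.proj.tau_le_one
  have hk0 : (0 : ℝ) < k := by
    by_contra hcon
    push Not at hcon
    nlinarith
  set S : Set M := {u, star u} with hS
  have hS0 : CommSet S := commSet_unitary hu.isom hu.coisom
  have hN := noMin_of_commute hS0.star hS0.comm
  obtain ⟨e, heS, he, het, heo, hes⟩ := exists_partition hN (1 / k) (by positivity) k 1 Co.one
    IsProj.one (by rw [tau_one]; field_simp)
  have heu : ∀ i, u * e i = e i * u := fun i => heS i u (Or.inl rfl)
  -- range projections of `e i * q`
  have hchi : ∀ i, ∃ x : M, IsProj x ∧ x * e i = x ∧ e i * x = x ∧ x * (e i * q) = e i * q ∧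
      tau x ≤ tau q := by
    intro i
    obtain ⟨v, -, h1, h2, -, h4, h5, -, -⟩ := polar (e i * q)
    have hp := pi_rng h1
    have h6 : e i * (v * star v) = v * star v := by
      have h7 := h4 (1 - e i) (by rw [← mul_assoc, sub_mul, one_mul, (he i).mul, sub_self, zero_mul])
      rw [sub_mul, one_mul] at h7
      rw [← mul_assoc, ← sub_eq_zero.1 h7]
    have h8 : (star v * v) * q = star v * v := by
      have h7 := h5 (1 - q) (by rw [mul_assoc, mul_sub, mul_one, hq.mul, sub_self, mul_zero])
      rw [mul_sub, mul_one] at h7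
      rw [mul_assoc, ← sub_eq_zero.1 h7]
    refine ⟨v * star v, hp, hp.mul_swap' (he i) h6, h6, h2, ?_⟩
    rw [← pi_tau]; exact tau_le_of_le (pi_src h1) hq h8
  choose χ hχ hχe heχ hχq hχt using hchi
  have hχte : ∀ i, tau (χ i) ≤ tau (e i) := fun i => tau_le_of_le (hχ i) (he i) (hχe i)
  have hf : ∀ i, ∃ f, Co S f ∧ IsProj f ∧ f * e i = f ∧ tau f = tau (χ i) := fun i =>
    exists_tau_eq hN (heS i) (he i) (hχ i).tau_nonneg (hχte i)
  choose f hfS hf hfe hft using hf
  have hef : ∀ i, e i * f i = f i := fun i => (hf i).mul_swap (he i) (hfe i)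
  have hh : ∀ i, ∃ h : M, star h * h = e i ∧ h * star h = e i ∧ h * f i * star h = χ i := by
    intro i
    obtain ⟨a, ha1, ha2⟩ := equiv_of_tau (hf i) (hχ i) (hft i)
    obtain ⟨b, hb1, hb2⟩ := equiv_of_tau ((hf i).sub (he i) (hfe i)) ((hχ i).sub (he i) (hχe i))
      (by rw [tau_sub, tau_sub, hft])
    have ha3 := pi_mul_src (hf i) ha1
    have ha4 := pi_mul_rng (hf i) ha1 ha2
    have hb3 := pi_mul_src ((hf i).sub (he i) (hfe i)) hb1
    have hb4 := pi_mul_rng ((hf i).sub (he i) (hfe i)) hb1 hb2
    have z1 : f i * (e i - f i) = 0 := by rw [mul_sub, hfe, (hf i).mul, sub_self]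
    have z1' : (e i - f i) * f i = 0 := by rw [sub_mul, hef, (hf i).mul, sub_self]
    have z2 : χ i * (e i - χ i) = 0 := by rw [mul_sub, hχe, (hχ i).mul, sub_self]
    have c1 : star a * b = 0 := by
      rw [← ha4, ← hb4, star_mul, (hχ i).star, mul_assoc, ← mul_assoc (χ i), z2, zero_mul, mul_zero]
    have c1' : star b * a = 0 := by
      have := congrArg star c1; rwa [star_mul, star_star, star_zero] at this
    have c2 : a * star b = 0 := by
      rw [← ha3, ← hb3, star_mul, ((hf i).sub (he i) (hfe i)).star, mul_assoc, ← mul_assoc (f i), z1,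
        zero_mul, mul_zero]
    have c2' : b * star a = 0 := by
      have := congrArg star c2; rwa [star_mul, star_star, star_zero] at this
    have c3 : b * f i = 0 := by rw [← hb3, mul_assoc, z1', mul_zero]
    refine ⟨a + b, ?_, ?_, ?_⟩
    · rw [star_add, add_mul, mul_add, mul_add, c1, c1', ha1, hb1]; abel
    · rw [star_add, add_mul, mul_add, mul_add, c2, c2', ha2, hb2]; abel
    · rw [add_mul, c3, add_zero, ha3, star_add, mul_add, c2, ha2, add_zero]
  choose h hh1 hh2 hh3 using hh
  have hhe : ∀ i, h i * e i = h i := fun i => pi_mul_src (he i) (hh1 i)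
  have heh : ∀ i, e i * h i = h i := fun i => pi_mul_rng (he i) (hh1 i) (hh2 i)
  set H : M := ∑ i, h i with hH
  have hHe : ∀ i, H * e i = h i := fun i => by
    rw [hH, Finset.sum_mul, Finset.sum_eq_single i]
    · exact hhe i
    · intro j _ hj; rw [← hhe j, mul_assoc, heo j i hj, mul_zero]
    · simp
  have heH : ∀ i, e i * H = h i := fun i => by
    rw [hH, Finset.mul_sum, Finset.sum_eq_single i]
    · exact heh i
    · intro j _ hj; rw [← heh j, ← mul_assoc, heo i j (Ne.symm hj), zero_mul]
    · simp
  have hHstab : Stab u H := by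
    refine gen_of_partition heo hes (fun i => by rw [hHe, heH]) (P := Stab u) (Stab.one hu)
      (fun x y hx hy => hx.mul hy) (fun i => ?_)
    rw [hHe]
    refine upA hφ hK hu (he i) (heu i) ?_ (hh1 i) (hh2 i)
    rw [het, div_le_iff₀ hk0]; linarith
  obtain ⟨hH1, hH2, n, hn⟩ := hHstab
  set F : M := ∑ i, f i with hF
  set X : M := ∑ i, χ i with hX
  have hfo : ∀ i j, i ≠ j → f i * f j = 0 := fun i j hij => by
    rw [← hfe i, ← hef j, mul_assoc, ← mul_assoc (e i), heo i j hij, zero_mul, mul_zero]
  have hFp : IsProj F := IsProj.sum hf hfo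
  have hHF : H * F * star H = X := by
    rw [hF, hX, Finset.mul_sum, Finset.sum_mul]
    refine Finset.sum_congr rfl fun i _ => ?_
    have h1 : star (e i) * star H = star (h i) := by rw [← star_mul, hHe]
    rw [(he i).star] at h1
    calc H * f i * star H = H * (e i * f i * e i) * star H := by rw [hef, hfe]
      _ = (H * e i) * f i * (e i * star H) := by noncomm_ring
      _ = χ i := by rw [hHe, h1, hh3]
  have hXp : IsProj X := by
    rw [← hHF]
    constructor
    · calc H * F * star H * (H * F * star H) = H * F * (star H * H) * F * star H := by noncomm_ring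
        _ = H * (F * F) * star H := by rw [hH1]; noncomm_ring
        _ = _ := by rw [hFp.mul]
    · rw [star_mul, star_mul, star_star, hFp.star, mul_assoc]
  have hFu : u * F = F * u := by
    rw [hF, Finset.mul_sum, Finset.sum_mul]
    exact Finset.sum_congr rfl fun i _ => hfS i u (Or.inl rfl)
  set v : M := H * u * star H with hv
  have hvH : HaarU v := hu.conj hH1 hH2
  have hvX : v * X = X * v := by
    calc v * X = H * u * (star H * H) * F * star H := by rw [hv, ← hHF]; noncomm_ring
      _ = H * (u * F) * star H := by rw [hH1]; noncomm_ring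
      _ = H * (F * u) * star H := by rw [hFu]
      _ = H * F * (star H * H) * u * star H := by rw [hH1]; noncomm_ring
      _ = X * v := by rw [hv, ← hHF]; noncomm_ring
  have hXt : tau X ≤ tau e₀ := by
    rw [hX, tau_sum]
    calc ∑ i, tau (χ i) ≤ ∑ _i : Fin k, tau q := Finset.sum_le_sum fun i _ => hχt i
      _ = k * tau q := by simp
      _ ≤ _ := hqt
  have hXq : X * q = q := by
    calc X * q = ∑ i, χ i * q := by rw [hX, Finset.sum_mul]
      _ = ∑ i, e i * q := Finset.sum_congr rfl fun i _ => by
          rw [← hχq i, ← mul_assoc, hχe]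
      _ = q := by rw [← Finset.sum_mul, hes, one_mul]
  have hqX : q * X = q := hq.mul_swap' hXp hXq
  have hgX : g * X = g * q + X - q := by
    calc g * X = g * (q * X) + (g * (1 - q)) * X := by noncomm_ring
      _ = g * q + X - q := by rw [hqX, hgq', sub_mul, one_mul, hqX]; abel
  have hXg : X * g = g * q + X - q := by
    have h1 : (1 - q) * g = 1 - q := by
      calc (1 - q) * g = g * (1 - q) := by rw [sub_mul, mul_sub, one_mul, mul_one, hgq]
        _ = _ := hgq'
    calc X * g = (X * q) * g + X * ((1 - q) * g) := by noncomm_ring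
      _ = g * q + X - q := by rw [hXq, h1, mul_sub, mul_one, hXq, hgq]; abel
  have h1 : star (g * X) * (g * X) = X := by
    calc star (g * X) * (g * X) = X * (star g * g) * X := by
          rw [star_mul, hXp.star]; noncomm_ring
      _ = X := by rw [hg1, mul_one, hXp.mul]
  have h2 : (g * X) * star (g * X) = X := by
    calc (g * X) * star (g * X) = g * (X * X) * star g := by
          rw [star_mul, hXp.star]; noncomm_ring
      _ = X * g * star g := by rw [hXp.mul, hgX, ← hXg]
      _ = X := by rw [mul_assoc, hg2, mul_one]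
  have h3 := upA hφ hK hvH hXp hvX hXt h1 h2
  have h4 : g * X + (1 - X) = g := by
    calc g * X + (1 - X) = g * q + (1 - q) := by rw [hgX]; abel
      _ = g * q + g * (1 - q) := by rw [hgq']
      _ = g := by noncomm_ring
  rw [h4] at h3
  exact h3.congr hn

/-- step (C): every unitary stabilises every class -/
theorem stab_all (hφ : CornerMap φ e₀) (hK : OneOrbit K) {u : M} (hu : HaarU u) {g : M}
    (hg1 : star g * g = 1) (hg2 : g * star g = 1) : Stab u g := by
  have hα := hφ.tau_pos
  obtain ⟨k, hk⟩ : ∃ k : ℕ, 1 ≤ k * tau e₀ := by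
    obtain ⟨k, hk⟩ := exists_nat_ge (1 / tau e₀)
    exact ⟨k, by rwa [div_le_iff₀ hα] at hk⟩
  obtain ⟨m, hm⟩ := exists_nat_ge (k / tau e₀ + 1)
  have hm1 : (1 : ℝ) ≤ m := by
    have : 0 ≤ (k : ℝ) / tau e₀ := by positivity
    linarith
  have hm0 : (0 : ℝ) < m := by linarith
  have hkm : (k : ℝ) * (1 / m) ≤ tau e₀ := by
    rw [mul_one_div, div_le_iff₀ hm0]
    have : (k : ℝ) / tau e₀ ≤ m := by linarith
    rwa [div_le_iff₀ hα, mul_comm] at this
  have hS := commSet_unitary hg1 hg2
  have hN := noMin_of_commute hS.star hS.comm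
  obtain ⟨r, hrS, hr, hrt, hro, hrs⟩ := exists_partition hN (1 / m) (by positivity) m 1 Co.one
    IsProj.one (by rw [tau_one]; field_simp)
  have hgr : ∀ i, g * r i = r i * g := fun i => hrS i g (Or.inl rfl)
  have hgr' : ∀ i, star g * r i = r i * star g := fun i => hrS i _ (Or.inr rfl)
  refine gen_of_partition hro hrs hgr (P := Stab u) (Stab.one hu) (fun x y hx hy => hx.mul hy)
    (fun i => ?_)
  have hp := hr i
  have hz : r i * (1 - r i) = 0 := by rw [mul_sub, mul_one, hp.mul, sub_self]
  have hz' : (1 - r i) * r i = 0 := by rw [sub_mul, one_mul, hp.mul, sub_self]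
  have a1 : star (g * r i) * (1 - r i) = 0 := by
    rw [star_mul, hp.star, ← hgr', mul_assoc, hz, mul_zero]
  have a2 : (1 - r i) * (g * r i) = 0 := by rw [hgr, ← mul_assoc, hz', zero_mul]
  have a3 : (g * r i) * (1 - r i) = 0 := by rw [mul_assoc, hz, mul_zero]
  have a4 : (1 - r i) * star (g * r i) = 0 := by
    rw [star_mul, hp.star, ← mul_assoc, hz', zero_mul]
  apply upB hφ hK hu hk hp (by rw [hrt]; exact hkm)
  · rw [star_add, hp.compl.star, add_mul, mul_add, mul_add, a1, a2, hp.compl.mul]
    have : star (g * r i) * (g * r i) = r i := by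
      calc star (g * r i) * (g * r i) = r i * (star g * g) * r i := by
            rw [star_mul, hp.star]; noncomm_ring
        _ = r i := by rw [hg1, mul_one, hp.mul]
    rw [this]; abel
  · rw [star_add, hp.compl.star, add_mul, mul_add, mul_add, a3, a4, hp.compl.mul]
    have : (g * r i) * star (g * r i) = r i := by
      calc (g * r i) * star (g * r i) = g * (r i * r i) * star g := by
            rw [star_mul, hp.star]; noncomm_ring
        _ = r i := by rw [hp.mul, hgr, mul_assoc, hg2, mul_one]
    rw [this]; abel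
  · rw [add_mul, mul_add, hz', mul_assoc, hp.mul, ← mul_assoc, ← hgr, mul_assoc, hp.mul, hz]
  · rw [add_mul, a3, hp.compl.mul, zero_add]

end

end SCO
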